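import Pool.Agent.R426.QC.Cnv

/-!
# Determinants for families with an antisymmetric part
-/

set_option autoImplicit false
set_option linter.unusedSectionVars false

namespace Pool.Agent.R426.QD

open Pool.Agent.Y698.SG (gd)
open Pool.Agent.R426.QC (gd_Mt exists_ker)
open Pool.Agent.Y697.PP (Mt ker_of_det)

lemma z2 : ∀ x : ZMod 2, x + x = 0 := by decide
lemma zsq : ∀ x : ZMod 2, x * x = x := by decide
lemma zor : ∀ x : ZMod 2, x = 0 ∨ x = 1 := by decide

variable {V : Type} [DecidableEq V]

/-- the kernel condition -/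
def Kr (c : V → ZMod 2) (r : V → V → ZMod 2) (S : Finset V) : Prop :=
  ∃ x : V → ZMod 2, (∀ v ∈ S, c v * x v + ∑ u ∈ S, r v u * (x v + x u) = 0) ∧ ∃ v ∈ S, x v ≠ 0

lemma gd_zero_iff (c : V → ZMod 2) (r : V → V → ZMod 2) (S : Finset V) :
    gd c r S = 0 ↔ Kr c r S := by
  constructor
  · intro h
    rw [gd_Mt] at h
    exact exists_ker r c h
  · rintro ⟨x, h1, v, hv, hx⟩
    by_contra h
    rw [gd_Mt] at h
    exact hx (ker_of_det r c h x h1 v hv)

lemma gd_eq_of {V' : Type} [DecidableEq V'] {c : V → ZMod 2} {r : V → V → ZMod 2} {S : Finset V}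
    {c' : V' → ZMod 2} {r' : V' → V' → ZMod 2} {S' : Finset V'} (h : Kr c r S ↔ Kr c' r' S') :
    gd c r S = gd c' r' S' := by
  rw [← gd_zero_iff, ← gd_zero_iff] at h
  rcases zor (gd c r S) with h1 | h1 <;> rcases zor (gd c' r' S') with h2 | h2
  · rw [h1, h2]
  · have := h.1 h1
    rw [h2] at this
    exact absurd this (by decide)
  · have := h.2 h2
    rw [h1] at this
    exact absurd this (by decide)
  · rw [h1, h2]

/-- the determinant vanishes if the columns have sum zero -/
lemma gd_even {t : V → ZMod 2} {r : V → V → ZMod 2} {A : Finset V} (hne : A.Nonempty)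
    (ht : ∑ i ∈ A, t i = 0)
    (hr : ∀ i ∈ A, ∀ j ∈ A, i ≠ j → r i j + r j i = t i * t j) : gd t r A = 0 := by
  unfold gd
  obtain ⟨a, ha⟩ := hne
  refine Matrix.exists_vecMul_eq_zero_iff.1 ⟨fun _ => 1, ?_, ?_⟩
  · intro h
    have := congrFun h ⟨a, ha⟩
    exact one_ne_zero this
  · funext j
    rw [Matrix.vecMul, dotProduct]
    simp only [one_mul, Matrix.of_apply, Pi.zero_apply]
    have e1 : ∀ i : A, (if i = j then t i + ∑ k ∈ A.erase i, r i k else r i j) =
        (fun i : V => if i = j then t i + ∑ k ∈ A.erase i, r i k else r i j) i := by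
      intro i
      simp only [Subtype.ext_iff]
    simp only [e1]
    rw [Finset.sum_coe_sort A (fun i : V => if i = j then t i + ∑ k ∈ A.erase i, r i k else r i j),
      ← Finset.add_sum_erase A _ j.2, if_pos rfl]
    have e2 : ∑ x ∈ A.erase (j : V), (if x = j then t x + ∑ k ∈ A.erase x, r x k else r x j) =
        ∑ x ∈ A.erase (j : V), r x j :=
      Finset.sum_congr rfl fun x hx => if_neg (Finset.ne_of_mem_erase hx)
    rw [e2, add_assoc, ← Finset.sum_add_distrib]
    have e3 : ∑ x ∈ A.erase (j : V), (r j x + r x j) = ∑ x ∈ A.erase (j : V), t j * t x :=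
      Finset.sum_congr rfl fun x hx => hr j j.2 x (Finset.mem_of_mem_erase hx)
        (Finset.ne_of_mem_erase hx).symm
    rw [e3, ← Finset.mul_sum]
    have e4 : ∑ x ∈ A.erase (j : V), t x = t j := by
      have h1 := Finset.add_sum_erase A t j.2
      rw [ht] at h1
      linear_combination h1 - z2 (t j)
    rw [e4, zsq, z2]

lemma sum_swap {A : Finset V} {t y : V → ZMod 2} {r : V → V → ZMod 2}
    (ht : ∑ i ∈ A, t i = 0) (hr : ∀ i ∈ A, ∀ j ∈ A, i ≠ j → r i j + r j i = t i * t j) :
    ∑ v ∈ A, ∑ u ∈ A, r v u * (y v + y u) = ∑ v ∈ A, t v * y v := by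
  have h1 : ∑ v ∈ A, ∑ u ∈ A, r v u * (y v + y u) =
      ∑ v ∈ A, ∑ u ∈ A, (r v u + r u v) * y v := by
    have e1 : ∑ v ∈ A, ∑ u ∈ A, r v u * (y v + y u) =
        ∑ v ∈ A, ∑ u ∈ A, r v u * y v + ∑ v ∈ A, ∑ u ∈ A, r v u * y u := by
      rw [← Finset.sum_add_distrib]
      refine Finset.sum_congr rfl fun v _ => ?_
      rw [← Finset.sum_add_distrib]
      exact Finset.sum_congr rfl fun u _ => by ring
    have e2 : ∑ v ∈ A, ∑ u ∈ A, r v u * y u = ∑ v ∈ A, ∑ u ∈ A, r u v * y v := Finset.sum_comm
    rw [e1, e2, ← Finset.sum_add_distrib]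
    refine Finset.sum_congr rfl fun v _ => ?_
    rw [← Finset.sum_add_distrib]
    exact Finset.sum_congr rfl fun u _ => by ring
  rw [h1]
  refine Finset.sum_congr rfl fun v hv => ?_
  rw [← Finset.add_sum_erase A _ hv, z2, zero_mul, zero_add]
  have e3 : ∑ u ∈ A.erase v, (r v u + r u v) * y v = ∑ u ∈ A.erase v, t v * y v * t u :=
    Finset.sum_congr rfl fun u hu => by
      rw [hr v hv u (Finset.mem_of_mem_erase hu) (Finset.ne_of_mem_erase hu).symm]
      ring
  rw [e3, ← Finset.mul_sum]
  have e4 : ∑ x ∈ A.erase v, t x = t v := by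
    have h2 := Finset.add_sum_erase A t hv
    rw [ht] at h2
    linear_combination h2 - z2 (t v)
  rw [e4]
  have := zsq (t v)
  linear_combination (y v) * this

/-- the relation for a kernel vector -/
lemma kr_sum {A : Finset V} {t c y : V → ZMod 2} {r : V → V → ZMod 2}
    (ht : ∑ i ∈ A, t i = 0) (hr : ∀ i ∈ A, ∀ j ∈ A, i ≠ j → r i j + r j i = t i * t j)
    (hy : ∀ v ∈ A, c v * y v + ∑ u ∈ A, r v u * (y v + y u) = 0) :
    ∑ v ∈ A, c v * y v = ∑ v ∈ A, t v * y v := by
  have h1 : ∑ v ∈ A, (c v * y v + ∑ u ∈ A, r v u * (y v + y u)) = 0 := Finset.sum_eq_zero hy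
  rw [Finset.sum_add_distrib, sum_swap ht hr] at h1
  linear_combination h1 - z2 (∑ v ∈ A, t v * y v)

/-- the transposed relations: the row sums -/
lemma row_swap {A : Finset V} {t y : V → ZMod 2} {r : V → V → ZMod 2}
    (ht : ∑ i ∈ A, t i = 0) (hr : ∀ i ∈ A, ∀ j ∈ A, i ≠ j → r i j + r j i = t i * t j) {v : V}
    (hv : v ∈ A) : ∑ u ∈ A, r u v * (y v + y u) =
      ∑ u ∈ A, r v u * (y v + y u) + t v * ∑ u ∈ A, t u * y u := by
  have h1 : ∀ u ∈ A, r u v * (y v + y u) = r v u * (y v + y u) + t v * t u * (y v + y u) := by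
    intro u hu
    by_cases huv : u = v
    · rw [huv, z2, mul_zero, mul_zero, add_zero]
    · have := hr v hv u hu (Ne.symm huv)
      linear_combination (y v + y u) * this - z2 (r v u * (y v + y u))
  rw [Finset.sum_congr rfl h1, Finset.sum_add_distrib]
  congr 1
  have e1 : ∑ u ∈ A, t v * t u * (y v + y u) =
      t v * y v * ∑ u ∈ A, t u + t v * ∑ u ∈ A, t u * y u := by
    rw [Finset.mul_sum, Finset.mul_sum, ← Finset.sum_add_distrib]
    exact Finset.sum_congr rfl fun u _ => by ring
  rw [e1, ht, mul_zero, zero_add]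

/-- the transposed determinant -/
lemma gd_transp {A : Finset V} {t c : V → ZMod 2} {r : V → V → ZMod 2}
    (ht : ∑ i ∈ A, t i = 0) (hr : ∀ i ∈ A, ∀ j ∈ A, i ≠ j → r i j + r j i = t i * t j) :
    gd (fun i => t i + c i) (fun i j => r j i) A = gd c r A := by
  unfold gd
  rw [← Matrix.det_transpose]
  congr 1
  ext i j
  rw [Matrix.transpose_apply, Matrix.of_apply, Matrix.of_apply]
  by_cases h : i = j
  · subst h
    rw [if_pos rfl, if_pos rfl]
    have e1 : ∑ k ∈ A.erase (i : V), r k i = ∑ k ∈ A.erase (i : V), (r i k + t i * t k) := by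
      refine Finset.sum_congr rfl fun k hk => ?_
      have := hr i i.2 k (Finset.mem_of_mem_erase hk) (Finset.ne_of_mem_erase hk).symm
      linear_combination this - z2 (r i k)
    have e4 : ∑ x ∈ A.erase (i : V), t x = t i := by
      have h2 := Finset.add_sum_erase A t i.2
      rw [ht] at h2
      linear_combination h2 - z2 (t i)
    rw [e1, Finset.sum_add_distrib, ← Finset.mul_sum, e4]
    have := zsq (t (i : V))
    linear_combination this + z2 (t (i : V))
  · rw [if_neg h, if_neg (Ne.symm h)]

/-- adding the element of index zero -/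
theorem gd_insert {A : Finset V} {t c : V → ZMod 2} {r : V → V → ZMod 2}
    {t' : Option V → ZMod 2} {r' : Option V → Option V → ZMod 2}
    (ht : ∑ i ∈ A, t i = 0) (hr : ∀ i ∈ A, ∀ j ∈ A, i ≠ j → r i j + r j i = t i * t j)
    (h0 : t' none = 1) (h1 : ∀ i ∈ A, t' (some i) = t i) (h2 : ∀ j ∈ A, r' none (some j) = c j)
    (h3 : ∀ i ∈ A, r' (some i) none = t i + c i)
    (h4 : ∀ i ∈ A, ∀ j ∈ A, i ≠ j → r' (some i) (some j) = r j i) :
    gd t' r' A.insertNone = gd c r A := by
  apply gd_eq_of
  constructor
  · rintro ⟨x, hx, w, hw, hxw⟩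
    have hn : none ∈ A.insertNone := Finset.none_mem_insertNone
    have hs : ∀ i ∈ A, some i ∈ A.insertNone := fun i hi => Finset.some_mem_insertNone.2 hi
    set x0 := x none with hx0
    -- the vector `y`
    set y : V → ZMod 2 := fun i => x (some i) + x0 with hy
    have hrow : ∀ v ∈ A, t v * x (some v) + (t v + c v) * y v +
        (∑ u ∈ A, r v u * (y v + y u) + t v * ∑ u ∈ A, t u * y u) = 0 := by
      intro v hv
      have k := hx (some v) (hs v hv)
      rw [Finset.sum_insertNone, h1 v hv, h3 v hv] at k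
      rw [← row_swap ht hr hv]
      have e1 : ∑ u ∈ A, r' (some v) (some u) * (x (some v) + x (some u)) =
          ∑ u ∈ A, r u v * (y v + y u) := by
        refine Finset.sum_congr rfl fun u hu => ?_
        by_cases huv : v = u
        · rw [huv, z2, z2, mul_zero, mul_zero]
        · rw [h4 v hv u hu huv, hy]
          simp only
          linear_combination -(r u v) * z2 x0
      rw [e1] at k
      linear_combination k
    have hzero : x0 + ∑ u ∈ A, c u * y u = 0 := by
      have k := hx none hn
      rw [Finset.sum_insertNone, h0, one_mul, z2, mul_zero, zero_add] at k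
      rw [← k]
      congr 1
      refine Finset.sum_congr rfl fun u hu => ?_
      rw [h2 u hu, hy]
      simp only
      ring
    -- the sum of all the rows
    have hty : ∑ u ∈ A, t u * y u = x0 := by
      have k : ∑ v ∈ A, (t v * x (some v) + (t v + c v) * y v +
        (∑ u ∈ A, r v u * (y v + y u) + t v * ∑ u ∈ A, t u * y u)) = 0 :=
        Finset.sum_eq_zero hrow
      rw [Finset.sum_add_distrib, Finset.sum_add_distrib, Finset.sum_add_distrib,
        sum_swap ht hr, ← Finset.sum_mul, ht, zero_mul, add_zero] at k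
      have e1 : ∑ v ∈ A, t v * x (some v) = ∑ v ∈ A, t v * y v := by
        have e2 : ∀ v ∈ A, t v * y v = t v * x (some v) + t v * x0 := fun v _ => by
          rw [hy]; ring
        rw [Finset.sum_congr rfl e2, Finset.sum_add_distrib, ← Finset.sum_mul, ht, zero_mul,
          add_zero]
      have e3 : ∑ v ∈ A, (t v + c v) * y v = ∑ v ∈ A, t v * y v + ∑ v ∈ A, c v * y v := by
        rw [← Finset.sum_add_distrib]
        exact Finset.sum_congr rfl fun v _ => by ring
      rw [e1, e3] at k
      linear_combination k + hzero - z2 (∑ v ∈ A, t v * y v) - z2 (∑ v ∈ A, c v * y v) - z2 x0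
    refine ⟨y, fun v hv => ?_, ?_⟩
    · have k := hrow v hv
      rw [hty] at k
      have e1 : x (some v) = y v + x0 := by
        rw [hy]
        simp only
        linear_combination -z2 x0
      rw [e1] at k
      linear_combination k - z2 (t v * y v) - z2 (t v * x0)
    · by_contra hcon
      push Not at hcon
      have hx00 : x0 = 0 := by
        rw [← hty]
        exact Finset.sum_eq_zero fun u hu => by rw [hcon u hu, mul_zero]
      apply hxw
      rcases w with _ | w
      · exact hx00
      · have hw' : w ∈ A := Finset.some_mem_insertNone.1 hw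
        have k := hcon w hw'
        rw [hy] at k
        simp only at k
        rw [hx00, add_zero] at k
        exact k
  · rintro ⟨y, hy, w, hw, hyw⟩
    set x0 : ZMod 2 := ∑ u ∈ A, t u * y u with hx0
    have hcy := kr_sum ht hr hy
    refine ⟨fun o => o.elim x0 (fun i => y i + x0), ?_, ?_⟩
    · intro o ho
      rcases o with _ | v
      · rw [Finset.sum_insertNone, h0]
        simp only [Option.elim]
        rw [one_mul, z2, mul_zero, zero_add]
        have e1 : ∑ u ∈ A, r' none (some u) * (x0 + (y u + x0)) = ∑ u ∈ A, c u * y u := by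
          refine Finset.sum_congr rfl fun u hu => ?_
          rw [h2 u hu]
          linear_combination (c u) * z2 x0
        rw [e1, hcy, ← hx0, z2]
      · have hv : v ∈ A := Finset.some_mem_insertNone.1 ho
        rw [Finset.sum_insertNone, h1 v hv, h3 v hv]
        simp only [Option.elim]
        have e1 : ∑ u ∈ A, r' (some v) (some u) * (y v + x0 + (y u + x0)) =
            ∑ u ∈ A, r u v * (y v + y u) := by
          refine Finset.sum_congr rfl fun u hu => ?_
          by_cases huv : v = u
          · rw [huv, z2, z2, mul_zero, mul_zero]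
          · rw [h4 v hv u hu huv]
            linear_combination (r u v) * z2 x0
        rw [e1, row_swap ht hr hv, ← hx0]
        have k := hy v hv
        linear_combination k + z2 (t v * y v) + z2 (t v * x0) + z2 ((t v + c v) * x0)
    · by_cases hx00 : x0 = 0
      · refine ⟨some w, Finset.some_mem_insertNone.2 hw, ?_⟩
        simp only [Option.elim]
        rw [hx00, add_zero]
        exact hyw
      · exact ⟨none, Finset.none_mem_insertNone, hx00⟩

end Pool.Agent.R426.QD
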