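import Pool.Agent.R426.QD.Hd
import Pool.Agent.R426.QC.Sel
import Pool.Agent.Y279.SG.PI

/-!
# The normalisations of the prime elements at the two primes above two
-/

set_option autoImplicit false
set_option linter.unusedSectionVars false

namespace Pool.Agent.R426.QD

open Pool.Agent.R426.QC hiding bR
open Pool.Agent.Y698 Pool.Agent.Y698.SG
open Pool.Agent.W192.HK (sp)
open Pool.Agent.Y279.SG (sy_cj)

/-- the element `±ϖ` congruent to one modulo `ᾱ²` -/
noncomputable def nb (ϖ : RR) : RR := if tp ϖ = 0 then ϖ else -ϖ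

/-- its conjugate -/
noncomputable def cf (ϖ : RR) : RR := cj (nb ϖ)

lemma nb_or (ϖ : RR) : nb ϖ = ϖ ∨ nb ϖ = -ϖ := by
  unfold nb
  split_ifs
  · exact Or.inl rfl
  · exact Or.inr rfl

lemma sy_nb (ϖ x : RR) : sy (nb ϖ) x = sy ϖ x := by
  rcases nb_or ϖ with h | h <;> rw [h]
  exact sy_negm ϖ x

lemma sp_nb (ϖ : RR) : sp (nb ϖ) = sp ϖ := by
  rcases nb_or ϖ with h | h <;> rw [h]
  exact Ideal.span_singleton_neg ϖ

lemma nb_mem {x ϖ : RR} : nb x ∈ sp ϖ ↔ x ∈ sp ϖ := by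
  rcases nb_or x with h | h <;> rw [h]
  exact neg_mem_iff

lemma nb_pr {ϖ : RR} (h : Prime ϖ) : Prime (nb ϖ) := by
  rcases nb_or ϖ with h1 | h1 <;> rw [h1]
  · exact h
  · exact h.neg

lemma nb_dvd {ϖ x : RR} : nb ϖ ∣ x ↔ ϖ ∣ x := by
  rcases nb_or ϖ with h1 | h1 <;> rw [h1]
  exact neg_dvd

lemma pr_cj {ϖ : RR} (h : Prime ϖ) : Prime (cj ϖ) := by
  refine ⟨fun h0 => h.ne_zero ?_, fun hu => h.not_isUnit ?_, fun x y hxy => ?_⟩
  · rw [← cj_cj ϖ, h0, map_zero]
  · have := hu.map Pool.Agent.Y698.cj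
    rwa [cj_cj] at this
  · have h1 : ϖ ∣ Pool.Agent.Y698.cj x * Pool.Agent.Y698.cj y := by
      rw [← cj_dvd, map_mul, cj_cj, cj_cj]
      exact hxy
    rcases h.dvd_or_dvd h1 with h2 | h2
    · left
      rw [← cj_dvd, cj_cj] at h2
      exact h2
    · right
      rw [← cj_dvd, cj_cj] at h2
      exact h2

lemma od_cj {ϖ : RR} (h : ¬ ϖ ∣ 2) : ¬ cj ϖ ∣ 2 := by
  intro h1
  apply h
  have h2 : cj ϖ ∣ cj 2 := by rw [map_ofNat]; exact h1
  exact cj_dvd.1 h2

lemma mem_cj {x y : RR} : cj x ∈ sp (cj y) ↔ x ∈ sp y := by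
  rw [Ideal.mem_span_singleton, Ideal.mem_span_singleton]
  exact cj_dvd

lemma nb_r4 {ϖ : RR} (h : Pn ϖ) : r4 (cj (nb ϖ)) = 1 := by
  unfold nb
  rcases h.cases with h1 | ⟨p, A, B, h1, hn⟩
  · rw [if_pos (tp_pm h1)]
    exact r4_m4 h1.cj.m4
  · rw [if_neg (by rw [h1.tp]; exact one_ne_zero), map_neg, map_neg, r4_cj3 h1]
    have hB := h1.hB
    have h2 : (A + B - 4 * B) % 4 = 3 := by omega
    have h3 : ((A + B - 4 * B : ℤ) : ZMod 4) = ((3 : ℤ) : ZMod 4) := by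
      rw [ZMod.intCast_eq_intCast_iff']
      exact h2
    rw [h3]
    decide

lemma tp_cf (ϖ : RR) : tp (cf ϖ) = tp ϖ := by
  unfold tp cf
  have h1 : (-1 : RR) = cj (-1) := by rw [map_neg, map_one]
  rw [h1, sy_cj, sy_nb, ← h1]

lemma lg_sy_nb {ϖ x : RR} (h : Prime ϖ) (h2 : ¬ ϖ ∣ 2) (hx : x ∉ sp ϖ) :
    lg (sy ϖ (nb x)) = tp ϖ * tp x + lg (sy ϖ x) := by
  unfold nb
  rcases zor (tp x) with h3 | h3
  · rw [if_pos h3, h3, mul_zero, zero_add]
  · rw [if_neg (by rw [h3]; exact one_ne_zero), h3, mul_one, lg_neg' h h2 hx]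

lemma e7_sgn {x : RR} (h : x ∉ sp fR) : e7 x = 1 ∨ e7 x = -1 := by
  rw [← sy_fR]
  exact sy_sgn h

lemma lg_e7_nb {x : RR} (hx : x ∉ sp fR) : lg (e7 (nb x)) = tp x + lg (e7 x) := by
  unfold nb
  rcases zor (tp x) with h3 | h3
  · rw [if_pos h3, h3, zero_add]
  · rw [if_neg (by rw [h3]; exact one_ne_zero), h3, e7_neg, ← neg_one_mul,
      lg_mul (Or.inr rfl) (e7_sgn hx), lg_neg_one]

lemma prod_nb {ι : Type} (S : Finset ι) (π : ι → RR) :
    ∏ i ∈ S, nb (π i) = (if ∑ i ∈ S, tp (π i) = 0 then 1 else -1) * ∏ i ∈ S, π i := by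
  classical
  induction S using Finset.induction_on with
  | empty => simp
  | insert a S ha ih =>
    rw [Finset.prod_insert ha, Finset.prod_insert ha, Finset.sum_insert ha, ih]
    unfold nb
    rcases zor (tp (π a)) with h3 | h3
    · rw [if_pos h3, h3, zero_add]
      ring
    · rw [if_neg (by rw [h3]; exact one_ne_zero), h3]
      rcases zor (∑ i ∈ S, tp (π i)) with h4 | h4
      · rw [if_pos h4, h4, add_zero, if_neg one_ne_zero]
        ring
      · rw [if_neg (by rw [h4]; exact one_ne_zero), h4, if_pos (by decide)]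
        ring

lemma pn_cf {ϖ : RR} (h : Pn ϖ) : Pn (cf ϖ) :=
  ⟨pr_cj (nb_pr h.pr), od_cj fun h1 => h.od (nb_dvd.1 h1), nb_r4 h⟩

lemma prod_nb' {ι : Type} {S : Finset ι} {π : ι → RR} (hS : Ev S π) :
    ∏ i ∈ S, nb (π i) = ∏ i ∈ S, π i := by
  rw [prod_nb, if_pos hS.tp, one_mul]

/-- the conjugate family -/
lemma Ev.cf {ι : Type} {S : Finset ι} {π : ι → RR} (hS : Ev S π) : Ev S (fun i => cf (π i)) := by
  refine ⟨⟨fun i hi => pn_cf (hS.fa.pn i hi), fun i hi j hj hij h => ?_⟩, fun i hi => ⟨?_, ?_⟩,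
    ?_, ?_⟩
  · unfold QD.cf at h
    rw [mem_cj, sp_nb, nb_mem] at h
    exact hS.fa.ne i hi j hj hij h
  · intro h
    apply (hS.c7 i hi).1
    rw [← e7_eq_zero]
    unfold QD.cf at h
    rw [← e7_eq_zero, e7_cj] at h
    rcases nb_or (π i) with h1 | h1 <;> rw [h1] at h
    · exact h
    · rw [e7_neg] at h
      linear_combination -h
  · intro h
    apply (hS.c7 i hi).2
    unfold QD.cf at h
    have h1 : cj fR = -fR := by
      unfold fR
      rw [map_sub, map_mul, map_ofNat, map_one, QC.cj_aR]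
      ring
    have h2 : fR = cj (-fR) := by rw [map_neg, h1, neg_neg]
    rw [h2, mem_cj, sp_nb, neg_mem_iff] at h
    exact h
  · simp only [tp_cf]
    exact hS.tp
  · obtain ⟨J, hJ⟩ := hS.m4
    refine ⟨cj J, ?_⟩
    have h1 : ∏ i ∈ S, cj (nb (π i)) = cj (∏ i ∈ S, nb (π i)) := (map_prod cj _ _).symm
    show ∏ i ∈ S, cj (nb (π i)) = _
    rw [h1, prod_nb' hS, hJ, map_add, map_mul, map_one, map_ofNat]

lemma gd_congr {V : Type} [DecidableEq V] {c c' : V → ZMod 2} {r r' : V → V → ZMod 2}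
    {S : Finset V} (hc : ∀ i ∈ S, c i = c' i)
    (hr : ∀ i ∈ S, ∀ j ∈ S, i ≠ j → r i j = r' i j) : gd c r S = gd c' r' S := by
  unfold gd
  congr 1
  ext i j
  rw [Matrix.of_apply, Matrix.of_apply]
  by_cases h : i = j
  · rw [if_pos h, if_pos h, hc i i.2]
    congr 1
    exact Finset.sum_congr rfl fun k hk => hr i i.2 k (Finset.mem_of_mem_erase hk)
      (Finset.ne_of_mem_erase hk).symm
  · rw [if_neg h, if_neg h]
    exact hr i i.2 j j.2 fun h1 => h (Subtype.ext h1)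

variable {ι : Type} [DecidableEq ι] {S : Finset ι} {π : ι → RR}

lemma rel_mr (hS : Fa S π) {i j : ι} (hi : i ∈ S) (hj : j ∈ S) (hij : i ≠ j) :
    mr π i j + mr π j i = tp (π i) * tp (π j) := by
  have := rel_sy hS hi hj hij
  unfold mr
  rw [add_comm]
  exact this

lemma gd_tr (hS : Ev S π) : gd (fun i => tp (π i) + mc π i) (fun i j => mr π j i) S =
    gd (mc π) (mr π) S :=
  gd_transp hS.tp fun _ hi _ hj hij => rel_mr hS.fa hi hj hij

/-- the matrix of the conjugate family -/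
lemma gd_cf (hS : Ev S π) : gd (mc (fun i => cf (π i))) (mr (fun i => cf (π i))) S =
    gd (mc π) (mr π) S := by
  rw [← gd_tr hS]
  refine gd_congr (fun i hi => ?_) fun i hi j hj hij => ?_
  · show lg (e7 (cj (nb (π i)))) = _
    rw [e7_cj, lg_e7_nb (hS.c7 i hi).1]
    rfl
  · show lg (sy (cj (nb (π j))) (cj (nb (π i)))) = _
    have hj' := hS.fa.pn j hj
    rw [sy_cj, sy_nb, lg_sy_nb hj'.pr hj'.od (hS.fa.ne i hi j hj hij)]
    have h1 := rel_mr hS.fa hi hj hij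
    have h2 : lg (sy (π j) (π i)) = mr π i j := rfl
    rw [h2]
    linear_combination (-1 : ZMod 2) * h1 + z2 (mr π i j)

/-- the matrix of the descent, first isogeny -/
lemma gd_nb (hS : Ev S π) : gd (dc (fun i => nb (π i))) (dr (fun i => nb (π i))) S =
    gd (mc π) (mr π) S := by
  refine gd_congr (fun i hi => ?_) fun i hi j hj hij => ?_
  · show lg (sy (nb (π i)) fR) = _
    rw [sy_nb, (hS.fa.pn i hi).seven (hS.c7 i hi).1 (hS.c7 i hi).2]
    rfl
  · show lg (sy (nb (π i)) (nb (π j))) = _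
    have hi' := hS.fa.pn i hi
    rw [sy_nb, lg_sy_nb hi'.pr hi'.od (hS.fa.ne j hj i hi (Ne.symm hij))]
    have h1 := rel_mr hS.fa hi hj hij
    have h2 : lg (sy (π i) (π j)) = mr π j i := rfl
    rw [h2]
    linear_combination (-1 : ZMod 2) * h1 + z2 (mr π j i)

/-- the matrix of the descent, second isogeny -/
lemma gd_cj (hS : Ev S π) : gd (dc (fun i => cj (π i))) (dr (fun i => cj (π i))) S =
    gd (mc π) (mr π) S := by
  rw [← gd_tr hS]
  refine gd_congr (fun i hi => ?_) fun i hi j hj hij => ?_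
  · show lg (sy (cj (π i)) fR) = _
    have h1 : cj fR = -fR := by
      unfold fR
      rw [map_sub, map_mul, map_ofNat, map_one, QC.cj_aR]
      ring
    have h2 : fR = cj (-fR) := by rw [map_neg, h1, neg_neg]
    have hp := hS.fa.pn i hi
    rw [h2, sy_cj, lg_neg' hp.pr hp.od (hS.c7 i hi).2,
      hp.seven (hS.c7 i hi).1 (hS.c7 i hi).2]
    rfl
  · show lg (sy (cj (π i)) (cj (π j))) = _
    rw [sy_cj]
    rfl

end Pool.Agent.R426.QD
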