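import Pool.Agent.R426.QD.Tl
import Pool.Agent.R426.QD.Ls

/-!
# The converse, families of both types
-/

set_option autoImplicit false
set_option linter.unusedSectionVars false

attribute [-instance] DivisionRing.toRatAlgebra

open NumberField IsDedekindDomain

namespace Pool.Agent.R426.QD

open WithZero WeierstrassCurve
open Pool.Agent.R426.QC hiding bR trace_D prime_fR lg_sy
open Pool.Agent.Y698
open Pool.Agent.Y698.SG hiding lg_sy
open Pool.Agent.W192.HK (sp)
open Pool.Agent.Y682 (vv vv_coe charZero_adic)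
open Pool.Agent.TH841.NF.D (IsShaCoc shaCoc Sha)
open Pool.Agent.TH841.SH.D (IsCob)
open Pool.Agent.R426.QC.Cv (LocI)

lemma sy_prodP {ϖ : RR} (h : Prime ϖ) (h2 : ¬ ϖ ∣ 2) {ι : Type} (U : Finset ι) (π : ι → RR) :
    sy ϖ (∏ j ∈ U, π j) = ∏ j ∈ U, sy ϖ (π j) := by
  classical
  induction U using Finset.induction_on with
  | empty => rw [Finset.prod_empty, Finset.prod_empty, sy_oneO h]
  | insert i U hi ih => rw [Finset.prod_insert hi, Finset.prod_insert hi, sy_mulO h h2, ih]

/-- the symbol of a product -/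
lemma fa_lgprod {ι : Type} {I U : Finset ι} {π : ι → RR} (hf : Fa I π) (hU : U ⊆ I) {i : ι}
    (hi : i ∈ I) (hiU : i ∉ U) : lg (sy (π i) (∏ j ∈ U, π j)) = ∑ j ∈ U, dr π i j := by
  rw [sy_prodP (hf.pn i hi).pr (hf.pn i hi).od]
  exact (sgn_prod (s := U) (f := fun j => sy (π i) (π j)) fun j hj =>
    sy_sgn (hf.ne j (hU hj) i hi (fun h3 => hiU (h3 ▸ hj)))).2

lemma fa_notin {ι : Type} {I U : Finset ι} {π : ι → RR} (hf : Fa I π) (hU : U ⊆ I) {i : ι}
    (hi : i ∈ I) (hiU : i ∉ U) : ∏ j ∈ U, π j ∉ sp (π i) := by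
  intro h
  rw [Ideal.mem_span_singleton] at h
  obtain ⟨u, hu, hlu⟩ := ((hf.pn i hi).pr.dvd_finsetProd_iff _).1 h
  exact hf.ne u (hU hu) i hi (fun h => hiU (h ▸ hu)) (Ideal.mem_span_singleton.2 hlu)

section

variable {K : Type} [Field K] [NumberField K] (e : RR ≃+* 𝓞 K)

/-- **the converse** -/
theorem convD {ι : Type} [DecidableEq ι] {I : Finset ι} {π : ι → RR} (hS : QD.Ev I π)
    (hg : gd (mc π) (mr π) I = 0) {J : RR} (hJ : ∏ i ∈ I, π i = 1 + 4 * J)
    (hfin : Finite (EX K (em e J)).toAffine.Point)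
    (hsha : ∀ x : Sha (EX K (em e J)), 2 • x = 0 → x = 0) : False := by
  classical
  have hf := hS.fa
  have hsq := hS.sqf7
  have hsqD := hS.sqf
  have hg' : gd (fun i => tp (π i) + mc π i) (dr π) I = 0 := by
    have h1 := gd_tr hS
    rw [hg] at h1
    exact h1
  obtain ⟨T, hTI, ⟨i₀, hi₀⟩, hout, hin⟩ := exists_T hg'
  -- the sum
  have hsum : ∑ i ∈ T, mc π i = 0 := by
    have h1 : ∑ i ∈ T, ((tp (π i) + mc π i) + ∑ j ∈ I \ T, dr π i j) = 0 :=
      Finset.sum_eq_zero hin
    have h2 : ∑ i ∈ I \ T, ∑ j ∈ T, dr π i j = 0 := Finset.sum_eq_zero hout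
    have h3 : ∑ i ∈ T, ∑ j ∈ I \ T, dr π i j = ∑ i ∈ I \ T, ∑ j ∈ T, dr π i j +
        (∑ i ∈ I \ T, tp (π i)) * ∑ j ∈ T, tp (π j) := by
      rw [Finset.sum_comm, Finset.sum_mul_sum, ← Finset.sum_add_distrib]
      refine Finset.sum_congr rfl fun i hi => ?_
      rw [← Finset.sum_add_distrib]
      refine Finset.sum_congr rfl fun j hj => ?_
      have hi' := Finset.mem_sdiff.1 hi
      have h4 := rel_sy hf hi'.1 (hTI hj) (fun h => hi'.2 (h ▸ hj))
      show lg (sy (π j) (π i)) = lg (sy (π i) (π j)) + _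
      rw [← h4]
      linear_combination -z2 (lg (sy (π i) (π j)))
    have h5 : ∑ i ∈ I \ T, tp (π i) = ∑ j ∈ T, tp (π j) := by
      have h6 := Finset.sum_sdiff hTI (f := fun i => tp (π i))
      rw [hS.tp] at h6
      linear_combination h6 - z2 (∑ j ∈ T, tp (π j))
    rw [h5, zsq, h2, zero_add] at h3
    rw [Finset.sum_add_distrib, Finset.sum_add_distrib, h3] at h1
    linear_combination h1 - z2 (∑ j ∈ T, tp (π j))
  set D := ∏ i ∈ I, π i with hD
  obtain ⟨d, hd⟩ : ∃ d : RR, d = ∏ i ∈ T, π i := ⟨_, rfl⟩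
  obtain ⟨D'', hD''⟩ : ∃ D'' : RR, D'' = ∏ i ∈ I \ T, π i := ⟨_, rfl⟩
  have hDd : D = d * D'' := by
    rw [hd, hD'', mul_comm]
    exact (Finset.prod_sdiff hTI).symm
  have hd0 : d ≠ 0 := by
    intro h0
    rw [h0, zero_mul] at hDd
    exact hsqD.ne_zero hDd
  have hD0 : D ≠ 0 := hsqD.ne_zero
  have hdsq : Squarefree d := hsqD.squarefree_of_dvd ⟨D'', hDd⟩
  have hd6 : e6 d = 1 ∨ e6 d = 5 := by
    apply h84_one
    rw [h84_e6, hd, map_prod]
    exact Finset.prod_eq_one fun i hi => (hf.pn i (hTI hi)).r4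
  have hd3 : (e3 d = 1 ∨ e3 d = 5) ∨ (e3 d = 3 ∨ e3 d = 7) := by
    have h1 : r4 (cj d) = 1 ∨ r4 (cj d) = 3 := by
      rw [hd, map_prod, map_prod]
      clear_value D
      clear hin hout hsum hi₀ hdsq hd0 hd6 hDd hd hD''
      induction T using Finset.induction_on with
      | empty => left; rw [Finset.prod_empty]
      | insert a T ha ih =>
        rw [Finset.prod_insert ha]
        have h2 := ih ((Finset.subset_insert _ _).trans hTI)
        have h3 : r4 (cj (π a)) = 1 ∨ r4 (cj (π a)) = 3 := by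
          have h4 := nb_r4 (hf.pn a (hTI (Finset.mem_insert_self _ _)))
          rcases nb_or (π a) with h5 | h5 <;> rw [h5] at h4
          · exact Or.inl h4
          · right
            rw [map_neg, map_neg] at h4
            have h6 : r4 (cj (π a)) = -1 := by rw [← h4, neg_neg]
            rw [h6]
            decide
        rcases h2 with h2 | h2 <;> rcases h3 with h3 | h3 <;> rw [h2, h3] <;> decide
    rcases h1 with h1 | h1
    · exact Or.inl (h84_one (by rw [h84_e3]; exact h1))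
    · exact Or.inr (h84_three (by rw [h84_e3]; exact h1))
  -- local points
  have hloc : ∀ v : HeightOneSpectrum (𝓞 K),
      LocI K (v.adicCompletion K) (cA (em e aR) (em e D)) (cB (em e aR) (em e D)) (em e d) := by
    intro v
    obtain ⟨z, hz, rfl⟩ := exists_plc e v
    have hch := charZero_adic (plc e hz : HeightOneSpectrum (𝓞 K))
    by_cases h2 : z ∣ 2
    · rw [two_eq] at h2
      rcases hz.dvd_or_dvd h2 with h3 | h3
      · rw [(plc_eq e hz prime_aR).2 (hz.associated_of_dvd prime_aR h3)]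
        exact sol_aD e hd6 ⟨J, hJ⟩ hd0 hD0 prime_aR
      · rw [(plc_eq e hz prime_cja).2 (hz.associated_of_dvd prime_cja h3)]
        exact sol_bD e hd3 ⟨J, hJ⟩ hd0 hD0 prime_cja
    by_cases hzf : z ∣ fR
    · have hpl := (plc_eq e hz prime_fR).2 (hz.associated_of_dvd prime_fR hzf)
      rw [hpl]
      have hf2 : ¬ fR ∣ 2 := fun h => h2 (hzf.trans h)
      have hfd : d ∉ sp fR := by
        intro h
        rw [Ideal.mem_span_singleton] at h
        have h5 : fR * fR ∣ fR * D := mul_dvd_mul_left _ (by rw [hDd]; exact h.mul_right _)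
        exact prime_fR.not_isUnit (hsq _ h5)
      have h7 : lg (e7 d) = 0 := by
        rw [hd, e7_prod]
        rw [(sgn_prod (s := T) (f := fun j => e7 (π j)) fun j hj =>
          e7_sgn (hS.c7 j (hTI hj)).1).2]
        exact hsum
      rw [lg_e7 hfd] at h7
      obtain ⟨b, hb⟩ := nsq_zero h7
      obtain ⟨s, hs⟩ := sqrt_res e prime_fR hf2
        (fun h => hfd (Ideal.mem_span_singleton.2 h)) hb
      exact sol_sqE e _ hd0 hs
    by_cases hzD : z ∣ D
    · obtain ⟨l, hl, hzl⟩ := (hz.dvd_finsetProd_iff _).1 hzD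
      have hp := hf.pn l hl
      have hpl := (plc_eq e hz hp.pr).2 (hz.associated_of_dvd hp.pr hzl)
      rw [hpl]
      have hl2 : ¬ π l ∣ 2 := hp.od
      have hch' := charZero_adic (plc e hp.pr : HeightOneSpectrum (𝓞 K))
      by_cases hlT : l ∈ T
      · have h3 := hin l hlT
        have h4 := fa_lgprod hf (Finset.sdiff_subset (s := I) (t := T)) hl
          (fun h => (Finset.mem_sdiff.1 h).2 hlT)
        have hnd' := fa_notin hf (Finset.sdiff_subset (s := I) (t := T)) hl
          (fun h => (Finset.mem_sdiff.1 h).2 hlT)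
        rw [← hD''] at h4 hnd'
        have hnf := (hS.c7 l hl).2
        have h6' : fR * D'' ∉ sp (π l) := by
          rw [Ideal.mem_span_singleton]
          intro h
          rcases hp.pr.dvd_or_dvd h with h | h
          · exact hnf (Ideal.mem_span_singleton.2 h)
          · exact hnd' (Ideal.mem_span_singleton.2 h)
        have h6 : -(fR * D'') ∉ sp (π l) := by rwa [neg_mem_iff]
        have h7 : lg (sy (π l) (-(fR * D''))) = 0 := by
          rw [lg_neg' hp.pr hp.od h6', hp.mul, lg_mul (sy_sgn hnf) (sy_sgn hnd'), h4,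
            hp.seven (hS.c7 l hl).1 hnf, ← h3]
          show tp (π l) + (mc π l + _) = _
          ring
        rw [QC.lg_sy h6] at h7
        obtain ⟨b, hb⟩ := nsq_zero h7
        obtain ⟨s, hs⟩ := sqrt_res e hp.pr hl2 (fun h => h6 (Ideal.mem_span_singleton.2 h)) hb
        refine loc_tor (ema_sq e) (s := s * pk e (plc e hp.pr) d) (pk_ne e _ hd0)
          (em_ne e hD0) ?_
        rw [mul_pow, hs, hDd]
        unfold pk
        simp only [map_neg, map_mul, em_fR]
        ring
      · have h3 := hout l (Finset.mem_sdiff.2 ⟨hl, hlT⟩)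
        have h4 := fa_lgprod hf hTI hl hlT
        have hnd := fa_notin hf hTI hl hlT
        rw [← hd] at h4 hnd
        have h5 : lg (sy (π l) d) = 0 := by rw [h4, h3]
        rw [QC.lg_sy hnd] at h5
        obtain ⟨b, hb⟩ := nsq_zero h5
        obtain ⟨s, hs⟩ := sqrt_res e hp.pr hl2 (fun h => hnd (Ideal.mem_span_singleton.2 h)) hb
        exact sol_sqE e _ hd0 hs
    · refine sol_goodE e hz h2 (fun h => hzD (by rw [hDd]; exact h.mul_right _)) fun h => ?_
      rcases hz.dvd_or_dvd h with h | h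
      · exact hzf h
      · exact hzD h
  -- the class
  have ha := ema_sq e
  have hDj : em e D = 1 + 4 * em e J := by
    rw [hJ, map_add, map_mul, map_one, map_ofNat]
  have hD0' : (1 + 4 * em e J) ≠ 0 := by
    rw [← hDj]
    exact em_ne e hD0
  have hT := isT_E2 (j := em e J) ha hD0'
  rw [← hDj] at hT
  have hW : E2 K (em e J) (-(em e D * eB (em e aR))) =
      Cv.WF (cA (em e aR) (em e D)) (cB (em e aR) (em e D)) := by
    ext
    · exact hT.h1
    · exact hT.h2
    · exact hT.h3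
    · exact hT.h4
    · exact hT.h6
  have hb0 : cB (em e aR) (em e D) ≠ 0 := hT.hB
  have hcoc : IsShaCoc (Cv.WF (cA (em e aR) (em e D)) (cB (em e aR) (em e D)))
      (Cv.coc K hb0 (em e d)) :=
    ⟨Cv.coc_coc hb0 _, fun v => Cv.Lot.t_LOT hb0 _ _ (hloc v),
      fun v => Cv.Lot.t_LOT hb0 _ _ (sol_inf e v hd0)⟩
  have hcob := cob_of_sha _ _ hW hsha hcoc (Cv.coc_two hb0 _)
  have hdz : π i₀ ∣ d := by
    rw [hd]
    exact Finset.dvd_prod_of_mem _ hi₀
  have hnsd := not_sq_of e hdsq (hf.pn i₀ (hTI hi₀)).pr hdz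
  rcases Cv.t_COB hb0 (em_ne e hd0) hcob with h | h | h
  · exact hnsd h
  · apply hnsd
    obtain ⟨r, hr⟩ := h
    rw [cD_eq] at hr
    have hne : em e D * eA (em e aR) ≠ 0 := by
      intro h0
      have h1 := hT.hD
      rw [cD_eq, h0] at h1
      exact h1 (by ring)
    refine ⟨r / (em e D * eA (em e aR)), ?_⟩
    rw [div_mul_div_comm, ← hr, eq_div_iff (mul_ne_zero hne hne)]
    ring
  · obtain ⟨c, hc⟩ := globE e hsq hJ hfin h
    rcases hc with hc | hc
    · exact hnsd ⟨c, by rw [hc, sq]⟩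
    · have hsq2 : Squarefree (-(fR * D'')) := by
        have h1 : fR * D'' ∣ fR * D := mul_dvd_mul_left _ ⟨d, by rw [hDd]; ring⟩
        have h2 := hsq.squarefree_of_dvd h1
        exact (Associated.refl _).neg_left.squarefree_iff.2 h2
      apply not_sq_of e hsq2 prime_fR ((dvd_neg).2 (Dvd.intro _ rfl))
      have hpd : em e d ≠ 0 := em_ne e hd0
      have hc0 : c ≠ 0 := by
        rintro rfl
        rw [zero_pow two_ne_zero, mul_zero] at hc
        exact hpd hc
      refine ⟨c⁻¹, ?_⟩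
      rw [hDd, map_mul, map_mul] at hc
      have h1 : -(em e fR * em e D'') * c ^ 2 = 1 := by
        apply mul_left_cancel₀ hpd
        linear_combination -hc
      rw [map_neg, map_mul]
      field_simp
      linear_combination h1

end

end Pool.Agent.R426.QD
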