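import Pool.Agent.R426.QD.Sm

/-!
# The number of the residues modulo the square classes
-/

set_option autoImplicit false
set_option linter.unusedSectionVars false

open Filter
open scoped Topology PeriodPair

namespace Pool.Agent.R426.QD

open Pool.Agent.R426.QC
open Pool.Agent.Y698 Pool.Agent.Y698.SG
open H667R3 Pool.Agent.W192.HK Pool.Agent.TH936.CM Pool.Agent.TH936.PU

variable {L : PeriodPair} {Ω : ℂ} {Γ : Type*} [LinearOrderedCommGroupWithZero Γ]
  {v : Valuation ℂ Γ}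

/-- the function one -/
def W1 (_ : ℂ) : ℂ := 1

/-- coprime moduli -/
theorem Cn_mul {n q : RR} (hn0 : n ≠ 0) (hq0 : q ≠ 0) (hc : IsCoprime q n) {φ ψ : RR → ℂ}
    (hφ : Pe q φ) (hψ : Pe n ψ) :
    Bd Ω W1 (q * n) (fun m => φ m * ψ m) = Bd Ω W1 q φ * Bd Ω W1 n ψ := by
  have hqn0 : q * n ≠ 0 := mul_ne_zero hq0 hn0
  have f1 := fin_quot hn0
  have f2 := fin_quot hq0
  have f3 := fin_quot hqn0
  let _ : Fintype (RR ⧸ sp n) := Fintype.ofFinite _
  let _ : Fintype (RR ⧸ sp q) := Fintype.ofFinite _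
  let _ : Fintype (RR ⧸ sp (q * n)) := Fintype.ofFinite _
  have hφ' : Pe (q * n) φ := hφ.mono (Dvd.intro _ rfl)
  have hψ' : Pe (q * n) ψ := hψ.mono (Dvd.intro_left q rfl)
  rw [Bd_eq, Bd_eq, Bd_eq]
  unfold W1
  simp only [mul_one]
  rw [sum_rep _ (bij_mul (R := RR) (a := q) (f := n) hn0) (fun x : RR => φ x * ψ x)
    (fun x y h => by rw [hφ' x y h, hψ' x y h]), Fintype.sum_prod_type, mul_comm, Finset.sum_mul]
  refine Finset.sum_congr rfl fun y _ => ?_
  have h2 : ∀ t : RR ⧸ sp q, ψ (y.out + n * t.out) = ψ y.out := by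
    intro t
    apply hψ
    rw [add_sub_cancel_left, Ideal.mem_span_singleton']
    exact ⟨t.out, mul_comm _ _⟩
  have hb : Function.Bijective (fun t : RR ⧸ sp q => Ideal.Quotient.mk (sp q)
      (y.out + n * t.out)) := by
    have hu : IsUnit (Ideal.Quotient.mk (sp q) n) := by
      obtain ⟨a, b, hab⟩ := hc
      refine IsUnit.of_mul_eq_one (Ideal.Quotient.mk (sp q) b) ?_
      rw [← map_mul, ← map_one (Ideal.Quotient.mk (sp q)), Ideal.Quotient.mk_eq_mk_iff_sub_mem,
        Ideal.mem_span_singleton']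
      exact ⟨-a, by linear_combination -hab⟩
    obtain ⟨u, hu⟩ := hu
    have e1 : (fun t : RR ⧸ sp q => Ideal.Quotient.mk (sp q) (y.out + n * t.out)) =
        fun t => (Equiv.addLeft (Ideal.Quotient.mk (sp q) y.out)) ((Units.mulLeft u) t) := by
      funext t
      rw [map_add, map_mul, Ideal.Quotient.mk_out, Units.mulLeft_apply, hu, Equiv.coe_addLeft]
    rw [e1]
    exact (Equiv.addLeft _).bijective.comp (Units.mulLeft u).bijective
  have h3 := sum_rep _ hb φ (fun x z h => hφ x z h)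
  simp only [h2]
  rw [h3, ← Finset.sum_mul]
  ring

lemma sum_odd0 {n : RR} [Fintype (RR ⧸ sp n)] {F : RR → ℂ} (hF : Pe n F)
    (ho : ∀ x, F (-x) = -F x) : ∑ z : RR ⧸ sp n, F z.out = 0 := by
  have hg : Function.Bijective (fun y : RR ⧸ sp n => Ideal.Quotient.mk (sp n) (-y.out)) := by
    have e1 : (fun y : RR ⧸ sp n => Ideal.Quotient.mk (sp n) (-y.out)) = fun y => -y := by
      funext y
      rw [map_neg, Ideal.Quotient.mk_out]
    rw [e1]
    exact neg_involutive.bijective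
  have h1 := sum_rep _ hg F (fun x y h => hF x y h)
  simp only [ho] at h1
  rw [Finset.sum_neg_distrib] at h1
  linear_combination (1 / 2 : ℂ) * h1

lemma card_quot {c : RR} [Fintype (RR ⧸ sp c)] :
    (Fintype.card (RR ⧸ sp c) : ℂ) = ((nR c : ℤ) : ℂ) := by
  have hb := Pool.Agent.W287.HK.h_basic RR al qr
  have h6 := hb.2.2.2.2.1 c
  unfold nm at h6
  rw [Nat.card_eq_fintype_card] at h6
  have h7 : (Fintype.card (RR ⧸ sp c) : ℂ) = c * (starRingEnd ℂ) (c : ℂ) := by
    rw [Complex.mul_conj, ← h6]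
    push_cast
    rfl
  rw [h7]
  have h1 := congrArg (fun r : RR => (r : ℂ)) (mul_cj c)
  have h2 : (((nR c : ℤ) : RR) : ℂ) = ((nR c : ℤ) : ℂ) := by push_cast; rfl
  rw [← h2]
  rw [← h1]
  show _ = (c : ℂ) * (cj c : ℂ)
  rw [cj_coe]

/-- the number of the nonzero squares, primes of the first type -/
lemma cnt_pm (hv : v al < 1) {q : RR} (h : Pm q) : v (Bd Ω W1 q (hc q)) < 1 := by
  classical
  have f1 := fin_quot h.pr.ne_zero
  let _ : Fintype (RR ⧸ sp q) := Fintype.ofFinite _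
  rw [Bd_eq, ← Finset.add_sum_erase _ _ (Finset.mem_univ (0 : RR ⧸ sp q))]
  have h1 : Quotient.out (0 : RR ⧸ sp q) ∈ sp q := by
    rw [← Ideal.Quotient.eq_zero_iff_mem, Ideal.Quotient.mk_out]
  rw [(hc_val q _).2 h1, zero_mul, zero_add]
  refine (v_sum_pair' _ ?_ ?_ _ (fun x _ => ?_) ?_).trans_lt (v_two_lt hv)
  · intro x hx
    rw [Finset.mem_erase] at hx ⊢
    exact ⟨neg_ne_zero.2 hx.1, Finset.mem_univ _⟩
  · intro x hx hxx
    rw [Finset.mem_erase] at hx
    have h2 : (2 : RR ⧸ sp q) * x = 0 := by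
      rw [two_mul]
      nth_rewrite 1 [← hxx]
      rw [neg_add_cancel]
    obtain ⟨u, hu⟩ := h.m4
    have h3 : Ideal.Quotient.mk (sp q) q = 0 :=
      Ideal.Quotient.eq_zero_iff_mem.2 (Ideal.mem_span_singleton_self _)
    have h4 : Ideal.Quotient.mk (sp q) q = 1 + 4 * Ideal.Quotient.mk (sp q) u := by
      have h5 : Ideal.Quotient.mk (sp q) q = Ideal.Quotient.mk (sp q) (1 + 4 * u) :=
        congrArg _ hu
      rw [h5, map_add, map_mul, map_one]
      rfl
    have h5 := h4.symm.trans h3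
    apply hx.1
    linear_combination x * h5 - 2 * (Ideal.Quotient.mk (sp q) u) * h2
  · have h2 : (-x).out - -x.out ∈ sp q := by
      rw [← Ideal.Quotient.mk_eq_mk_iff_sub_mem, Ideal.Quotient.mk_out, map_neg,
        Ideal.Quotient.mk_out]
    rw [hc_per q _ _ h2, hc_neg h.pd]
    rfl
  · intro x _
    unfold W1
    rw [mul_one]
    rcases (hc_val q x.out).1 with h2 | h2 <;> rw [h2]
    · rw [map_zero]; exact zero_le
    · rw [map_one]

/-- the number of the nonzero squares, primes of the second type -/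
lemma cnt_p3 {q : RR} {p : ℕ} {A B : ℤ} (h : P3 q p A B) (hq : Prime q) :
    Bd Ω W1 q (hc q) = ((2 * (p / 4) + 1 : ℕ) : ℂ) := by
  classical
  have f1 := fin_quot hq.ne_zero
  let _ : Fintype (RR ⧸ sp q) := Fintype.ofFinite _
  rw [Bd_eq]
  unfold W1 hc
  simp only [mul_one]
  rw [← Finset.sum_div, Finset.sum_add_distrib, sum_odd0 (sy_per q) (fun x => by
    rw [← neg_one_mul x, sy_mul_deg h.pr h.nR, h.neg]; ring), zero_add]
  have h1 : ∑ x : RR ⧸ sp q, tr q x.out = (Fintype.card (RR ⧸ sp q) : ℂ) - 1 := by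
    have h2 : ∀ x : RR ⧸ sp q, tr q x.out = 1 - if x = 0 then 1 else 0 := by
      intro x
      unfold tr
      have h3 : x.out ∈ sp q ↔ x = 0 := by
        rw [← Ideal.Quotient.eq_zero_iff_mem, Ideal.Quotient.mk_out]
      simp only [h3]
      split_ifs <;> ring
    simp only [h2]
    rw [Finset.sum_sub_distrib, Finset.sum_ite_eq' Finset.univ (0 : RR ⧸ sp q) (fun _ => (1 : ℂ)),
      if_pos (Finset.mem_univ _), Finset.sum_const, Finset.card_univ, nsmul_eq_mul, mul_one]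
  rw [h1, card_quot, h.nR]
  have hp : p = 4 * (p / 4) + 3 := by have := h.m4; omega
  have h2 : ((p : ℕ) : ℂ) = 4 * ((p / 4 : ℕ) : ℂ) + 3 := by
    exact_mod_cast congrArg (fun n : ℕ => (n : ℂ)) hp
  push_cast
  rw [h2]
  push_cast
  ring

lemma rd_cnt (hv : v al < 1) {q : RR} (h : Pn q) : Rd v (Bd Ω W1 q (hc q)) (tp q) := by
  have t2 := v_two_lt hv
  rcases h.cases with h1 | ⟨p, A, B, h1, -⟩
  · rw [tp_pm h1, Rd.zero_iff]
    exact cnt_pm hv h1
  · rw [h1.tp, cnt_p3 h1 h.pr, Rd.one_iff]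
    push_cast
    rw [add_sub_cancel_right]
    exact v_mul_lt' t2 (v_nat _)

lemma fa_cop {ι : Type} {S : Finset ι} {π : ι → RR} (hS : Fa S π) {i j : ι} (hi : i ∈ S)
    (hj : j ∈ S) (hij : i ≠ j) : IsCoprime (π i) (π j) :=
  ((hS.pn i hi).pr.irreducible.coprime_iff_not_dvd).2 fun h1 =>
    hS.ne j hj i hi (Ne.symm hij) (Ideal.mem_span_singleton.2 h1)

/-- the number of the residues -/
lemma rd_cnts {ι : Type} (hv : v al < 1) (S : Finset ι) {π : ι → RR} (hS : Fa S π) :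
    Rd v (Bd Ω W1 (∏ i ∈ S, π i) (fun m => ∏ i ∈ S, hc (π i) m)) (∏ i ∈ S, tp (π i)) := by
  classical
  induction S using Finset.induction_on with
  | empty =>
    simp only [Finset.prod_empty]
    have f1 := fin_quot (one_ne_zero : (1 : RR) ≠ 0)
    let _ : Fintype (RR ⧸ sp (1 : RR)) := Fintype.ofFinite _
    have htop : sp (1 : RR) = ⊤ := Ideal.span_singleton_one
    have hsub : Subsingleton (RR ⧸ sp (1 : RR)) := by
      rw [htop]
      infer_instance
    rw [Bd_eq]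
    unfold W1
    simp only [mul_one]
    rw [Finset.sum_const, Finset.card_univ,
      Fintype.card_eq_one_iff.2 ⟨0, fun y => Subsingleton.elim _ _⟩, one_smul]
    exact Rd.one
  | insert a S ha ih =>
    have hS' : Fa S π := hS.mono (Finset.subset_insert _ _)
    have h1 := hS.pn a (Finset.mem_insert_self _ _)
    rw [Finset.prod_insert ha, Finset.prod_insert ha]
    have e1 : (fun m : RR => ∏ i ∈ insert a S, hc (π i) m) =
        fun m => hc (π a) m * ∏ i ∈ S, hc (π i) m := by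
      funext m
      rw [Finset.prod_insert ha]
    rw [e1, Cn_mul hS'.prod_ne h1.pr.ne_zero ?_ (hc_per (π a)) (Pe.prod fun p _ => hc_per (π p))]
    · exact Rd.mul (rd_cnt hv h1) (ih hS')
    · exact IsCoprime.prod_right fun i hi => fa_cop hS (Finset.mem_insert_self _ _)
        (Finset.mem_insert_of_mem hi) (fun h => ha (h ▸ hi))

lemma pt_lat (hL : IsLat L RR Ω) {n N : RR} (hn : n ≠ 0) (hN : n ∣ N) (x : RR) :
    (N : ℂ) * (Ω * x / (n : ℂ)) ∈ L.lattice := by
  obtain ⟨d, rfl⟩ := hN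
  have h5 := hL.mem_mul (d * x)
  have h6 := coe_ne hn
  convert h5 using 1
  push_cast
  field_simp

/-- the reduction of the sum -/
theorem rd_hc {ι : Type} (hL : IsLat L RR Ω) (hv : v al < 1) {N : RR} {W : ℂ → ℂ}
    (hW1 : ∀ z, (N : ℂ) * z ∈ L.lattice → z ∉ L.lattice → Rd v (W z) 1) {S : Finset ι}
    {π : ι → RR} (hS : Fa S π) (hne : S.Nonempty) (hN : ∏ i ∈ S, π i ∣ N) :
    Rd v (Bd Ω W (∏ i ∈ S, π i) (fun m => ∏ i ∈ S, hc (π i) m)) (∏ i ∈ S, tp (π i)) := by
  classical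
  have t2 := v_two_lt hv
  have hn0 := hS.prod_ne
  have f1 := fin_quot hn0
  let _ : Fintype (RR ⧸ sp (∏ i ∈ S, π i)) := Fintype.ofFinite _
  have h1 := rd_cnts (Ω := Ω) hv S hS
  have h2 : Rd v (Bd Ω W (∏ i ∈ S, π i) (fun m => ∏ i ∈ S, hc (π i) m) -
      Bd Ω W1 (∏ i ∈ S, π i) (fun m => ∏ i ∈ S, hc (π i) m)) 0 := by
    rw [Bd_eq, Bd_eq, ← Finset.sum_sub_distrib]
    have h3 : Rd v (∑ x : RR ⧸ sp (∏ i ∈ S, π i), ((∏ i ∈ S, hc (π i) x.out) *
        W (Ω * x.out / ((∏ i ∈ S, π i : RR) : ℂ)) - (∏ i ∈ S, hc (π i) x.out) *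
        W1 (Ω * x.out / ((∏ i ∈ S, π i : RR) : ℂ)))) (∑ x : RR ⧸ sp (∏ i ∈ S, π i), 0) := by
      refine Rd.sum t2 fun x _ => ?_
      rw [Rd.zero_iff]
      unfold W1
      rw [← mul_sub]
      by_cases hx : x.out ∈ sp (∏ i ∈ S, π i)
      · obtain ⟨q, hq⟩ := hne
        have h4 : x.out ∈ sp (π q) :=
          (Ideal.span_singleton_le_span_singleton.2 (Finset.dvd_prod_of_mem π hq)) hx
        rw [Finset.prod_eq_zero hq ((hc_val (π q) _).2 h4), zero_mul, map_zero]
        exact zero_lt_one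
      · refine v_mul_lt (hcprod (v := v) S π x.out).1 ?_
        rw [← Rd.one_iff]
        refine hW1 _ ?_ ?_
        · exact pt_lat hL hn0 hN _
        · rw [div_mem_iff hL hn0]
          exact hx
    rwa [Finset.sum_const_zero] at h3
  have h4 := Rd.add t2 h2 h1
  rwa [sub_add_cancel, zero_add] at h4

end Pool.Agent.R426.QD
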