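import Pool.Agent.R426.QD.Qd

/-!
# The quadratic characters of conductor a product of prime elements
-/

set_option autoImplicit false
set_option linter.unusedSectionVars false

open Filter
open scoped Topology PeriodPair

namespace Pool.Agent.R426.QD

open Pool.Agent.R426.QC hiding bR
open Pool.Agent.Y698 Pool.Agent.Y698.SG
open H667R3 Pool.Agent.W192.HK Pool.Agent.TH936.CM Pool.Agent.TH936.PU
open Pool.Agent.W192.CM (nu)

/-- even families -/
structure Ev {ι : Type} (S : Finset ι) (π : ι → RR) : Prop where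
  fa : Fa S π
  c7 : C7 S π
  tp : ∑ i ∈ S, tp (π i) = 0
  m4 : ∃ J : RR, ∏ i ∈ S, π i = 1 + 4 * J

lemma Xs_prod {ι : Type} {S : Finset ι} {π : ι → RR} (hS : Fa S π)
    (ht : ∑ i ∈ S, tp (π i) = 0) (g : RR) :
    ∏ i ∈ S, Xs (π i) (sp g) = ∏ i ∈ S, sy (π i) g := by
  unfold Xs
  have h1 : sp (Submodule.IsPrincipal.generator (sp g)) = sp g :=
    Submodule.IsPrincipal.span_singleton_generator _
  rcases sp_eq h1 with h2 | h2
  · rw [h2]
  · rw [h2]
    exact prod_sy_neg hS ht g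

lemma nonsq {ϖ : RR} (h : Prime ϖ) (hod : ¬ ϖ ∣ 2) : ∃ x : RR, sy ϖ x = -1 := by
  have hmax := maximal_sp h.irreducible
  have hf := fin_quot h.ne_zero
  let _ : Fintype (RR ⧸ sp ϖ) := Fintype.ofFinite _
  let _ : Field (RR ⧸ sp ϖ) := Ideal.Quotient.field _
  have h2 : ringChar (RR ⧸ sp ϖ) ≠ 2 := by
    intro h2
    have h3 : ((2 : ℕ) : RR ⧸ sp ϖ) = 0 := by
      rw [← h2]
      exact ringChar.Nat.cast_ringChar
    apply hod
    rw [← Ideal.mem_span_singleton, ← Ideal.Quotient.eq_zero_iff_mem]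
    have h4 : Ideal.Quotient.mk (sp ϖ) (2 : RR) = ((2 : ℕ) : RR ⧸ sp ϖ) := by
      rw [map_ofNat]
      norm_num
    rw [h4, h3]
  obtain ⟨y, hy⟩ := FiniteField.exists_nonsquare h2
  obtain ⟨x, rfl⟩ := Ideal.Quotient.mk_surjective y
  have hx : x ∉ sp ϖ := by
    intro hx
    apply hy
    rw [Ideal.Quotient.eq_zero_iff_mem.2 hx]
    exact ⟨0, by ring⟩
  refine ⟨x, ?_⟩
  unfold sy
  rw [if_neg hx, if_neg hy]

/-- the product of the characters -/
theorem prod_XsD {ι : Type} [DecidableEq ι] {S : Finset ι} {π : ι → RR} (hS : Fa S π)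
    (ht : ∑ i ∈ S, tp (π i) = 0) (hne : S.Nonempty) :
    HC 0 (sp (∏ i ∈ S, π i)) (fun I => ∏ i ∈ S, Xs (π i) I) := by
  have hcop : ∀ g : RR, IsCoprime (sp g) (sp (∏ i ∈ S, π i)) ↔ ∀ i ∈ S, g ∉ sp (π i) := by
    intro g
    rw [Ideal.isCoprime_span_singleton_iff, IsCoprime.prod_right_iff]
    refine forall_congr' fun i => forall_congr' fun hi => ?_
    rw [← Ideal.isCoprime_span_singleton_iff, ← not_coprime_iff (hS.pn i hi).pr.irreducible,
      not_not]
  refine ⟨?_, ?_, ?_, ?_, ?_⟩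
  · rw [Ne, Ideal.span_singleton_eq_bot]
    exact hS.prod_ne
  · intro I J
    obtain ⟨g, rfl⟩ := exists_gen I
    obtain ⟨g', rfl⟩ := exists_gen J
    rw [Ideal.span_singleton_mul_span_singleton]
    simp only [Xs_prod hS ht]
    rw [← Finset.prod_mul_distrib]
    exact Finset.prod_congr rfl fun i hi => (hS.pn i hi).mul g g'
  · intro I
    obtain ⟨g, rfl⟩ := exists_gen I
    simp only [Xs_prod hS ht]
    rw [hcop, Finset.prod_eq_zero_iff, Ideal.span_singleton_eq_bot]
    constructor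
    · rintro ⟨i, hi, h1⟩
      exact Or.inr fun h2 => h2 i hi (sy_zero_iff.1 h1)
    · rintro (rfl | h1)
      · obtain ⟨i, hi⟩ := hne
        exact ⟨i, hi, sy_zero_iff.2 (Submodule.zero_mem _)⟩
      · push Not at h1
        obtain ⟨i, hi, h2⟩ := h1
        exact ⟨i, hi, sy_zero_iff.2 h2⟩
  · intro α _ h1
    simp only [Xs_prod hS ht]
    rw [pow_zero]
    refine Finset.prod_eq_one fun i hi => ?_
    have h2 : α - 1 ∈ sp (π i) :=
      (Ideal.span_singleton_le_span_singleton.2 (Finset.dvd_prod_of_mem π hi)) h1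
    rw [sy_per (π i) α 1 h2, sy_oneO (hS.pn i hi).pr]
  · intro q' hq'
    obtain ⟨d, rfl⟩ := exists_gen q'
    have hdP : d ∣ ∏ i ∈ S, π i := Ideal.span_singleton_le_span_singleton.1 hq'.le
    obtain ⟨e, he⟩ := hdP
    have hex : ∃ i ∈ S, π i ∣ e := by
      by_contra hcon
      push Not at hcon
      have h1 : IsCoprime e (∏ i ∈ S, π i) := IsCoprime.prod_right fun i hi =>
        (((hS.pn i hi).pr.irreducible.coprime_iff_not_dvd).2 (hcon i hi)).symm
      have h2 : IsUnit e := h1.isUnit_of_dvd' dvd_rfl (he ▸ Dvd.intro_left _ rfl)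
      apply hq'.ne
      rw [he]
      exact Ideal.span_singleton_mul_right_unit h2 d
    obtain ⟨i, hi, e', rfl⟩ := hex
    have hpi := hS.pn i hi
    have h1 : ∏ j ∈ S.erase i, π j = d * e' := by
      have h2 := Finset.mul_prod_erase S π hi
      apply mul_left_cancel₀ hpi.pr.ne_zero
      rw [h2, he]
      ring
    obtain ⟨x, hx⟩ := nonsq hpi.pr hpi.od
    have hco : IsCoprime (π i) (∏ j ∈ S.erase i, π j) := IsCoprime.prod_right fun j hj =>
      fa_cop hS hi (Finset.mem_of_mem_erase hj) (Finset.ne_of_mem_erase hj).symm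
    obtain ⟨a, b, hab⟩ := hco
    set α : RR := a * π i + b * (∏ j ∈ S.erase i, π j) * x with hα
    have hα1 : α - x ∈ sp (π i) := by
      rw [Ideal.mem_span_singleton']
      exact ⟨a * (1 - x), by rw [hα]; linear_combination (-x) * hab⟩
    have hα2 : ∀ j ∈ S.erase i, α - 1 ∈ sp (π j) := by
      intro j hj
      have h2 : α - 1 = (∏ j ∈ S.erase i, π j) * (b * (x - 1)) := by
        rw [hα]
        linear_combination hab
      rw [h2, Ideal.mem_span_singleton]
      exact (Finset.dvd_prod_of_mem π hj).mul_right _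
    have hs1 : sy (π i) α = -1 := by rw [sy_per (π i) α x hα1, hx]
    have hs2 : ∀ j ∈ S.erase i, sy (π j) α = 1 := fun j hj => by
      rw [sy_per (π j) α 1 (hα2 j hj), sy_oneO (hS.pn j (Finset.mem_of_mem_erase hj)).pr]
    refine ⟨α, ?_, ?_, ?_, ?_⟩
    · intro h0
      rw [h0, sy_zero_iff.2 (Submodule.zero_mem _)] at hs1
      norm_num at hs1
    · have h2 : α - 1 = d * (e' * (b * (x - 1))) := by
        rw [hα]
        linear_combination hab + (b * (x - 1)) * h1
      rw [h2]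
      exact Ideal.mul_mem_right _ _ (Ideal.mem_span_singleton_self _)
    · rw [hcop]
      intro j hj h2
      rw [← sy_zero_iff] at h2
      by_cases hji : j = i
      · rw [hji, hs1] at h2
        norm_num at h2
      · rw [hs2 j (Finset.mem_erase.2 ⟨hji, hj⟩)] at h2
        norm_num at h2
    · simp only [Xs_prod hS ht]
      rw [← Finset.mul_prod_erase S _ hi, hs1, Finset.prod_eq_one hs2, pow_zero]
      norm_num

/-- **the quadratic twists** -/
theorem val_D {ι : Type} [DecidableEq ι] {S : Finset ι} {π : ι → RR} (hS : Ev S π) :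
    ∃ F : ℂ → ℂ, Differentiable ℂ F ∧
    (∀ z : ℂ, 3 / 2 < z.re → HasSum (fun I : Ideal RR =>
      psi I * (∏ i ∈ S, Xs (π i) I) * (nm I : ℂ) ^ (-z)) (F z)) ∧
    ∀ (Γ : Type) [LinearOrderedCommGroupWithZero Γ] (v : Valuation ℂ Γ) (L : PeriodPair) (Ω : ℂ),
      LD L Ω → v al < 1 →
      (gd (mc π) (mr π) S ≠ 0 → v 2 * v ((starRingEnd ℂ) (F 1) / Ω) = v 2 ^ S.card) ∧
      (gd (mc π) (mr π) S = 0 → v 2 * v ((starRingEnd ℂ) (F 1) / Ω) < v 2 ^ S.card) := by
  classical
  rcases S.eq_empty_or_nonempty with rfl | hne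
  · obtain ⟨F, g1, g2, g3, g4⟩ := val_triv
    refine ⟨F, g1, fun z hz => ?_, fun Γ _ v L Ω hL hv => ⟨fun _ => ?_, fun h0 => ?_⟩⟩
    · simpa using g2 z hz
    · rw [Finset.card_empty, pow_zero]
      exact g4 Γ v L Ω hL hv
    · rw [gd_empty] at h0
      exact absurd h0 one_ne_zero
  · have hHC := prod_XsD hS.fa hS.tp hne
    have hgo : Go (∏ i ∈ S, π i) := ⟨⟨hS.fa.prod_ne, c7_cop hS.c7⟩, hS.m4⟩
    obtain ⟨i0, hi0⟩ := hne
    have htop : sp (∏ i ∈ S, π i) ≠ ⊤ := by
      intro h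
      rw [Ideal.span_singleton_eq_top] at h
      exact (hS.fa.pn i0 hi0).pr.not_isUnit
        (isUnit_of_dvd_unit (Finset.dvd_prod_of_mem π hi0) h)
    obtain ⟨F, g1, g2, g3⟩ := val_gn hgo htop hHC (φ := fun m => ∏ i ∈ S, sy (π i) m)
      (by
        intro g
        rw [Xs_prod hS.fa hS.tp, map_prod]
        exact Finset.prod_congr rfl fun i _ => sy_conj _ _) two_pos
      (by
        show (∏ i ∈ S, sy (π i) fR) ^ 2 = 1
        rcases c7_fR hS.c7 with h1 | h1 <;> rw [h1] <;> norm_num)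
    have := fin_quot fR_ne
    let _ : Fintype (RR ⧸ sp fR) := Fintype.ofFinite _
    obtain ⟨F0, -, -, k3⟩ := val_one
    refine ⟨F, g1, g2, fun Γ _ v L Ω hL hv => ?_⟩
    have hT := k3 L Ω hL.lat
    rw [g3 Γ v L Ω hL hv _ hT]
    exact vB inp.rec' hL hv hT hS.fa hS.c7 hS.tp

end Pool.Agent.R426.QD
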