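import Pool.Agent.R426.QD.Cnt
import Pool.Agent.R426.QD.Cb

/-!
# The induction for families of prime elements of both types
-/

set_option autoImplicit false
set_option linter.unusedSectionVars false

open Filter
open scoped Topology PeriodPair

namespace Pool.Agent.R426.QD

open Pool.Agent.R426.QC
open Pool.Agent.Y698 Pool.Agent.Y698.SG
open H667R3 Pool.Agent.W192.HK Pool.Agent.TH936.CM Pool.Agent.TH936.PU

variable {L : PeriodPair} {Ω : ℂ} {Γ : Type*} [LinearOrderedCommGroupWithZero Γ]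
  {v : Valuation ℂ Γ}

lemma r4_zero {x : RR} (h : r4 x = 0) : aR ^ 2 ∣ x := by
  rw [r4_eq, ZMod.intCast_zmod_eq_zero_iff_dvd] at h
  obtain ⟨k, hk⟩ := h
  have hk' : (cX x : RR) + 2 * (cY x : RR) = 4 * (k : RR) := by
    exact_mod_cast congrArg (fun t : ℤ => (t : RR)) hk
  refine ⟨(k : RR) * cj aR ^ 2 + (cY x : RR), ?_⟩
  conv_lhs => rw [co' x]
  linear_combination hk' + (k : RR) * four_eq - (cY x : RR) * aR_sq

/-- the Euler factor -/
lemma Rd.euler2 (hv : v al < 1) {ϖ : RR} (h4 : r4 ϖ = 1) {κ : ℂ} (hκ : κ = 1 ∨ κ = -1) :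
    Rd v (((ϖ : ℂ) - κ) / 2) (lg κ) := by
  obtain ⟨u, hu⟩ := r4_zero (x := ϖ - 1) (by rw [map_sub, h4, map_one, sub_self])
  have t2 := v_two_lt hv
  have hb := bl_ne
  have ha := al_ne
  have hu' : (ϖ : ℂ) = 1 + al ^ 2 * (u : ℂ) := by
    have h1 := congrArg (fun r : RR => (r : ℂ)) hu
    push_cast at h1
    rw [aR_coe] at h1
    linear_combination h1
  have e : ((ϖ : ℂ) - κ) / 2 = (1 - κ) / 2 + al * (bl⁻¹ * (u : ℂ)) := by
    rw [hu', ← al_mul_bl]
    field_simp
    ring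
  have h3 : Rd v (al * (bl⁻¹ * (u : ℂ))) 0 := by
    rw [Rd.zero_iff]
    refine v_mul_lt' hv (v_mul_le ?_ (v_RR hv u))
    rw [map_inv₀, v_bl hv, inv_one]
  rw [e, ← add_zero (lg κ)]
  refine Rd.add t2 ?_ h3
  rcases hκ with rfl | rfl
  · rw [lg_one, sub_self, zero_div, Rd.zero_iff, map_zero]
    exact zero_lt_one
  · rw [lg_neg_one]
    have e : ((1 : ℂ) - -1) / 2 = 1 := by norm_num
    rw [e]
    exact Rd.one

lemma et_pn {ϖ : RR} (h : Pn ϖ) : et ϖ = tp ϖ := by
  rcases h.cases with h1 | ⟨p, A, B, h1, hn⟩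
  · rw [et_m4 h1.m4, tp_pm h1]
  · rw [et_p3 h1, if_pos hn, h1.tp]

/-- the relation between the two symbols -/
lemma rel_sy {ι : Type} {S : Finset ι} {π : ι → RR} (hS : Fa S π) {i j : ι} (hi : i ∈ S)
    (hj : j ∈ S) (hij : i ≠ j) :
    lg (sy (π i) (π j)) + lg (sy (π j) (π i)) = tp (π i) * tp (π j) := by
  have h1 := recG (hS.pn i hi) (hS.pn j hj).pr (hS.pn j hj).od (hS.ne i hi j hj hij)
    (hS.ne j hj i hi (Ne.symm hij))
  rw [et_pn (hS.pn j hj)] at h1
  rw [h1]
  linear_combination z2 (lg (sy (π j) (π i)))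

lemma prod_sy_neg {ι : Type} {S : Finset ι} {π : ι → RR} (hS : Fa S π)
    (ht : ∑ i ∈ S, tp (π i) = 0) (x : RR) : ∏ i ∈ S, sy (π i) (-x) = ∏ i ∈ S, sy (π i) x := by
  have h1 : ∀ i ∈ S, sy (π i) (-x) = sy (π i) (-1) * sy (π i) x := fun i hi =>
    sy_neg' (hS.pn i hi).pr (hS.pn i hi).od x
  rw [Finset.prod_congr rfl h1, Finset.prod_mul_distrib,
    prod_neg (fun i hi => (hS.pn i hi).pr) ht, one_mul]

/-- **the induction** -/
theorem indW {ι : Type} [DecidableEq ι] (hrec : S_REC) (hL : IsLat L RR Ω) (hv : v al < 1)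
    {N : RR} {W : ℂ → ℂ} (hW : Ds L Ω N (fun c => (c : ℂ)) W) (ho : ∀ z, W (-z) = -W z)
    (hW1 : ∀ z, (N : ℂ) * z ∈ L.lattice → z ∉ L.lattice → Rd v (W z) 1)
    {S0 : Finset ι} {π : ι → RR} (hS0 : Fa S0 π) (hN : ∏ i ∈ S0, π i ∣ N)
    (S : Finset ι) (hSS : S ⊆ S0) (hne : S.Nonempty) :
    Rd v (Bd Ω W (∏ i ∈ S, π i) (fun m => ∏ i ∈ S, sy (π i) m) / 2 ^ S.card)
      (gd (fun i => tp (π i)) (fun i j => lg (sy (π i) (π j))) S) := by
  have t2 := v_two_lt hv
  set t : ι → ZMod 2 := fun i => tp (π i) with htdef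
  set r : ι → ι → ZMod 2 := fun i j => lg (sy (π i) (π j)) with hrdef
  induction S using Finset.strongInduction with
  | H S ih =>
    have hS := hS0.mono hSS
    have hNS : ∏ i ∈ S, π i ∣ N := (Finset.prod_dvd_prod_of_subset _ _ _ hSS).trans hN
    have h2 := Bd_subsets hW hL S hS hNS
    rw [← Finset.add_sum_erase _ _ (Finset.mem_powerset_self S), Finset.sdiff_self,
      Finset.prod_empty, one_mul] at h2
    set a := Bd Ω W (∏ i ∈ S, π i) (fun m => ∏ i ∈ S, sy (π i) m) with ha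
    set Y := Bd Ω W (∏ i ∈ S, π i) (fun m => ∏ i ∈ S, hc (π i) m) with hY
    have hvY : Rd v Y (∏ i ∈ S, t i) := rd_hc hL hv hW1 hS hne hNS
    have h20 : (2 : ℂ) ^ S.card ≠ 0 := pow_ne_zero _ two_ne_zero
    set T : Finset ι → ℂ := fun A =>
      (∏ i ∈ S \ A, (((π i : ℂ) - ∏ j ∈ A, sy (π j) (π i)) / 2)) *
      (Bd Ω W (∏ i ∈ A, π i) (fun m => ∏ i ∈ A, sy (π i) m) / 2 ^ A.card) with hT
    have ht1 : ∀ A ∈ S.powerset.erase S, (∏ i ∈ S \ A, ((π i : ℂ) -
        ∏ j ∈ A, sy (π j) (π i))) *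
        Bd Ω W (∏ i ∈ A, π i) (fun m => ∏ i ∈ A, sy (π i) m) = 2 ^ S.card * T A := by
      intro A hA
      rw [Finset.mem_erase, Finset.mem_powerset] at hA
      have hcs : S.card = (S \ A).card + A.card := (Finset.card_sdiff_add_card_eq_card hA.2).symm
      rw [hT]
      beta_reduce
      rw [Finset.prod_div_distrib, Finset.prod_const, hcs, pow_add]
      field_simp
    rw [Finset.sum_congr rfl ht1, ← Finset.mul_sum] at h2
    have h3 : a / 2 ^ S.card = Y + -∑ A ∈ S.powerset.erase S, T A := by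
      have : a = 2 ^ S.card * Y - 2 ^ S.card * ∑ A ∈ S.powerset.erase S, T A := by
        linear_combination h2
      rw [this]
      field_simp
      ring
    -- the even subsets
    have hev : ∀ A ⊆ S, ∑ i ∈ A, t i = 0 → T A = 0 := by
      intro A hA hA0
      have hSA := hS.mono hA
      rw [hT]
      beta_reduce
      rw [Bd_even hW hL ho hSA.prod_ne (Pe.prod fun p _ => sy_per (π p))
        (prod_sy_neg hSA hA0), zero_div, mul_zero]
    have h4 : gd t r S = ∏ i ∈ S, t i + ∑ A ∈ S.powerset.erase S, (if A = ∅ then 0 else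
        gd t r A * ∏ i ∈ S \ A, (t i + ∑ j ∈ A, r i j)) := by
      have h5 := hrec ι t r S hne
      rw [← Finset.add_sum_erase _ _ (Finset.mem_powerset_self S), Finset.sdiff_self,
        Finset.prod_empty, mul_one] at h5
      have h6 := eq_neg_of_add_eq_zero_left h5
      rw [h6, ZMod.neg_eq_self_mod_two]
      have hem : (∅ : Finset ι) ∈ S.powerset.erase S :=
        Finset.mem_erase.2 ⟨hne.ne_empty.symm, Finset.empty_mem_powerset S⟩
      rw [← Finset.add_sum_erase _ _ hem, ← Finset.add_sum_erase _ _ hem, if_pos rfl, zero_add]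
      congr 1
      · have e0 : gd t r ∅ = 1 := by
          unfold gd
          exact Matrix.det_isEmpty
        rw [e0, one_mul, Finset.sdiff_empty]
        exact Finset.prod_congr rfl fun i _ => by rw [Finset.sum_empty, add_zero]
      · exact Finset.sum_congr rfl fun A hA => (if_neg (Finset.mem_erase.1 hA).1).symm
    rw [h3, h4]
    refine Rd.add t2 hvY (Rd.neg t2 (Rd.sum t2 ?_))
    intro A hA
    rw [Finset.mem_erase, Finset.mem_powerset] at hA
    have hss : A ⊂ S := hA.2.ssubset_of_ne hA.1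
    have hzero : Rd v (0 : ℂ) 0 := by rw [Rd.zero_iff, map_zero]; exact zero_lt_one
    by_cases hA0 : A = ∅
    · rw [if_pos hA0, hev A hA.2 (by rw [hA0, Finset.sum_empty])]
      exact hzero
    rw [if_neg hA0]
    have hAne : A.Nonempty := Finset.nonempty_iff_ne_empty.2 hA0
    rcases zor (∑ i ∈ A, t i) with hA1 | hA1
    · rw [hev A hA.2 hA1, gd_even hAne hA1 (fun i hi j hj hij =>
        rel_sy (hS.mono hA.2) hi hj hij), zero_mul]
      exact hzero
    rw [hT]
    beta_reduce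
    rw [mul_comm (gd t r A)]
    refine Rd.mul (Rd.prod fun i hi => ?_) (ih A hss (hA.2.trans hSS) hAne)
    rw [Finset.mem_sdiff] at hi
    have hpi := hS.pn i hi.1
    have h7 := sgn_prod (s := A) (f := fun j => sy (π j) (π i)) fun j hj => sy_sgn
      (hS.ne i hi.1 j (hA.2 hj) fun h => hi.2 (h ▸ hj))
    have h8 : t i + ∑ j ∈ A, r i j = lg (∏ j ∈ A, sy (π j) (π i)) := by
      rw [h7.2]
      have h9 : ∀ j ∈ A, lg (sy (π j) (π i)) = r i j + t i * t j := by
        intro j hj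
        have := rel_sy hS hi.1 (hA.2 hj) (fun h => hi.2 (h ▸ hj))
        rw [hrdef, htdef]
        simp only
        linear_combination this - z2 (lg (sy (π i) (π j)))
      rw [Finset.sum_congr rfl h9, Finset.sum_add_distrib, ← Finset.mul_sum, hA1]
      ring
    rw [h8]
    exact Rd.euler2 hv hpi.r4 h7.1

end Pool.Agent.R426.QD
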