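import Pool.Agent.R426.QD.Sl
import Pool.Agent.R426.QD.Ls

/-!
# The rank and the Tate-Shafarevich group, families of both types
-/

set_option autoImplicit false
set_option linter.unusedSectionVars false

attribute [-instance] DivisionRing.toRatAlgebra

open NumberField IsDedekindDomain

namespace Pool.Agent.R426.QD

open Pool.Agent.R426.QC hiding bR trace_D prime_fR
open Pool.Agent.Y698 Pool.Agent.Y698.SG
open H667R3 Pool.Agent.W192.HK Pool.Agent.TH936.CM Pool.Agent.TH936.PU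
open WithZero
open Pool.Agent.Y682 (S1 S2 IsT Zc Zc_card Zc_lower LL1 LL2 quot_eq)

section

variable {K : Type} [Field K] [NumberField K] (e : RR ≃+* 𝓞 K)

/-- the first Selmer group -/
theorem sel1D {ι : Type} [DecidableEq ι] {I : Finset ι} {π : ι → RR} (hS : QD.Ev I π)
    (hg : gd (mc π) (mr π) I ≠ 0) {q : K} (hq : q ≠ 0)
    (h : ∀ v : HeightOneSpectrum (𝓞 K), ∃ y m : v.adicCompletion K, y ≠ 0 ∧
      algebraMap K (v.adicCompletion K) q * y ^ 2 = m ∧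
      S1 (algebraMap K (v.adicCompletion K) (cA (em e aR) (em e (∏ i ∈ I, π i))))
        (algebraMap K (v.adicCompletion K) (cB (em e aR) (em e (∏ i ∈ I, π i)))) m) :
    ∃ c : K, q = c ^ 2 ∨ q = em e (fR * ∏ i ∈ I, π i) * c ^ 2 := by
  have h1 := selB e hS.bnb (by rw [gd_nb hS]; exact hg) hq (fun v h7 => by
    rw [prod_nb' hS]
    exact LCE.glob1 v (ema_sq e) (lh_of e hS.sqf hS.m4 v h7) hq (h v))
  rw [prod_nb' hS] at h1
  exact h1

/-- the second Selmer group -/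
theorem sel2D {ι : Type} [DecidableEq ι] {I : Finset ι} {π : ι → RR} (hS : QD.Ev I π)
    (hg : gd (mc π) (mr π) I ≠ 0) {q : K} (hq : q ≠ 0)
    (h : ∀ v : HeightOneSpectrum (𝓞 K), ∃ y m : v.adicCompletion K, y ≠ 0 ∧
      algebraMap K (v.adicCompletion K) q * y ^ 2 = m ∧
      S2 (algebraMap K (v.adicCompletion K) (cA (em e aR) (em e (∏ i ∈ I, π i))))
        (algebraMap K (v.adicCompletion K) (cB (em e aR) (em e (∏ i ∈ I, π i)))) m) :
    ∃ c : K, q = c ^ 2 ∨ q = em e (-(fR * ∏ i ∈ I, π i)) * c ^ 2 := by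
  have hem : ∀ x : RR, em (cjR.trans e) x = em e (cj x) := fun x => rfl
  have hD : em (cjR.trans e) (∏ i ∈ I, cj (π i)) = em e (∏ i ∈ I, π i) := by
    rw [hem, ← map_prod, cj_cj]
  have ha : em (cjR.trans e) aR = 1 - em e aR := by
    rw [hem, QC.cj_aR, map_sub, map_one]
  have h3 := selB (cjR.trans e) (I := I) (π := fun i => cj (π i)) hS.bcj
    (by rw [gd_cj hS]; exact hg) hq (fun v h7 => by
      rw [hD, ha]
      exact LCE.glob2 v (ema_sq e) (lh_of e hS.sqf hS.m4 v h7) hq (h v))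
  obtain ⟨c, hc⟩ := h3
  refine ⟨c, ?_⟩
  rcases hc with hc | hc
  · exact Or.inl hc
  · right
    rw [hc, map_mul, hD]
    have e1 : em (cjR.trans e) fR = -em e fR := by
      rw [em_fR, ha, em_fR]
      ring
    rw [e1, map_neg, map_mul]
    ring

/-- **the rank and the elements of order two in Sha** -/
theorem sha_rankD {ι : Type} [DecidableEq ι] {I : Finset ι} {π : ι → RR} (hS : QD.Ev I π)
    (hg : gd (mc π) (mr π) I ≠ 0) {J : RR} (hJ : ∏ i ∈ I, π i = 1 + 4 * J) :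
    Finite (EX K (em e J)).toAffine.Point ∧
      ∀ x : Pool.Agent.TH841.NF.D.Sha (EX K (em e J)), 2 • x = 0 → x = 0 := by
  classical
  set a := em e aR with ha'
  have ha : a ^ 2 = a - 2 := ema_sq e
  set j := em e J with hj
  have hDj : em e (∏ i ∈ I, π i) = 1 + 4 * j := by
    rw [hJ, map_add, map_mul, map_one, map_ofNat]
  have hD0' : (1 + 4 * j) ≠ 0 := by
    rw [← hDj]
    exact em_ne e hS.sqf.ne_zero
  set W := E2 K j (-((1 + 4 * j) * eB a)) with hW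
  have hT : IsT W (cA a (1 + 4 * j)) (cB a (1 + 4 * j)) := isT_E2 ha hD0'
  have hP0 : fR * ∏ i ∈ I, π i ≠ 0 := mul_ne_zero fR_ne hS.sqf.ne_zero
  have hD0 : em e (fR * ∏ i ∈ I, π i) ≠ 0 := em_ne e hP0
  have hD1 : em e (-(fR * ∏ i ∈ I, π i)) ≠ 0 := em_ne e (neg_ne_zero.2 hP0)
  have card2 : ∀ d : Kˣ, Nat.card ({(1 : Kˣ ⧸ Pool.Agent.Y682.Sq K),
      ((d : Kˣ) : Kˣ ⧸ Pool.Agent.Y682.Sq K)} : Set (Kˣ ⧸ Pool.Agent.Y682.Sq K)) ≤ 2 := by
    intro d
    have h1 : ({(1 : Kˣ ⧸ Pool.Agent.Y682.Sq K), ((d : Kˣ) : Kˣ ⧸ Pool.Agent.Y682.Sq K)} :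
        Set (Kˣ ⧸ Pool.Agent.Y682.Sq K)).ncard ≤ 2 := by
      refine (Set.ncard_insert_le _ _).trans ?_
      rw [Set.ncard_singleton]
    exact h1
  have key : ∀ (d : K) (hd : d ≠ 0) (b : Kˣ), (∃ c : K, (b : K) = c ^ 2 ∨ (b : K) = d * c ^ 2) →
      (b : Kˣ ⧸ Pool.Agent.Y682.Sq K) ∈ ({(1 : Kˣ ⧸ Pool.Agent.Y682.Sq K),
        ((Units.mk0 d hd : Kˣ) : Kˣ ⧸ Pool.Agent.Y682.Sq K)} : Set (Kˣ ⧸ Pool.Agent.Y682.Sq K)) := by
    rintro d hd b ⟨c, hc⟩
    have hc0 : c ≠ 0 := by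
      rintro rfl
      rcases hc with hc | hc
      · rw [zero_pow two_ne_zero] at hc; exact b.ne_zero hc
      · rw [zero_pow two_ne_zero, mul_zero] at hc; exact b.ne_zero hc
    rcases hc with hc | hc
    · left
      have h1 : (1 : Kˣ ⧸ Pool.Agent.Y682.Sq K) = ((1 : Kˣ) : Kˣ ⧸ Pool.Agent.Y682.Sq K) := rfl
      rw [h1, eq_comm, quot_eq]
      refine ⟨Units.mk0 c hc0, Units.ext ?_⟩
      rw [Units.val_mul, Units.val_one, one_mul, Units.val_pow_eq_pow_val, Units.val_mk0, hc]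
    · right
      show (b : Kˣ ⧸ Pool.Agent.Y682.Sq K) = ((Units.mk0 d hd : Kˣ) : Kˣ ⧸ Pool.Agent.Y682.Sq K)
      rw [eq_comm, quot_eq]
      refine ⟨Units.mk0 c hc0, Units.ext ?_⟩
      rw [Units.val_mul, Units.val_pow_eq_pow_val, Units.val_mk0, Units.val_mk0, hc]
  have H1 : ∀ b : Kˣ, LL1 (cA a (1 + 4 * j)) (cB a (1 + 4 * j)) (b : K) →
      (b : Kˣ ⧸ Pool.Agent.Y682.Sq K) ∈ ({(1 : Kˣ ⧸ Pool.Agent.Y682.Sq K),
        ((Units.mk0 _ hD0 : Kˣ) : Kˣ ⧸ Pool.Agent.Y682.Sq K)} :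
          Set (Kˣ ⧸ Pool.Agent.Y682.Sq K)) := by
    intro b hb
    apply key _ hD0
    apply sel1D e hS hg b.ne_zero
    intro v
    rw [hDj]
    exact hb.1 v
  have H2 : ∀ b : Kˣ, LL2 (cA a (1 + 4 * j)) (cB a (1 + 4 * j)) (b : K) →
      (b : Kˣ ⧸ Pool.Agent.Y682.Sq K) ∈ ({(1 : Kˣ ⧸ Pool.Agent.Y682.Sq K),
        ((Units.mk0 _ hD1 : Kˣ) : Kˣ ⧸ Pool.Agent.Y682.Sq K)} :
          Set (Kˣ ⧸ Pool.Agent.Y682.Sq K)) := by
    intro b hb
    apply key _ hD1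
    apply sel2D e hS hg b.ne_zero
    intro v
    rw [hDj]
    exact hb.1 v
  have hf1 : Finite ({(1 : Kˣ ⧸ Pool.Agent.Y682.Sq K),
        ((Units.mk0 _ hD0 : Kˣ) : Kˣ ⧸ Pool.Agent.Y682.Sq K)} :
          Set (Kˣ ⧸ Pool.Agent.Y682.Sq K)) := (Set.toFinite _).to_subtype
  have hf2 : Finite ({(1 : Kˣ ⧸ Pool.Agent.Y682.Sq K),
        ((Units.mk0 _ hD1 : Kˣ) : Kˣ ⧸ Pool.Agent.Y682.Sq K)} :
          Set (Kˣ ⧸ Pool.Agent.Y682.Sq K)) := (Set.toFinite _).to_subtype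
  obtain ⟨hfz, hc⟩ := Zc_card hT (Or.inl rfl) H1 H2
  obtain ⟨h3, h4⟩ := Zc_lower hT
  have h6 : Nat.card (Zc W) ≤ 4 := by
    refine hc.trans ?_
    have k1 := card2 (Units.mk0 _ hD0)
    have k2 := card2 (Units.mk0 _ hD1)
    exact (Nat.mul_le_mul k1 k2).trans (by norm_num)
  have h8 := h4.trans h6
  have hpos : 0 < Nat.card {x : Pool.Agent.TH841.NF.D.Sha W // 2 • x = 0} := by
    have : Nonempty {x : Pool.Agent.TH841.NF.D.Sha W // 2 • x = 0} := ⟨⟨0, smul_zero _⟩⟩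
    exact Nat.card_pos
  have hr : Module.finrank ℤ (Pool.Agent.Y682.MP W) = 0 := by
    by_contra hne
    have h7 : 2 ≤ 2 ^ (Module.finrank ℤ (Pool.Agent.Y682.MP W)) := by
      calc 2 = 2 ^ 1 := by norm_num
        _ ≤ _ := Nat.pow_le_pow_right (by norm_num) (by omega)
    nlinarith
  constructor
  · have hfin : Finite W.toAffine.Point := by
      have hfg : Module.Finite ℤ (Pool.Agent.Y682.MP W) := Pool.Agent.Y682.fg_MP hT
      have htors := Module.finrank_eq_zero_iff_isTorsion.1 hr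
      exact Module.finite_of_fg_torsion (Pool.Agent.Y682.MP W) htors
    exact Finite.of_injective _ (vFe_inj (vchK j (-((1 + 4 * j) * eB a))))
  · refine sha_tr j (-((1 + 4 * j) * eB a)) ?_
    intro x hx
    have h5 : Nat.card {x : Pool.Agent.TH841.NF.D.Sha W // 2 • x = 0} ≤ 1 := by
      have h7 : 1 ≤ 2 ^ (Module.finrank ℤ (Pool.Agent.Y682.MP W)) := Nat.one_le_two_pow
      nlinarith
    have h6 : Subsingleton {x : Pool.Agent.TH841.NF.D.Sha W // 2 • x = 0} :=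
      Finite.card_le_one_iff_subsingleton.1 h5
    have h7 := @Subsingleton.elim _ h6 ⟨x, hx⟩ ⟨0, smul_zero _⟩
    exact congrArg Subtype.val h7


end

end Pool.Agent.R426.QD
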