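import Pool.Agent.R426.QD.Vd
import Pool.Agent.R426.QD.Sh
import Pool.Agent.R426.QD.Cn

/-!
# Assembly: the results over `ℚ(√-7)`, in terms of the ring of integers
-/

set_option autoImplicit false
set_option linter.unusedSectionVars false

open NumberField IsDedekindDomain

namespace Pool.Agent.R426.QD

open scoped Classical
open Pool.Agent.R426.QC hiding bR trace_D prime_fR
open Pool.Agent.Y698 Pool.Agent.Y698.SG
open Pool.Agent.W192.HK (sp)

/-! ### factorisation -/

lemma r4_unit {x : RR} (h : ¬ aR ∣ x) : r4 x = 1 ∨ r4 x = 3 := by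
  have h1 : r4 x ≠ 0 := fun h0 => h ((dvd_pow_self aR two_ne_zero).trans (r4_zero h0))
  have h2 : r4 x ≠ 2 := by
    intro h0
    have h3 : r4 (x - aR) = 0 := by rw [map_sub, h0, r4_a, sub_self]
    apply h
    have h4 := (dvd_pow_self aR two_ne_zero).trans (r4_zero h3)
    have e1 : x = (x - aR) + aR := by ring
    rw [e1]
    exact dvd_add h4 dvd_rfl
  revert h1 h2
  generalize r4 x = t
  revert t
  decide

/-- the normalised factorisation -/
lemma exists_fac (x : RR) : Squarefree x → ¬ aR ∣ x →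
    ∃ S : Finset RR, (∀ p ∈ S, Prime p ∧ r4 p = 1) ∧ (x = ∏ p ∈ S, p ∨ x = -∏ p ∈ S, p) := by
  induction x using UniqueFactorizationMonoid.induction_on_prime with
  | h₁ => intro _ h; exact absurd (dvd_zero aR) h
  | h₂ x hx =>
    intro _ _
    refine ⟨∅, fun p hp => absurd hp (Finset.notMem_empty p), ?_⟩
    rw [Finset.prod_empty]
    exact isUnit_iff.1 hx
  | h₃ x p hx hp ih =>
    intro hsq hna
    have hnx : ¬ aR ∣ x := fun h => hna (h.mul_left p)
    have hnp : ¬ aR ∣ p := fun h => hna (h.mul_right x)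
    obtain ⟨S, hS, hxS⟩ := ih (hsq.squarefree_of_dvd (Dvd.intro_left _ rfl)) hnx
    have hpx : ¬ p ∣ x := fun h => hp.not_isUnit (hsq p (mul_dvd_mul_left p h))
    obtain ⟨q, hq, hqp⟩ : ∃ q : RR, (Prime q ∧ r4 q = 1) ∧ (p = q ∨ p = -q) := by
      rcases r4_unit hnp with h | h
      · exact ⟨p, ⟨hp, h⟩, Or.inl rfl⟩
      · refine ⟨-p, ⟨hp.neg, ?_⟩, Or.inr (neg_neg p).symm⟩
        rw [map_neg, h]
        decide
    have hqS : q ∉ S := by
      intro h
      apply hpx
      have h1 : q ∣ x := by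
        rcases hxS with h2 | h2 <;> rw [h2]
        · exact Finset.dvd_prod_of_mem _ h
        · rw [dvd_neg]
          exact Finset.dvd_prod_of_mem _ h
      rcases hqp with h2 | h2 <;> rw [h2]
      · exact h1
      · rwa [neg_dvd]
    refine ⟨insert q S, fun p' hp' => ?_, ?_⟩
    · rcases Finset.mem_insert.1 hp' with rfl | h
      · exact hq
      · exact hS p' h
    · rw [Finset.prod_insert hqS]
      rcases hqp with h2 | h2 <;> rcases hxS with h3 | h3 <;> rw [h2, h3]
      · exact Or.inl rfl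
      · right; ring
      · right; ring
      · left; ring

/-- the normalised factorisation of an element congruent to one -/
lemma exists_fac4 {x : RR} (hsq : Squarefree x) (h4 : ∃ J : RR, x = 1 + 4 * J) :
    ∃ S : Finset RR, (∀ p, p ∈ S ↔ Prime p ∧ p ∣ x ∧ r4 p = 1) ∧ x = ∏ p ∈ S, p := by
  obtain ⟨J, hJ⟩ := h4
  have hr : r4 x = 1 := r4_m4 ⟨J, hJ⟩
  have hna : ¬ aR ∣ x := by
    intro h
    apply prime_aR.not_isUnit
    have e1 : (1 : RR) = x - 2 * (2 * J) := by rw [hJ]; ring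
    have e2 : aR ∣ (2 : RR) := ⟨cj aR, two_eq⟩
    exact isUnit_of_dvd_one (by rw [e1]; exact dvd_sub h (e2.mul_right _))
  obtain ⟨S, hS, hx⟩ := exists_fac x hsq hna
  have hp1 : r4 (∏ p ∈ S, p) = 1 := by
    rw [map_prod]
    exact Finset.prod_eq_one fun p hp => (hS p hp).2
  have hx1 : x = ∏ p ∈ S, p := by
    rcases hx with h | h
    · exact h
    · exfalso
      rw [h, map_neg, hp1] at hr
      revert hr
      decide
  refine ⟨S, fun p => ⟨fun hp => ⟨(hS p hp).1, ?_, (hS p hp).2⟩, fun hp => ?_⟩, hx1⟩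
  · rw [hx1]
    exact Finset.dvd_prod_of_mem _ hp
  · obtain ⟨h1, h2, h3⟩ := hp
    rw [hx1] at h2
    obtain ⟨q, hq, hpq⟩ := (h1.dvd_finsetProd_iff _).1 h2
    obtain ⟨u, hu⟩ := h1.associated_of_dvd (hS q hq).1 hpq
    rcases isUnit_iff.1 u.isUnit with h4 | h4
    · rw [h4, mul_one] at hu
      rw [hu]
      exact hq
    · exfalso
      rw [h4] at hu
      have h5 := (hS q hq).2
      rw [← hu, map_mul, h3, one_mul, map_neg, map_one] at h5
      revert h5
      decide

/-- the family of the prime divisors -/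
lemma ev_fac {x : RR} (h4 : ∃ J : RR, x = 1 + 4 * J)
    (h7 : ¬ fR ∣ x) {S : Finset RR} (hS : ∀ p, p ∈ S ↔ Prime p ∧ p ∣ x ∧ r4 p = 1)
    {ι : Type} {I : Finset ι} {π : ι → RR}
    (hI : ∀ i ∈ I, π i ∈ S) (hinj : ∀ i ∈ I, ∀ j ∈ I, π i = π j → i = j)
    (hprod : ∏ i ∈ I, π i = x) : QD.Ev I π := by
  obtain ⟨J, hJ⟩ := h4
  have hpn : ∀ i ∈ I, Pn (π i) := by
    intro i hi
    obtain ⟨h1, h2, h3⟩ := (hS (π i)).1 (hI i hi)
    refine ⟨h1, fun h => h1.not_isUnit ?_, h3⟩
    have e1 : (1 : RR) = x - 2 * (2 * J) := by rw [hJ]; ring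
    exact isUnit_of_dvd_one (by rw [e1]; exact dvd_sub h2 (h.mul_right _))
  have hfa : Fa I π := by
    refine ⟨hpn, fun i hi j hj hij h => hij (hinj i hi j hj ?_)⟩
    rw [Ideal.mem_span_singleton] at h
    obtain ⟨u, hu⟩ := (hpn j hj).pr.associated_of_dvd (hpn i hi).pr h
    rcases isUnit_iff.1 u.isUnit with h4 | h4
    · rw [h4, mul_one] at hu
      exact hu.symm
    · exfalso
      rw [h4] at hu
      have h5 := (hpn i hi).r4
      rw [← hu, map_mul, (hpn j hj).r4, one_mul, map_neg, map_one] at h5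
      revert h5
      decide
  refine ⟨hfa, fun i hi => ?_, ?_, ⟨J, by rw [hprod, hJ]⟩⟩
  · have h2 := ((hS (π i)).1 (hI i hi)).2.1
    have h1 : π i ∉ sp fR := fun h => h7 ((Ideal.mem_span_singleton.1 h).trans h2)
    refine ⟨h1, fun h => h1 ?_⟩
    rw [Ideal.mem_span_singleton] at h ⊢
    exact ((hpn i hi).pr.associated_of_dvd prime_fR h).symm.dvd
  · by_contra hne
    have h1 := prod_nb I π
    rw [if_neg hne, hprod] at h1
    have h2 : r4 (cj (∏ i ∈ I, nb (π i))) = 1 := by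
      rw [map_prod, map_prod]
      exact Finset.prod_eq_one fun i hi => nb_r4 (hpn i hi)
    have h3 : r4 (cj x) = 1 := r4_m4 ⟨cj J, by rw [hJ, map_add, map_mul, map_one, map_ofNat]⟩
    rw [h1, map_mul, map_mul, h3, mul_one, map_neg, map_one, map_neg, map_one] at h2
    revert h2
    decide

section

variable {K : Type} [Field K] [NumberField K] (e : RR ≃+* 𝓞 K)

lemma r4_dvd {x : RR} : r4 x = 1 ↔ aR ^ 2 ∣ x - 1 := by
  constructor
  · intro h
    exact r4_zero (by rw [map_sub, h, map_one, sub_self])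
  · rintro ⟨c, hc⟩
    have h1 : x = 1 + aR ^ 2 * c := by linear_combination hc
    rw [h1, map_add, map_one, map_mul, map_pow, r4_a]
    have : (2 : ZMod 4) ^ 2 = 0 := by decide
    rw [this, zero_mul, add_zero]

lemma dvd_e {x y : RR} : e x ∣ e y ↔ x ∣ y := map_dvd_iff e

/-- **the family of the prime divisors of `D`** -/
theorem exists_S {a : 𝓞 K} (hea : e aR = a) {D : 𝓞 K} (h4 : (4 : 𝓞 K) ∣ D - 1)
    (hsq : Squarefree D) (h7 : ¬ (2 * a - 1) ∣ D) :
    ∃ S : Finset (𝓞 K), (∀ p, p ∈ S ↔ Prime p ∧ p ∣ D ∧ a ^ 2 ∣ p - 1) ∧ ∏ p ∈ S, p = D ∧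
      QD.Ev S (QC.pe e) := by
  have hx4 : ∃ J : RR, e.symm D = 1 + 4 * J := by
    obtain ⟨u, hu⟩ := h4
    refine ⟨e.symm u, ?_⟩
    have h2 : D = 1 + 4 * u := by linear_combination hu
    conv_lhs => rw [h2]
    rw [map_add, map_mul, map_one, map_ofNat]
  have hxsq : Squarefree (e.symm D) := by
    intro x hx
    have h1 : e x * e x ∣ D := by
      rw [← map_mul, ← e.apply_symm_apply D]
      exact (dvd_e e).2 hx
    have h2 := (hsq (e x) h1).map e.symm
    rwa [e.symm_apply_apply] at h2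
  have hef : e fR = 2 * a - 1 := by
    unfold fR
    rw [map_sub, map_mul, map_ofNat, map_one, hea]
  have hx7 : ¬ fR ∣ e.symm D := by
    intro h
    apply h7
    rw [← hef, ← e.apply_symm_apply D]
    exact (dvd_e e).2 h
  obtain ⟨S, hS, hx⟩ := exists_fac4 hxsq hx4
  refine ⟨S.map e.toEquiv.toEmbedding, fun p => ?_, ?_, ?_⟩
  · rw [Finset.mem_map_equiv]
    have h0 : (e.toEquiv.symm p : RR) = e.symm p := rfl
    rw [h0, hS, r4_dvd]
    have h1 : Prime (e.symm p) ↔ Prime p := MulEquiv.prime_iff e.symm.toMulEquiv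
    have h2 : e.symm p ∣ e.symm D ↔ p ∣ D := map_dvd_iff e.symm
    have h3 : aR ^ 2 ∣ e.symm p - 1 ↔ a ^ 2 ∣ p - 1 := by
      rw [← map_dvd_iff e, map_pow, hea, map_sub, e.apply_symm_apply, map_one]
    rw [h1, h2, h3]
  · rw [Finset.prod_map]
    show ∏ x ∈ S, e x = D
    rw [← map_prod, ← hx, e.apply_symm_apply]
  · refine ev_fac hx4 hx7 hS (fun p hp => ?_) (fun p hp q hq h => e.symm.injective h) ?_
    · rw [Finset.mem_map_equiv] at hp
      exact hp
    · rw [Finset.prod_map]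
      show ∏ x ∈ S, e.symm (e x) = _
      rw [hx]
      exact Finset.prod_congr rfl fun x _ => e.symm_apply_apply x

lemma mat_gdD {f : 𝓞 K} (hf : e fR = f) {S : Finset (𝓞 K)} (hS : QD.Ev S (QC.pe e)) :
    gd (mc (QC.pe e)) (mr (QC.pe e)) S = (matK f S).det := by
  have h1 : ∀ p ∈ S, mc (QC.pe e) p = nsq p f := by
    intro p hp
    show lg (e7 (e.symm p)) = _
    have h2 : e.symm p ∉ sp fR := (hS.c7 p hp).1
    rw [lg_e7 h2, ← nsq_e e p f, ← hf, e.symm_apply_apply]
  have h2 : ∀ p ∈ S, ∀ q ∈ S, p ≠ q → mr (QC.pe e) p q = nsq p q := by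
    intro p hp q hq hpq
    have h3 : lg (sy (QC.pe e q) (QC.pe e p)) = nsq (QC.pe e p) (QC.pe e q) :=
      QC.lg_sy (hS.fa.ne p hp q hq hpq)
    exact h3.trans (nsq_e e p q)
  unfold gd
  congr 1
  ext p q
  unfold matK
  rw [Matrix.of_apply, Matrix.of_apply]
  by_cases h : q = p
  · rw [if_pos h.symm, if_pos h, h1 p p.2]
    congr 1
    refine Finset.sum_congr rfl fun r hr => ?_
    rw [Finset.mem_erase] at hr
    exact h2 p p.2 r hr.2 hr.1.symm
  · rw [if_neg (fun h' => h h'.symm), if_neg h]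
    exact h2 p p.2 q q.2 fun h' => h (Subtype.ext h'.symm)

end

end Pool.Agent.R426.QD
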