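import Pool.Agent.R426.QC.Tr

/-!
# Prime elements `≡ 1` modulo the square of `(1 + √-7) / 2`
-/

set_option autoImplicit false
set_option linter.unusedSectionVars false

namespace Pool.Agent.R426.QD

open Pool.Agent.R426.QC
open Pool.Agent.Y698 Pool.Agent.Y698.SG
open H667R3 Pool.Agent.W192.HK Pool.Agent.TH936.CM Pool.Agent.TH936.PU
open Pool.Agent.Y279.SG (sy_eq red cXY_cj nR_dvd qch_eq dvd_coord)
open Pool.Agent.Y919.SG (jac_abs gcd_natAbs sq8)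

/-- reduction modulo `α²` -/
noncomputable def r4 : RR →+* ZMod 4 := ev (2 : ZMod 4) (by decide)

lemma r4_eq (x : RR) : r4 x = ((cX x + 2 * cY x : ℤ) : ZMod 4) := by
  have h : r4 x = (cX x : ZMod 4) + (cY x : ZMod 4) * 2 := rfl
  rw [h]
  push_cast
  ring

lemma r4_a : r4 aR = 2 := ev_aR _ _

/-- prime elements `≡ 1 mod α²` -/
structure Pn (ϖ : RR) : Prop where
  pr : Prime ϖ
  od : ¬ ϖ ∣ 2
  r4 : r4 ϖ = 1

/-- the second type -/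
structure P3 (ϖ : RR) (p : ℕ) (A B : ℤ) : Prop where
  pr : p.Prime
  m4 : p % 4 = 3
  nR : nR ϖ = p
  hA : A % 2 = 0
  hB : B % 2 = 1
  hX : cX ϖ = A - B
  hY : cY ϖ = 2 * B

/-- the parities of the coordinates -/
lemma parity {ϖ : RR} {p : ℕ} (hp : p.Prime) (hp2 : p ≠ 2) (hN : nR ϖ = p) :
    cX ϖ % 2 = 1 ∧ cY ϖ % 2 = 0 := by
  have hnorm : (p : ℤ) = cX ϖ ^ 2 + cX ϖ * cY ϖ + 2 * cY ϖ ^ 2 := by
    rw [← hN]; rfl
  have hpodd : (p : ℤ) % 2 = 1 := by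
    have := Nat.odd_iff.1 (hp.odd_of_ne_two hp2)
    omega
  have hYev : cY ϖ % 2 = 0 := by
    by_contra hcon
    have hYo : cY ϖ % 2 = 1 := by omega
    have h5 : (cX ϖ ^ 2 + cX ϖ * cY ϖ) % 2 = 0 := by
      have e : cX ϖ ^ 2 + cX ϖ * cY ϖ = cX ϖ * (cX ϖ + cY ϖ) := by ring
      rw [e, Int.mul_emod]
      rcases Int.emod_two_eq_zero_or_one (cX ϖ) with h6 | h6
      · rw [h6]; simp
      · have h7 : (cX ϖ + cY ϖ) % 2 = 0 := by omega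
        rw [h7]; simp
    omega
  refine ⟨?_, hYev⟩
  by_contra hcon
  have hXe : cX ϖ % 2 = 0 := by omega
  obtain ⟨w, hw⟩ : ∃ w, cX ϖ = 2 * w := ⟨cX ϖ / 2, by omega⟩
  have e : cX ϖ ^ 2 + cX ϖ * cY ϖ + 2 * cY ϖ ^ 2 =
      2 * (w * cX ϖ + w * cY ϖ + cY ϖ ^ 2) := by
    rw [hw]; ring
  rw [e] at hnorm
  omega

/-- the two kinds of odd prime elements up to sign -/
lemma odd_cases {ϖ : RR} (h : Prime ϖ) (h2 : ¬ ϖ ∣ 2) :
    (Pm ϖ ∨ Pm (-ϖ)) ∨ ∃ p A B, P3 ϖ p A B := by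
  rcases prime_cases h with ⟨p, hp, hN⟩ | ⟨q, hq, hϖ⟩
  · have hp2 : p ≠ 2 := by
      rintro rfl
      apply h2
      refine ⟨cj ϖ, ?_⟩
      rw [mul_cj, hN]
      push_cast
      rfl
    obtain ⟨hX, hY⟩ := parity hp hp2 hN
    obtain ⟨D, hD⟩ : ∃ D, cY ϖ = 2 * D := ⟨cY ϖ / 2, by omega⟩
    rcases Int.emod_two_eq_zero_or_one D with hD2 | hD2
    · left
      obtain ⟨y, hy⟩ : ∃ y, D = 2 * y := ⟨D / 2, by omega⟩
      have hy4 : cY ϖ = 4 * y := by rw [hD, hy]; ring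
      have hx4 : cX ϖ % 4 = 1 ∨ cX ϖ % 4 = 3 := by omega
      rcases hx4 with hx4 | hx4
      · exact Or.inl ⟨h, m4_of_coord (ϖ := ϖ) (x := cX ϖ / 4) (y := y) (by omega) hy4⟩
      · exact Or.inr ⟨h.neg, m4_of_coord (ϖ := -ϖ) (x := (-cX ϖ) / 4) (y := -y)
            (by rw [(cXY_neg ϖ).1]; omega) (by rw [(cXY_neg ϖ).2, hy4]; ring)⟩
    · right
      refine ⟨p, cX ϖ + D, D, hp, ?_, hN, by omega, hD2, by ring, hD⟩
      have hpe : (p : ℤ) = (cX ϖ + D) ^ 2 + 7 * D ^ 2 := by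
        rw [← hN]
        unfold nR
        rw [hD]; ring
      have hD8 := sq8 hD2
      obtain ⟨c, hc⟩ : ∃ c, cX ϖ + D = 2 * c := ⟨(cX ϖ + D) / 2, by omega⟩
      have h4 : (cX ϖ + D) ^ 2 = 4 * c ^ 2 := by rw [hc]; ring
      omega
  · left
    have hodd : q % 2 = 1 := Nat.odd_iff.1 (hq.pr.odd_of_ne_two hq.h2)
    have key : ∀ n : ℤ, n % 4 = 1 → ∃ u : RR, ((n : ℤ) : RR) = 1 + 4 * u := by
      intro n hn
      exact m4_of_coord (x := n / 4) (y := 0) (by rw [(cXY_int n).1]; omega)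
        (by rw [(cXY_int n).2]; ring)
    have h4 : q % 4 = 1 ∨ q % 4 = 3 := by omega
    have k1 : q % 4 = 1 → ∃ u : RR, (q : RR) = 1 + 4 * u := fun h4 => by
      have := key (q : ℤ) (by omega)
      rwa [Int.cast_natCast] at this
    have k2 : q % 4 = 3 → ∃ u : RR, -(q : RR) = 1 + 4 * u := fun h4 => by
      have := key (-(q : ℤ)) (by omega)
      rwa [Int.cast_neg, Int.cast_natCast] at this
    rcases hϖ with rfl | hϖ
    · rcases h4 with h4 | h4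
      · exact Or.inl ⟨h, k1 h4⟩
      · exact Or.inr ⟨h.neg, k2 h4⟩
    · have e1 : -ϖ = (q : RR) := by rw [hϖ, neg_neg]
      rcases h4 with h4 | h4
      · exact Or.inr ⟨h.neg, by rw [e1]; exact k1 h4⟩
      · exact Or.inl ⟨h, by rw [hϖ]; exact k2 h4⟩

lemma r4_m4 {ϖ : RR} (h : ∃ u : RR, ϖ = 1 + 4 * u) : r4 ϖ = 1 := by
  obtain ⟨u, rfl⟩ := h
  rw [map_add, map_mul, map_one, map_ofNat]
  have : (4 : ZMod 4) = 0 := by decide
  rw [this, zero_mul, add_zero]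

/-- the two types -/
lemma Pn.cases {ϖ : RR} (h : Pn ϖ) : Pm ϖ ∨ ∃ p A B, P3 ϖ p A B ∧ (A - B) % 4 = 1 := by
  rcases odd_cases h.pr h.od with (h1 | h1) | ⟨p, A, B, h1⟩
  · exact Or.inl h1
  · exfalso
    have h2 := r4_m4 h1.m4
    rw [map_neg, h.r4] at h2
    revert h2
    decide
  · right
    refine ⟨p, A, B, h1, ?_⟩
    have h2 := h.r4
    rw [r4_eq, h1.hX, h1.hY] at h2
    have h3 : (((A - B + 2 * (2 * B) - 1 : ℤ)) : ZMod 4) = 0 := by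
      rw [Int.cast_sub, h2, Int.cast_one, sub_self]
    rw [ZMod.intCast_zmod_eq_zero_iff_dvd] at h3
    omega

lemma pn_of_pm {ϖ : RR} (h : Pm ϖ) : Pn ϖ := by
  refine ⟨h.pr, fun h2 => ?_, r4_m4 h.m4⟩
  obtain ⟨u, hu⟩ := h.m4
  apply h.pr.not_isUnit
  have e : (1 : RR) = ϖ - 2 * (2 * u) := by linear_combination -hu
  exact isUnit_of_dvd_one (by rw [e]; exact dvd_sub dvd_rfl (h2.mul_right _))

lemma P3.p2 {ϖ : RR} {p : ℕ} {A B : ℤ} (h : P3 ϖ p A B) : p ≠ 2 := by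
  rintro rfl
  have := h.m4
  omega

lemma P3.odd {ϖ : RR} {p : ℕ} {A B : ℤ} (h : P3 ϖ p A B) : Odd p :=
  Nat.odd_iff.2 (by have := h.m4; omega)

lemma P3.eqn {ϖ : RR} {p : ℕ} {A B : ℤ} (h : P3 ϖ p A B) : (p : ℤ) = A ^ 2 + 7 * B ^ 2 := by
  rw [← h.nR]
  unfold Pool.Agent.Y698.nR
  rw [h.hX, h.hY]
  ring

/-- the symbol modulo a prime of degree one is multiplicative -/
lemma sy_mul_deg {p : ℕ} (hp : p.Prime) {ϖ : RR} (hN : nR ϖ = p) (x y : RR) :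
    sy ϖ (x * y) = sy ϖ x * sy ϖ y := by
  have _ : Fact p.Prime := ⟨hp⟩
  obtain ⟨φ, hφ⟩ := red hp hN
  have hsur : Function.Surjective φ := by
    intro t
    obtain ⟨s, hs⟩ := ZMod.intCast_surjective t
    exact ⟨(s : RR), by rw [map_intCast, hs]⟩
  rw [sy_eq φ hsur hφ, sy_eq φ hsur hφ, sy_eq φ hsur hφ, map_mul, map_mul]
  push_cast
  ring

/-- the symbols are multiplicative -/
theorem sy_mulO {ϖ : RR} (h : Prime ϖ) (h2 : ¬ ϖ ∣ 2) (x y : RR) :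
    sy ϖ (x * y) = sy ϖ x * sy ϖ y := by
  rcases odd_cases h h2 with (h1 | h1) | ⟨p, A, B, h1⟩
  · exact h1.pd.mul x y
  · have := h1.pd.mul x y
    rwa [sy_negm, sy_negm, sy_negm] at this
  · exact sy_mul_deg h1.pr h1.nR x y

lemma Pn.mul {ϖ : RR} (h : Pn ϖ) (x y : RR) : sy ϖ (x * y) = sy ϖ x * sy ϖ y :=
  sy_mulO h.pr h.od x y

lemma P3.neg {ϖ : RR} {p : ℕ} {A B : ℤ} (h : P3 ϖ p A B) : sy ϖ (-1) = -1 := by
  have h1 := sy_int h.pr h.nR (-1)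
  rw [Int.cast_neg, Int.cast_one] at h1
  rw [h1]
  unfold qch
  rw [jacobiSym.at_neg_one h.odd, ZMod.χ₄_nat_three_mod_four h.m4]
  norm_num

/-- the type -/
noncomputable def tp (ϖ : RR) : ZMod 2 := lg (sy ϖ (-1))

lemma tp_pm {ϖ : RR} (h : Pm ϖ) : tp ϖ = 0 := by
  unfold tp
  rw [h.pd.neg, lg_one]

lemma P3.tp {ϖ : RR} {p : ℕ} {A B : ℤ} (h : P3 ϖ p A B) : tp ϖ = 1 := by
  unfold QD.tp
  rw [h.neg, lg_neg_one]

lemma neg_one_notin {ϖ : RR} (h : Prime ϖ) : (-1 : RR) ∉ sp ϖ := by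
  rw [neg_mem_iff, Ideal.mem_span_singleton]
  exact fun h1 => h.not_isUnit (isUnit_of_dvd_one h1)

lemma sy_oneO {ϖ : RR} (h : Prime ϖ) : sy ϖ 1 = 1 := by
  unfold sy
  rw [if_neg, if_pos ⟨1, by rw [map_one, mul_one]⟩]
  rw [Ideal.mem_span_singleton]
  exact fun h1 => h.not_isUnit (isUnit_of_dvd_one h1)

/-- the sign rule -/
lemma sy_neg' {ϖ : RR} (h : Prime ϖ) (h2 : ¬ ϖ ∣ 2) (x : RR) :
    sy ϖ (-x) = sy ϖ (-1) * sy ϖ x := by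
  rw [← sy_mulO h h2, neg_one_mul]

lemma lg_neg' {ϖ : RR} (h : Prime ϖ) (h2 : ¬ ϖ ∣ 2) {x : RR} (hx : x ∉ sp ϖ) :
    lg (sy ϖ (-x)) = tp ϖ + lg (sy ϖ x) := by
  rw [sy_neg' h h2, lg_mul (sy_sgn (neg_one_notin h)) (sy_sgn hx)]
  rfl

end Pool.Agent.R426.QD
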