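import Pool.Agent.R426.QD.Ind
import Pool.Agent.R426.QC.Val

/-!
# The weighted sums over the points of odd order, families of both types
-/

set_option autoImplicit false
set_option linter.unusedSectionVars false

open Filter
open scoped Topology PeriodPair

namespace Pool.Agent.R426.QD

open Pool.Agent.R426.QC hiding bR
open Pool.Agent.Y698 Pool.Agent.Y698.SG
open H667R3 Pool.Agent.W192.HK Pool.Agent.TH936.CM Pool.Agent.TH936.PU

variable {L : PeriodPair} {Ω : ℂ} {Γ : Type*} [LinearOrderedCommGroupWithZero Γ]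
  {v : Valuation ℂ Γ}

lemma lv_ds {N : RR} {m : ℕ} (hN : Lv N m) (hL : IsLat L RR Ω) :
    Ds L Ω N (fun c => (c : ℂ)) (Wm L Ω m) :=
  ⟨fun _ _ h => Wm_per hL h, fun _ hc hcN _ _ hz => Wm_dist hN hL hc hcN hz⟩

/-- the exponent -/
lemma lv_exists {N : RR} (hN0 : N ≠ 0) (hc : IsCoprime bR N) : ∃ m, Lv N m := by
  have f1 := fin_quot hN0
  have hu : IsUnit (Ideal.Quotient.mk (sp N) bR) := by
    obtain ⟨s, t, hst⟩ := hc
    refine IsUnit.of_mul_eq_one (Ideal.Quotient.mk (sp N) s) ?_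
    rw [← map_mul, ← map_one (Ideal.Quotient.mk (sp N)), Ideal.Quotient.mk_eq_mk_iff_sub_mem,
      Ideal.mem_span_singleton']
    exact ⟨-t, by linear_combination -hst⟩
  obtain ⟨u, hu⟩ := hu
  refine ⟨orderOf u, hc, orderOf_pos u, ?_⟩
  rw [← Ideal.Quotient.mk_eq_mk_iff_sub_mem, map_pow, map_one, ← hu, ← Units.val_pow_eq_pow_val,
    pow_orderOf_eq_one, Units.val_one]

lemma Pn.cop_b {ϖ : RR} (h : Pn ϖ) : IsCoprime bR ϖ := by
  refine IsCoprime.symm ((h.pr.irreducible.coprime_iff_not_dvd).2 fun h1 => h.od ?_)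
  rw [← aR_mul_bR]
  exact h1.mul_left _

lemma Pn.v_eq (hv : v al < 1) {ϖ : RR} (h : Pn ϖ) : v (ϖ : ℂ) = 1 := by
  obtain ⟨u, hu⟩ := r4_zero (x := ϖ - 1) (by rw [map_sub, h.r4, map_one, sub_self])
  have hu' : (ϖ : ℂ) = 1 + al ^ 2 * (u : ℂ) := by
    have h1 := congrArg (fun r : RR => (r : ℂ)) hu
    push_cast at h1
    rw [aR_coe] at h1
    linear_combination h1
  rw [hu', Valuation.map_add_eq_of_lt_left v, map_one]
  rw [map_one]
  refine v_mul_lt' ?_ (v_RR hv u)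
  rw [map_pow]
  exact pow_lt_one₀ zero_le hv two_ne_zero

/-- representatives for coprime moduli -/
lemma bij_crt {f n : RR} (hf0 : f ≠ 0) (hn0 : n ≠ 0) (hc : IsCoprime f n)
    [Fintype (RR ⧸ sp f)] [Fintype (RR ⧸ sp n)] [Fintype (RR ⧸ sp (f * n))] :
    Function.Bijective (fun p : (RR ⧸ sp n) × (RR ⧸ sp f) =>
      Ideal.Quotient.mk (sp (f * n)) (n * p.2.out + f * p.1.out)) := by
  rw [Fintype.bijective_iff_injective_and_card]
  constructor
  · rintro ⟨x, y⟩ ⟨x', y'⟩ h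
    have h1 : (n * y.out + f * x.out) - (n * y'.out + f * x'.out) ∈ sp (f * n) := by
      rw [← Ideal.Quotient.mk_eq_mk_iff_sub_mem]
      exact h
    rw [Ideal.mem_span_singleton] at h1
    have h2 : y.out - y'.out ∈ sp f := by
      rw [Ideal.mem_span_singleton]
      refine hc.dvd_of_dvd_mul_left (z := y.out - y'.out) ?_
      have h3 : f ∣ (n * y.out + f * x.out) - (n * y'.out + f * x'.out) :=
        (Dvd.intro _ rfl).trans h1
      have h4 : f ∣ f * (x.out - x'.out) := Dvd.intro _ rfl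
      have h5 := dvd_sub h3 h4
      convert h5 using 1
      ring
    have h3 : x.out - x'.out ∈ sp n := by
      rw [Ideal.mem_span_singleton]
      refine hc.symm.dvd_of_dvd_mul_left (z := x.out - x'.out) ?_
      have h3 : n ∣ (n * y.out + f * x.out) - (n * y'.out + f * x'.out) :=
        (Dvd.intro_left _ rfl).trans h1
      have h4 : n ∣ n * (y.out - y'.out) := Dvd.intro _ rfl
      have h5 := dvd_sub h3 h4
      convert h5 using 1
      ring
    exact Prod.ext (mk_eq h3) (mk_eq h2)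
  · rw [Fintype.card_prod]
    have h1 := card_quot (c := f)
    have h2 := card_quot (c := n)
    have h3 := card_quot (c := f * n)
    rw [nR_mul] at h3
    have h4 : ((Fintype.card (RR ⧸ sp n) * Fintype.card (RR ⧸ sp f) : ℕ) : ℂ) =
        ((Fintype.card (RR ⧸ sp (f * n)) : ℕ) : ℂ) := by
      rw [h3]
      push_cast
      rw [h1, h2]
      ring
    exact_mod_cast h4

/-- the relation between the two weighted sums -/
theorem Bd_Bg {N : RR} {m : ℕ} (hN : Lv N m) (hL : IsLat L RR Ω) [Fintype (RR ⧸ sp fR)] {T : ℂ}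
    (hT : Tendsto (fun δ : ℝ => GG Ω δ 1) (𝓝[>] 0) (𝓝 T)) {n : RR} (hn0 : n ≠ 0)
    (hn : IsCoprime fR n) (hNn : N = -fR * n) {φ : RR → ℂ} (hφ : Pe n φ)
    (hm : ∀ x y, φ (x * y) = φ x * φ y) :
    Bd Ω (Wm L Ω m) (-fR * n) (fun x => sy (-fR) x * φ x) =
      -(e7 n * φ fR) * (2 * Bg L Ω T n φ) := by
  have hf0 : (-fR : RR) ≠ 0 := neg_ne_zero.2 fR_ne
  have hN0 : -fR * n ≠ 0 := mul_ne_zero hf0 hn0
  have g1 := fin_quot hn0
  have g2 := fin_quot hN0
  let _ : Fintype (RR ⧸ sp n) := Fintype.ofFinite _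
  let _ : Fintype (RR ⧸ sp (-fR * n)) := Fintype.ofFinite _
  have esp : sp (fR * n) = sp (-fR * n) := by
    rw [neg_mul]
    exact (Ideal.span_singleton_neg _).symm
  have hbij : Function.Bijective (fun p : (RR ⧸ sp n) × (RR ⧸ sp fR) =>
      Ideal.Quotient.mk (sp (-fR * n)) (n * p.2.out + fR * p.1.out)) := by
    have hN0' : fR * n ≠ 0 := mul_ne_zero fR_ne hn0
    have g3 := fin_quot hN0'
    let _ : Fintype (RR ⧸ sp (fR * n)) := Fintype.ofFinite _
    have h1 := bij_crt fR_ne hn0 hn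
    rw [← esp]
    exact h1
  have hWd := lv_ds hN hL
  have hper : Pe (-fR * n) (fun x => sy (-fR) x * φ x) :=
    ((sy_per (-fR)).mono (Dvd.intro _ rfl)).mul (hφ.mono (Dvd.intro_left _ rfl))
  rw [Bd_eq, sum_rep _ hbij (fun x : RR => sy (-fR) x * φ x * Wm L Ω m (Ω * x /
    ((-fR * n : RR) : ℂ))) (fun x y h => Bd_term hWd hL hN0 hper h), Fintype.sum_prod_type,
    Bg_eq, Finset.mul_sum, Finset.mul_sum]
  refine Finset.sum_congr rfl fun x _ => ?_
  have h2 := Wm_G hN hL hT hn0 hn (by rw [hNn, neg_mul, dvd_neg]) x.out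
  have hfc : (fR : ℂ) ≠ 0 := coe_ne fR_ne
  have hnc : (n : ℂ) ≠ 0 := coe_ne hn0
  have e1 : ∀ y : RR ⧸ sp fR, sy (-fR) (n * y.out + fR * x.out) *
      φ (n * y.out + fR * x.out) * Wm L Ω m (Ω * ((n * y.out + fR * x.out : RR) : ℂ) /
        ((-fR * n : RR) : ℂ)) =
      -(e7 n * φ fR) * φ x.out * (e7 y.out * Wm L Ω m (Ω * y.out / fR + Ω * x.out / n)) := by
    intro y
    have e2 : Ω * ((n * y.out + fR * x.out : RR) : ℂ) / ((-fR * n : RR) : ℂ) =
        -(Ω * y.out / fR + Ω * x.out / n) := by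
      push_cast
      field_simp
    have e3 : sy (-fR) (n * y.out + fR * x.out) = e7 n * e7 y.out := by
      rw [sy_negm, sy_fR, ← e7_mul]
      apply e7_per
      rw [add_sub_cancel_left]
      exact Ideal.mul_mem_right _ _ (Ideal.mem_span_singleton_self _)
    have e4 : φ (n * y.out + fR * x.out) = φ fR * φ x.out := by
      rw [← hm]
      apply hφ
      rw [add_sub_cancel_right]
      exact Ideal.mul_mem_right _ _ (Ideal.mem_span_singleton_self _)
    rw [e2, Wm_neg, e3, e4]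
    ring
  rw [Finset.sum_congr rfl fun y _ => e1 y, ← Finset.mul_sum, ← h2]
  ring

/-- the extended family -/
noncomputable def pe {ι : Type} (π : ι → RR) : Option ι → RR := fun o => o.elim (-fR) π

/-- prime to `√-7` -/
def C7 {ι : Type} (S : Finset ι) (π : ι → RR) : Prop := ∀ i ∈ S, π i ∉ sp fR ∧ fR ∉ sp (π i)

lemma mem_negs {x y : RR} : x ∈ sp (-y) ↔ x ∈ sp y := by
  rw [show sp (-y) = sp y from Ideal.span_singleton_neg y]

lemma fa_ext {ι : Type} {S : Finset ι} {π : ι → RR} (hS : Fa S π) (h7 : C7 S π) :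
    Fa S.insertNone (pe π) := by
  constructor
  · intro o ho
    rcases o with _ | i
    · exact pn_fR
    · exact hS.pn i (Finset.some_mem_insertNone.1 ho)
  · intro o ho o' ho' hoo
    rcases o with _ | i <;> rcases o' with _ | j
    · exact absurd rfl hoo
    · have hj := Finset.some_mem_insertNone.1 ho'
      show -fR ∉ sp (π j)
      rw [neg_mem_iff]
      exact (h7 j hj).2
    · have hi := Finset.some_mem_insertNone.1 ho
      show π i ∉ sp (-fR)
      rw [mem_negs]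
      exact (h7 i hi).1
    · exact hS.ne i (Finset.some_mem_insertNone.1 ho) j (Finset.some_mem_insertNone.1 ho')
        fun h => hoo (by rw [h])

lemma c7_cop {ι : Type} {S : Finset ι} {π : ι → RR} (h7 : C7 S π) :
    IsCoprime fR (∏ i ∈ S, π i) :=
  IsCoprime.prod_right fun i hi => (irr_fR.coprime_iff_not_dvd).2 fun h =>
    (h7 i hi).1 (Ideal.mem_span_singleton.2 h)

lemma c7_fR {ι : Type} {S : Finset ι} {π : ι → RR} (h7 : C7 S π) :
    (∏ i ∈ S, sy (π i) fR) = 1 ∨ (∏ i ∈ S, sy (π i) fR) = -1 :=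
  (sgn_prod fun i hi => sy_sgn (h7 i hi).2).1

/-- **the weighted sums** -/
theorem rdB {ι : Type} [DecidableEq ι] (hrec : S_REC) (h : LD L Ω) (hv : v al < 1)
    [Fintype (RR ⧸ sp fR)] {T : ℂ} (hT : Tendsto (fun δ : ℝ => GG Ω δ 1) (𝓝[>] 0) (𝓝 T))
    {S : Finset ι} {π : ι → RR} (hS : Fa S π) (h7 : C7 S π) (ht : ∑ i ∈ S, tp (π i) = 0) :
    Rd v (Bg L Ω T (∏ i ∈ S, π i) (fun m => ∏ i ∈ S, sy (π i) m) / 2 ^ S.card)
      (gd (mc π) (mr π) S) := by
  have hL := h.lat
  have t2 := v_two_lt hv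
  have hE := fa_ext hS h7
  have hprod : ∏ o ∈ S.insertNone, pe π o = -fR * ∏ i ∈ S, π i := by
    rw [Finset.prod_insertNone]
    rfl
  have hN0 : ∏ o ∈ S.insertNone, pe π o ≠ 0 := hE.prod_ne
  have hcb : IsCoprime bR (∏ o ∈ S.insertNone, pe π o) :=
    IsCoprime.prod_right fun o ho => (hE.pn o ho).cop_b
  obtain ⟨m, hN⟩ := lv_exists hN0 hcb
  have hvN : v ((∏ o ∈ S.insertNone, pe π o : RR) : ℂ) = 1 := by
    push_cast
    rw [map_prod]
    exact Finset.prod_eq_one fun o ho => (hE.pn o ho).v_eq hv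
  have hi := indW (v := v) hrec hL hv (lv_ds hN hL) (fun z => Wm_neg z)
    (fun z h1 h2 => Wm_one hN h hv hvN h1 h2) hE dvd_rfl S.insertNone (Finset.Subset.refl _)
    ⟨none, Finset.none_mem_insertNone⟩
  have hrel : ∀ i ∈ S, ∀ j ∈ S, i ≠ j → mr π i j + mr π j i = tp (π i) * tp (π j) := by
    intro i hi j hj hij
    have := rel_sy hS hi hj hij
    unfold mr
    rw [add_comm]
    exact this
  have hg := gd_insert (A := S) (t := fun i => tp (π i)) (c := mc π) (r := mr π)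
    (t' := fun o => tp (pe π o)) (r' := fun o o' => lg (sy (pe π o) (pe π o'))) ht hrel
    (by
      show tp (-fR) = 1
      exact (p3_fR.negp).tp)
    (fun i _ => rfl)
    (fun j _ => by
      show lg (sy (-fR) (π j)) = mc π j
      rw [sy_negm, sy_fR]
      rfl)
    (fun i hi => by
      show lg (sy (π i) (-fR)) = tp (π i) + mc π i
      have hp := hS.pn i hi
      rw [lg_neg' hp.pr hp.od (h7 i hi).2, hp.seven (h7 i hi).1 (h7 i hi).2]
      rfl)
    (fun i _ j _ _ => rfl)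
  rw [hg] at hi
  have e1 : (fun m => ∏ o ∈ S.insertNone, sy (pe π o) m) =
      fun m => sy (-fR) m * ∏ i ∈ S, sy (π i) m := by
    funext m
    rw [Finset.prod_insertNone]
    rfl
  have hmul : ∀ x y, ∏ i ∈ S, sy (π i) (x * y) = (∏ i ∈ S, sy (π i) x) * ∏ i ∈ S, sy (π i) y := by
    intro x y
    rw [← Finset.prod_mul_distrib]
    exact Finset.prod_congr rfl fun i hi => (hS.pn i hi).mul x y
  rw [e1, hprod, Bd_Bg (hprod ▸ hN) hL hT hS.prod_ne (c7_cop h7) rfl
    (Pe.prod fun p _ => sy_per (π p)) hmul, Finset.card_insertNone, pow_succ] at hi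
  set κ : ℂ := -(e7 (∏ i ∈ S, π i) * ∏ i ∈ S, sy (π i) fR) with hκ
  have hκ1 : κ = 1 ∨ κ = -1 := by
    have h1 : e7 (∏ i ∈ S, π i) = 1 ∨ e7 (∏ i ∈ S, π i) = -1 := by
      have h2 : ∏ i ∈ S, π i ∉ sp fR := not_mem_of_cop (c7_cop h7)
      rw [← sy_fR]
      exact sy_sgn h2
    rcases sgn_mul h1 (c7_fR h7) with h2 | h2 <;> rw [hκ, h2]
    · exact Or.inr rfl
    · left
      norm_num
  set B := Bg L Ω T (∏ i ∈ S, π i) (fun m => ∏ i ∈ S, sy (π i) m) with hB
  have e2 : κ * (2 * B) / (2 ^ S.card * 2) = κ * (B / 2 ^ S.card) := by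
    field_simp
  rw [e2] at hi
  rcases hκ1 with h1 | h1
  · rw [h1, one_mul] at hi
    exact hi
  · rw [h1, neg_one_mul] at hi
    have := Rd.neg t2 hi
    rwa [neg_neg] at this

/-- the valuation of the weighted sums -/
theorem vB {ι : Type} [DecidableEq ι] (hrec : S_REC) (h : LD L Ω) (hv : v al < 1)
    [Fintype (RR ⧸ sp fR)] {T : ℂ} (hT : Tendsto (fun δ : ℝ => GG Ω δ 1) (𝓝[>] 0) (𝓝 T))
    {S : Finset ι} {π : ι → RR} (hS : Fa S π) (h7 : C7 S π) (ht : ∑ i ∈ S, tp (π i) = 0) :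
    (gd (mc π) (mr π) S ≠ 0 →
      v (Bg L Ω T (∏ i ∈ S, π i) (fun m => ∏ i ∈ S, sy (π i) m)) = v 2 ^ S.card) ∧
    (gd (mc π) (mr π) S = 0 →
      v (Bg L Ω T (∏ i ∈ S, π i) (fun m => ∏ i ∈ S, sy (π i) m)) < v 2 ^ S.card) := by
  have h1 := rdB (v := v) hrec h hv hT hS h7 ht
  set B := Bg L Ω T (∏ i ∈ S, π i) (fun m => ∏ i ∈ S, sy (π i) m) with hB
  have h20 : (2 : ℂ) ^ S.card ≠ 0 := pow_ne_zero _ two_ne_zero
  have hv2 : (0 : Γ) < v 2 ^ S.card := by
    rw [← map_pow]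
    exact zero_lt_iff.2 ((Valuation.ne_zero_iff v).2 h20)
  have e : B = B / 2 ^ S.card * 2 ^ S.card := by field_simp
  constructor
  · intro hg
    rcases zm2 (gd (mc π) (mr π) S) with h2 | h2
    · exact absurd h2 hg
    rw [h2, Rd.one_iff] at h1
    have h3 : v (B / 2 ^ S.card) = 1 := by
      have e3 : B / 2 ^ S.card = 1 + (B / 2 ^ S.card - 1) := by ring
      rw [e3, Valuation.map_add_eq_of_lt_left v (by rw [map_one]; exact h1), map_one]
    rw [e, map_mul, h3, one_mul, map_pow]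
  · intro hg
    rw [hg, Rd.zero_iff] at h1
    rw [e, map_mul, map_pow]
    calc v (B / 2 ^ S.card) * v 2 ^ S.card < 1 * v 2 ^ S.card := mul_lt_mul_of_pos_right h1 hv2
      _ = _ := one_mul _

end Pool.Agent.R426.QD
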