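import Pool.Agent.R426.QD.Pn
import Pool.Agent.R426.QC.Sel

/-!
# Quadratic reciprocity for the prime elements of both types
-/

set_option autoImplicit false
set_option linter.unusedSectionVars false

namespace Pool.Agent.R426.QD

open Pool.Agent.R426.QC
open Pool.Agent.Y698 Pool.Agent.Y698.SG
open H667R3 Pool.Agent.W192.HK Pool.Agent.TH936.CM Pool.Agent.TH936.PU
open Pool.Agent.Y279.SG (sy_eq red cXY_cj nR_dvd qch_eq dvd_coord)
open Pool.Agent.Y919.SG (jac_abs gcd_natAbs sq8)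

/-- reciprocity for two primes of the second type -/
theorem rec_tt {ϖ ϖ' : RR} {p p' : ℕ} {A B C D : ℤ} (h : P3 ϖ p A B) (h' : P3 ϖ' p' C D)
    (hn : (A - B) % 4 = 1) (hn' : (C - D) % 4 = 1)
    (hne : ϖ' ∉ sp ϖ) (hne' : ϖ ∉ sp ϖ') : sy ϖ ϖ' = -sy ϖ' ϖ := by
  obtain ⟨-, s1⟩ := spl_sy h.pr h.nR ϖ'
  obtain ⟨-, s2⟩ := spl_sy h'.pr h'.nR ϖ
  obtain ⟨n, hn0⟩ : ∃ n : ℤ, n = B * C - A * D := ⟨_, rfl⟩
  have e1 : cY ϖ * (cY ϖ * cX ϖ' - cX ϖ * cY ϖ') = 2 ^ 2 * (B * n) := by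
    rw [h.hX, h.hY, h'.hX, h'.hY, hn0]; ring
  have e2 : cY ϖ' * (cY ϖ' * cX ϖ - cX ϖ' * cY ϖ) = -1 * (2 ^ 2 * (D * n)) := by
    rw [h.hX, h.hY, h'.hX, h'.hY, hn0]; ring
  have hpe := h.eqn
  have hpe' := h'.eqn
  have hpp : ((p * p' : ℕ) : ℤ) = (A * C + 7 * (B * D)) ^ 2 + 7 * n ^ 2 := by
    push_cast
    rw [hpe, hpe', hn0]; ring
  have hpn : ¬ (p : ℤ) ∣ n := by
    intro h1
    apply hne
    rw [← sy_zero_iff, s1, e1]
    exact qch_zero_of h.pr ((h1.mul_left B).mul_left _)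
  have hpn' : ¬ (p' : ℤ) ∣ n := by
    intro h1
    apply hne'
    rw [← sy_zero_iff, s2, e2]
    exact qch_zero_of h'.pr (((h1.mul_left D).mul_left _).mul_left _)
  have hnz : n ≠ 0 := fun h0 => hpn (h0 ▸ dvd_zero _)
  have c1 := cop_of_norm h.pr hpe
  have c2 := cop_of_norm h'.pr hpe'
  have c3 : IsCoprime (A * C + 7 * (B * D)) n := by
    rw [Int.isCoprime_iff_gcd_eq_one]
    by_contra hg
    obtain ⟨r, hr, hr1⟩ := Nat.exists_prime_and_dvd hg
    have h1 : (r : ℤ) ∣ A * C + 7 * (B * D) :=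
      (Int.natCast_dvd_natCast.2 hr1).trans (Int.gcd_dvd_left ..)
    have h2 : (r : ℤ) ∣ n := (Int.natCast_dvd_natCast.2 hr1).trans (Int.gcd_dvd_right ..)
    have h3 : (r : ℤ) ∣ ((p * p' : ℕ) : ℤ) := by
      rw [hpp]
      exact dvd_add (dvd_pow h1 two_ne_zero) ((dvd_pow h2 two_ne_zero).mul_left _)
    have h4 : r ∣ p * p' := by exact_mod_cast h3
    rcases (hr.dvd_mul).1 h4 with h5 | h5
    · rw [(Nat.prime_dvd_prime_iff_eq hr h.pr).1 h5] at h2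
      exact hpn h2
    · rw [(Nat.prime_dvd_prime_iff_eq hr h'.pr).1 h5] at h2
      exact hpn' h2
  have j1 := jac_odd h.hB c1 hpe h.m4
  have j2 := jac_odd h'.hB c2 hpe' h'.m4
  obtain ⟨a, ha⟩ : ∃ a, A = 2 * a := ⟨A / 2, by have := h.hA; omega⟩
  obtain ⟨c, hc⟩ : ∃ c, C = 2 * c := ⟨C / 2, by have := h'.hA; omega⟩
  have hB1 := h.hB
  have hD1 := h'.hB
  have hnn : n = 2 * (B * c - a * D) := by rw [hn0, ha, hc]; ring
  have hpar : (B * c - a * D) % 2 = (c + a) % 2 := by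
    have h1 : (B * c) % 2 = c % 2 := by rw [Int.mul_emod, hB1, one_mul, Int.emod_emod]
    have h2 : (a * D) % 2 = a % 2 := by rw [Int.mul_emod, hD1, mul_one, Int.emod_emod]
    omega
  have hodd : (A * C + 7 * (B * D)) % 2 = 1 := by
    have h1 : (B * D) % 2 = 1 := by rw [Int.mul_emod, hB1, hD1]; rfl
    have h2 : A * C = 2 * (a * C) := by rw [ha]; ring
    omega
  have j3 := jac_even hodd (by omega) hnz c3 hpp
  have : NeZero p := ⟨h.pr.ne_zero⟩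
  have : NeZero p' := ⟨h'.pr.ne_zero⟩
  rw [jacobiSym.mul_right] at j3
  have two : ∀ l : ℕ, l.Prime → l ≠ 2 → ((2 : ℤ)).gcd l = 1 := by
    intro l hl h2
    rw [← Int.isCoprime_iff_gcd_eq_one]
    have : Nat.Coprime 2 l := (Nat.coprime_primes Nat.prime_two hl).2 (Ne.symm h2)
    exact_mod_cast Nat.isCoprime_iff_coprime.2 this
  have hneg : jacobiSym (-1) p' = -1 := by
    rw [jacobiSym.at_neg_one h'.odd, ZMod.χ₄_nat_three_mod_four h'.m4]
  rw [s1, s2, e1, e2]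
  unfold qch
  rw [← Int.cast_neg]
  congr 1
  rw [jacobiSym.mul_left, jacobiSym.mul_left, jacobiSym.mul_left, jacobiSym.mul_left,
    jacobiSym.mul_left, hneg, jacobiSym.sq_one' (two p h.pr h.p2),
    jacobiSym.sq_one' (two p' h'.pr h'.p2), j1, j2]
  have hJ0 : jacobiSym n p ≠ 0 := by
    intro h
    rw [h, zero_mul] at j3
    split_ifs at j3 <;> norm_num at j3
  have hJ0' : jacobiSym n p' ≠ 0 := by
    intro h
    rw [h, mul_zero] at j3
    split_ifs at j3 <;> norm_num at j3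
  have b3 : n % 4 = 0 ↔ (c + a) % 2 = 0 := by omega
  have b1 : B % 4 = 1 ↔ a % 2 = 1 := by omega
  have b2 : D % 4 = 1 ↔ c % 2 = 1 := by omega
  unfold sg4
  simp only [b1, b2, b3] at j3 ⊢
  rcases jac_ne hJ0 with k1 | k1 <;> rcases jac_ne hJ0' with k2 | k2 <;> rw [k1, k2] at j3 ⊢ <;>
    split_ifs at j3 ⊢ <;> first | (norm_num; done) | (exfalso; omega) | (norm_num at j3; done)

/-- the sign at `ᾱ` -/
noncomputable def et (ϖ : RR) : ZMod 2 := if r4 (cj ϖ) = 1 then 0 else 1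

lemma et_m4 {ϖ : RR} (h : ∃ u : RR, ϖ = 1 + 4 * u) : et ϖ = 0 := by
  obtain ⟨u, rfl⟩ := h
  unfold et
  rw [if_pos]
  exact r4_m4 ⟨cj u, by rw [map_add, map_mul, map_one, map_ofNat]⟩

lemma et_m4' {ϖ : RR} (h : ∃ u : RR, -ϖ = 1 + 4 * u) : et ϖ = 1 := by
  obtain ⟨u, hu⟩ := h
  unfold et
  rw [if_neg]
  have e1 : cj ϖ = -(1 + 4 * cj u) := by
    have h2 : ϖ = -(1 + 4 * u) := by rw [← hu, neg_neg]
    rw [h2, map_neg, map_add, map_mul, map_one, map_ofNat]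
  rw [e1, map_neg, r4_m4 ⟨cj u, rfl⟩]
  decide

lemma r4_cj3 {ϖ : RR} {p : ℕ} {A B : ℤ} (h : P3 ϖ p A B) :
    r4 (cj ϖ) = ((A + B - 4 * B : ℤ) : ZMod 4) := by
  rw [r4_eq, (cXY_cj ϖ).1, (cXY_cj ϖ).2, h.hX, h.hY]
  congr 1
  ring

lemma et_p3 {ϖ : RR} {p : ℕ} {A B : ℤ} (h : P3 ϖ p A B) :
    et ϖ = if (A - B) % 4 = 1 then 1 else 0 := by
  have hA := h.hA
  have hB := h.hB
  have key : r4 (cj ϖ) = 1 ↔ (A - B) % 4 = 3 := by
    rw [r4_cj3 h]
    constructor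
    · intro h1
      have h2 : ((A + B - 4 * B - 1 : ℤ) : ZMod 4) = 0 := by
        rw [Int.cast_sub, h1, Int.cast_one, sub_self]
      rw [ZMod.intCast_zmod_eq_zero_iff_dvd] at h2
      omega
    · intro h1
      have h2 : ((A + B - 4 * B - 1 : ℤ) : ZMod 4) = 0 := by
        rw [ZMod.intCast_zmod_eq_zero_iff_dvd]
        omega
      rw [Int.cast_sub, Int.cast_one, sub_eq_zero] at h2
      exact h2
  unfold et
  simp only [key]
  split_ifs <;> first | rfl | (exfalso; omega)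

lemma P3.negp {ϖ : RR} {p : ℕ} {A B : ℤ} (h : P3 ϖ p A B) : P3 (-ϖ) p (-A) (-B) := by
  refine ⟨h.pr, h.m4, ?_, by have := h.hA; omega, by have := h.hB; omega, ?_, ?_⟩
  · rw [Pool.Agent.Y698.nR_neg]; exact h.nR
  · rw [(cXY_neg ϖ).1, h.hX]; ring
  · rw [(cXY_neg ϖ).2, h.hY]; ring

lemma two_el : (1 : ZMod 2) + 1 = 0 := by decide

/-- **the reciprocity law** -/
theorem recG {π ϖ : RR} (h : Pn π) (hϖ : Prime ϖ) (h2 : ¬ ϖ ∣ 2) (hne : π ∉ sp ϖ)
    (hne' : ϖ ∉ sp π) : lg (sy π ϖ) = lg (sy ϖ π) + tp π * et ϖ := by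
  rcases h.cases with h1 | ⟨p, A, B, h1, hn⟩
  · rw [recip h1 hϖ h2 hne hne', tp_pm h1, zero_mul, add_zero]
  rw [h1.tp, one_mul]
  have ht2 : ∀ x : ZMod 2, x + x = 0 := by decide
  rcases odd_cases hϖ h2 with (k | k) | ⟨p', C, D, k⟩
  · rw [et_m4 k.m4, add_zero, recip k h.pr h.od hne' hne]
  · have hsp : sp (-ϖ) = sp ϖ := Ideal.span_singleton_neg ϖ
    have h3 := recip k h.pr h.od (fun h4 => hne' (by
      have := neg_mem h4
      rwa [neg_neg] at this)) (by rw [hsp]; exact hne)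
    rw [sy_negm] at h3
    rw [et_m4' k.m4, h3, lg_neg' h.pr h.od hne', h1.tp]
    linear_combination -ht2 (1 : ZMod 2)
  · rw [et_p3 k]
    split_ifs with h4
    · have h5 := rec_tt h1 k hn h4 hne' hne
      have h6 : sy π ϖ = (-1) * sy ϖ π := by rw [h5]; ring
      rw [h6, lg_mul (Or.inr rfl) (sy_sgn hne), lg_neg_one]
      ring
    · have hC := k.hA
      have hD := k.hB
      have hsp : sp (-ϖ) = sp ϖ := Ideal.span_singleton_neg ϖ
      have h5 := rec_tt h1 k.negp hn (by omega) (fun h4 => hne' (by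
        have := neg_mem h4
        rwa [neg_neg] at this)) (by rw [hsp]; exact hne)
      rw [sy_negm, sy_neg' h.pr h.od, h1.neg] at h5
      have h6 : sy π ϖ = sy ϖ π := by linear_combination -h5
      rw [h6, add_zero]

lemma r7_surj : Function.Surjective r7 := by
  intro t
  obtain ⟨s, hs⟩ := ZMod.intCast_surjective t
  exact ⟨(s : RR), by rw [map_intCast, hs]⟩

/-- the symbol modulo `√-7` -/
lemma sy_fR (x : RR) : sy fR x = e7 x := by
  have _ : Fact (Nat.Prime 7) := ⟨by norm_num⟩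
  rw [sy_eq r7 r7_surj (fun x => r7_eq_zero)]
  unfold e7
  congr!

lemma p3_fR : P3 fR 7 0 1 :=
  ⟨by norm_num, by norm_num, nR_fR, by norm_num, by norm_num, by rw [cXY_fR.1]; norm_num,
    by rw [cXY_fR.2]; norm_num⟩

lemma two_fR : ¬ fR ∣ 2 := by
  intro h
  have h1 := nR_dvd (y := fR) (x := 2) (Ideal.mem_span_singleton.2 h)
  rw [nR_fR] at h1
  have h2 : nR (2 : RR) = 4 := by
    have : (2 : RR) = ((2 : ℕ) : RR) := by push_cast; rfl
    rw [this, nR_nat]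
    norm_num
  rw [h2] at h1
  norm_num at h1

/-- `-√-7` -/
lemma pn_fR : Pn (-fR) := by
  refine ⟨QC.prime_fR.neg, fun h => two_fR ((neg_dvd).1 h), ?_⟩
  rw [map_neg]
  unfold fR
  rw [map_sub, map_mul, map_one, map_ofNat, r4_a]
  decide

/-- the supplementary law for `√-7` -/
theorem Pn.seven {ϖ : RR} (h : Pn ϖ) (h7 : ϖ ∉ sp fR) (h7' : fR ∉ sp ϖ) :
    lg (sy ϖ fR) = lg (e7 ϖ) := by
  have h1 := recG h QC.prime_fR two_fR h7 h7'
  rw [et_p3 p3_fR, if_neg (by norm_num), mul_zero, add_zero, sy_fR] at h1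
  exact h1

end Pool.Agent.R426.QD
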