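import Pool.Agent.R426.QD.Cf
import Pool.Agent.R426.QC.Shr

/-!
# The Selmer groups, families of both types
-/

set_option autoImplicit false
set_option linter.unusedSectionVars false

attribute [-instance] DivisionRing.toRatAlgebra

open NumberField IsDedekindDomain

namespace Pool.Agent.R426.QD

open Pool.Agent.R426.QC hiding bR trace_D prime_fR
open Pool.Agent.Y698 Pool.Agent.Y698.SG
open H667R3 Pool.Agent.W192.HK Pool.Agent.TH936.CM Pool.Agent.TH936.PU
open WithZero
open Pool.Agent.Y682 (S1 S2 IsT Zc Zc_card Zc_lower LL1 LL2 quot_eq)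

/-- families of prime elements congruent to one modulo `ᾱ²` -/
structure Bf {ι : Type} (S : Finset ι) (π : ι → RR) : Prop where
  pr : ∀ i ∈ S, Prime (π i)
  od : ∀ i ∈ S, ¬ π i ∣ 2
  n7 : ∀ i ∈ S, fR ∉ sp (π i)
  ne : ∀ i ∈ S, ∀ j ∈ S, i ≠ j → π i ∉ sp (π j)
  rb : ∀ i ∈ S, r4 (cj (π i)) = 1
  m4 : ∃ J : RR, ∏ i ∈ S, π i = 1 + 4 * J

lemma sy_prodO {ϖ : RR} (h : Prime ϖ) (h2 : ¬ ϖ ∣ 2) {ι : Type} (U : Finset ι) (π : ι → RR) :
    sy ϖ (∏ j ∈ U, π j) = ∏ j ∈ U, sy ϖ (π j) := by
  classical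
  induction U using Finset.induction_on with
  | empty => rw [Finset.prod_empty, Finset.prod_empty, sy_oneO h]
  | insert i U hi ih => rw [Finset.prod_insert hi, Finset.prod_insert hi, sy_mulO h h2, ih]

section

variable {ι : Type} {I : Finset ι} {π : ι → RR}

lemma Bf.cop7 (hf : Bf I π) : ∀ i ∈ I, IsCoprime fR (π i) := fun i hi =>
  (((hf.pr i hi).irreducible.coprime_iff_not_dvd).2 fun h =>
    hf.n7 i hi (Ideal.mem_span_singleton.2 h)).symm

lemma Bf.seven (hf : Bf I π) : ∀ i ∈ I, ¬ π i ∣ 7 := fun i hi h =>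
  hf.n7 i hi (Ideal.mem_span_singleton.2 (dvd_fR (hf.pr i hi) h))

lemma Bf.notin (hf : Bf I π) {U : Finset ι} (hU : U ⊆ I) {i : ι}
    (hi : i ∈ I) (hiU : i ∉ U) (e : Bool) : fb e * ∏ j ∈ U, π j ∉ sp (π i) := by
  have hp := hf.pr i hi
  intro h
  rw [Ideal.mem_span_singleton] at h
  rcases hp.dvd_or_dvd h with h1 | h1
  · cases e
    · exact hp.not_isUnit (isUnit_of_dvd_one h1)
    · exact hf.n7 i hi (Ideal.mem_span_singleton.2 h1)
  · obtain ⟨j, hj, h2⟩ := (hp.dvd_finsetProd_iff _).1 h1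
    exact hf.ne j (hU hj) i hi (fun h3 => hiU (h3 ▸ hj)) (Ideal.mem_span_singleton.2 h2)

lemma Bf.lg_prod (hf : Bf I π) {U : Finset ι} (hU : U ⊆ I) {i : ι}
    (hi : i ∈ I) (hiU : i ∉ U) : lg (sy (π i) (∏ j ∈ U, π j)) = ∑ j ∈ U, dr π i j := by
  rw [sy_prodO (hf.pr i hi) (hf.od i hi)]
  exact (sgn_prod (s := U) (f := fun j => sy (π i) (π j)) fun j hj =>
    sy_sgn (hf.ne j (hU hj) i hi (fun h3 => hiU (h3 ▸ hj)))).2

lemma Bf.lg_sy (hf : Bf I π) {U : Finset ι} (hU : U ⊆ I) {i : ι}
    (hi : i ∈ I) (hiU : i ∉ U) (e : Bool) (h : sy (π i) (fb e * ∏ j ∈ U, π j) = 1) :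
    (if e then dc π i else 0) + ∑ j ∈ U, dr π i j = 0 := by
  have hp := hf.pr i hi
  have h0 : ∏ j ∈ U, π j ∉ sp (π i) := by
    have := hf.notin hU hi hiU false
    rwa [show fb false = 1 from rfl, one_mul] at this
  rw [← hf.lg_prod hU hi hiU]
  cases e
  · rw [show fb false = 1 from rfl, one_mul] at h
    rw [if_neg (by simp), zero_add, h, lg_one]
  · rw [show fb true = fR from rfl, sy_mulO hp (hf.od i hi)] at h
    rw [if_pos rfl]
    show lg (sy (π i) fR) + _ = 0
    rw [← lg_mul (sy_sgn (hf.n7 i hi)) (sy_sgn h0), h, lg_one]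

/-- the product of elements congruent to one modulo `ᾱ²` -/
lemma prod_b (T : Finset ι) (h : ∀ i ∈ T, r4 (cj (π i)) = 1) :
    ∃ y : RR, ∏ i ∈ T, π i = 1 + (cj aR) ^ 2 * y := by
  have h1 : r4 (cj (∏ i ∈ T, π i) - 1) = 0 := by
    rw [map_sub, map_prod, map_prod, Finset.prod_eq_one h, map_one, sub_self]
  obtain ⟨y, hy⟩ := r4_zero h1
  refine ⟨cj y, ?_⟩
  have h2 := congrArg cj hy
  rw [map_sub, map_mul, map_pow, map_one, cj_cj] at h2
  linear_combination h2

/-- the family for the first isogeny -/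
lemma Ev.bnb (hS : Ev I π) : Bf I (fun i => nb (π i)) where
  pr := fun i hi => nb_pr (hS.fa.pn i hi).pr
  od := fun i hi h => (hS.fa.pn i hi).od (nb_dvd.1 h)
  n7 := fun i hi h => (hS.c7 i hi).2 (by rwa [sp_nb] at h)
  ne := fun i hi j hj hij h => hS.fa.ne i hi j hj hij (by rwa [sp_nb, nb_mem] at h)
  rb := fun i hi => nb_r4 (hS.fa.pn i hi)
  m4 := by
    rw [prod_nb' hS]
    exact hS.m4

lemma cj_fR : cj fR = -fR := by
  unfold fR
  rw [map_sub, map_mul, map_ofNat, map_one, QC.cj_aR]
  ring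

/-- the family for the second isogeny -/
lemma Ev.bcj (hS : Ev I π) : Bf I (fun i => cj (π i)) where
  pr := fun i hi => pr_cj (hS.fa.pn i hi).pr
  od := fun i hi => od_cj (hS.fa.pn i hi).od
  n7 := fun i hi h => by
    apply (hS.c7 i hi).2
    have h2 : fR = cj (-fR) := by rw [map_neg, cj_fR, neg_neg]
    rw [h2, mem_cj, neg_mem_iff] at h
    exact h
  ne := fun i hi j hj hij h => hS.fa.ne i hi j hj hij (mem_cj.1 h)
  rb := fun i hi => by rw [cj_cj]; exact (hS.fa.pn i hi).r4
  m4 := by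
    obtain ⟨J, hJ⟩ := hS.m4
    refine ⟨cj J, ?_⟩
    have h1 : ∏ i ∈ I, cj (π i) = cj (∏ i ∈ I, π i) := (map_prod cj _ _).symm
    rw [h1, hJ, map_add, map_mul, map_one, map_ofNat]

end

section

variable {K : Type} [Field K] [NumberField K] (e : RR ≃+* 𝓞 K)

/-- **the Selmer group** -/
theorem selB {ι : Type} [DecidableEq ι] {I : Finset ι} {π : ι → RR} (hf : Bf I π)
    (hg : gd (dc π) (dr π) I ≠ 0) {q : K} (hq : q ≠ 0)
    (h : ∀ v : HeightOneSpectrum (𝓞 K), v.valuation K 7 = 1 →
      LCE (v.valuation K) (em e aR) (em e (∏ i ∈ I, π i)) q) :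
    ∃ c : K, q = c ^ 2 ∨ q = em e (fR * ∏ i ∈ I, π i) * c ^ 2 := by
  classical
  have hb := ema_sq e
  obtain ⟨d, w, hd, hw, hqd⟩ := exists_sqf e hq
  have hloc : ∀ {z : RR} (hz : Prime z), ¬ z ∣ 7 →
      LCE ((plc e hz).valuation K) (em e aR) (em e (∏ i ∈ I, π i)) (em e d) := by
    intro z hz h7
    have h7' : (plc e hz).valuation K 7 = 1 := by
      have := val_one' e hz h7
      rwa [map_ofNat] at this
    refine (h _ h7').sqE hb ⟨w⁻¹, inv_ne_zero hw, ?_⟩
    rw [hqd]
    field_simp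
  have hcop : ∀ a ∈ I, ∀ b ∈ I, a ≠ b → IsCoprime (π a) (π b) := fun a ha b hb hab =>
    ((hf.pr a ha).irreducible.coprime_iff_not_dvd).2 fun h1 =>
      hf.ne b hb a ha (Ne.symm hab) (Ideal.mem_span_singleton.2 h1)
  have hsqP : Squarefree (∏ i ∈ I, π i) := by
    refine Finset.squarefree_prod_of_pairwise_isCoprime (fun a ha b hb hab =>
      (hcop a ha b hb hab).isRelPrime) fun x hx => (hf.pr x hx).squarefree
  have hodd : ∀ {z : RR} (hz : Prime z) (x : K), (plc e hz).valuation K x = exp (-1) →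
      ¬ Pool.Agent.Y698.Ev ((plc e hz).valuation K) x := by
    rintro z hz x hx ⟨y, hy, h⟩
    refine ev_odd_val hy h (k := -1) ?_
    rw [hx]
    congr 1
  -- the primes of `d`
  have hprime : ∀ ρ : RR, Prime ρ → ρ ∣ d → ¬ ρ ∣ 7 → ρ ∣ ∏ i ∈ I, π i := by
    intro ρ hρ hρd h7
    by_contra hρP
    exact hodd hρ _ (val_sqf e hρ hd hρd) ((hloc hρ h7).1 (val_one' e hρ hρP)).1
  set T := I.filter (fun i => π i ∣ d) with hT
  have hTI : T ⊆ I := Finset.filter_subset _ _
  have hTd : (∏ i ∈ T, π i) ∣ d := by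
    refine Finset.prod_dvd_of_coprime ?_ ?_
    · intro i hi j hj hij
      exact hcop i (hTI hi) j (hTI hj) hij
    · intro i hi
      exact (Finset.mem_filter.1 hi).2
  set ε : Bool := decide (fR ∣ d) with hε
  have hεd : fb ε * ∏ i ∈ T, π i ∣ d := by
    by_cases h1 : fR ∣ d
    · have e1 : ε = true := by rw [hε]; exact decide_eq_true h1
      rw [e1]
      show fR * ∏ i ∈ T, π i ∣ d
      refine IsCoprime.mul_dvd ?_ h1 hTd
      exact IsCoprime.prod_right fun i hi => hf.cop7 i (hTI hi)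
    · have e1 : ε = false := by rw [hε]; exact decide_eq_false h1
      rw [e1]
      show 1 * ∏ i ∈ T, π i ∣ d
      rw [one_mul]
      exact hTd
  obtain ⟨u, hu⟩ := hεd
  have huu : IsUnit u := by
    by_contra hnu
    have hu0 : u ≠ 0 := by
      rintro rfl
      exact hd.ne_zero (by rw [hu, mul_zero])
    obtain ⟨ρ, hρ, hρu⟩ := WfDvdMonoid.exists_irreducible_factor hnu hu0
    have hρ' : Prime ρ := hρ.prime
    have h1 : ρ ∣ d := by rw [hu]; exact hρu.mul_left _
    have hass : ∀ l : RR, Prime l → ρ ∣ l → l ∣ ρ := fun l hl h2 =>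
      ((hρ.associated_of_dvd hl.irreducible h2).symm).dvd
    by_cases h7 : ρ ∣ 7
    · have h2 := hass fR prime_fR (dvd_fR hρ' h7)
      have h3 : fR ∣ d := h2.trans h1
      have e1 : ε = true := by rw [hε]; exact decide_eq_true h3
      rw [e1] at hu
      have h4 : fR * fR ∣ d := by
        rw [hu]
        exact mul_dvd_mul (Dvd.intro _ rfl) (h2.trans hρu)
      exact prime_fR.not_isUnit (hd _ h4)
    · obtain ⟨l, hl, hρl⟩ := (hρ'.dvd_finsetProd_iff _).1 (hprime ρ hρ' h1 h7)
      have h2 := hass _ (hf.pr l hl) hρl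
      have h4 : l ∈ T := Finset.mem_filter.2 ⟨hl, h2.trans h1⟩
      have h5 : π l * π l ∣ d := by
        rw [hu]
        exact mul_dvd_mul ((Finset.dvd_prod_of_mem π h4).mul_left _) (h2.trans hρu)
      exact (hf.pr l hl).not_isUnit (hd _ h5)
  -- the sign
  have hu1 : u = 1 := by
    rcases isUnit_iff.1 huu with h1 | h1
    · exact h1
    exfalso
    have hz := prime_cja
    have h2e : (2 : RR) = cj aR * aR := by rw [two_eq, mul_comm]
    have hnd : ¬ cj aR ∣ aR := by
      intro h2
      apply hz.not_isUnit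
      have e1 : (1 : RR) = cj aR + aR := by rw [QC.cj_aR]; ring
      exact isUnit_of_dvd_one (by rw [e1]; exact dvd_add dvd_rfl h2)
    have h2d : cj aR ∣ 2 := ⟨aR, h2e⟩
    have h7 : ¬ cj aR ∣ 7 := by
      intro h3
      apply hz.not_isUnit
      have e1 : (1 : RR) = 7 - 2 * 3 := by norm_num
      exact isUnit_of_dvd_one (by rw [e1]; exact dvd_sub h3 (h2d.mul_right _))
    set W := (plc e hz).valuation K with hW
    have w7 : W 7 = 1 := by
      have := val_one' e hz h7
      rwa [map_ofNat] at this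
    have w2 : W 2 = exp (-1) := by
      have := val_mul1 e hz h2e hnd
      rwa [map_ofNat] at this
    have w2' : W 2 < 1 := by rw [w2, ← exp_zero, exp_lt_exp]; norm_num
    have hur : ∀ x : RR, (∃ y : RR, x = 1 + 4 * y) → Ur W (em e x) := by
      rintro x ⟨y, rfl⟩
      refine ⟨1, one_ne_zero, ?_⟩
      have e1 : em e (1 + 4 * y) - 1 ^ 2 = 4 * em e y := by
        rw [map_add, map_mul, map_one, map_ofNat]
        ring
      rw [e1, map_mul, map_one, one_pow, mul_one]
      exact mul_le_of_le_one_right' (val_le e hz y)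
    have h1b : W (1 - em e aR) < 1 := by
      have e1 : 1 - em e aR = em e (cj aR) := by rw [QC.cj_aR, map_sub, map_one]
      rw [e1]
      exact (val_lt e hz _).2 dvd_rfl
    obtain ⟨J, hJ⟩ := hf.m4
    have hP1 : W (em e (∏ i ∈ I, π i)) = 1 := by
      refine val_one' e hz ?_
      rw [hJ]
      intro h3
      apply hz.not_isUnit
      have e1 : (1 : RR) = (1 + 4 * J) - 2 * (2 * J) := by ring
      exact isUnit_of_dvd_one (by rw [e1]; exact dvd_sub h3 (h2d.mul_right _))
    have hU := ((hloc hz h7).1 hP1).2 h1b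
    have hUT : Ur W (em e (∏ i ∈ T, π i)) := by
      obtain ⟨y, hy⟩ := prod_b T fun i hi => hf.rb i (hTI hi)
      refine ⟨1, one_ne_zero, ?_⟩
      have e1 : em e (∏ i ∈ T, π i) - 1 ^ 2 = (em e (cj aR)) ^ 2 * em e y := by
        rw [hy, map_add, map_mul, map_one, map_pow]
        ring
      have w4 : W 4 = exp (-1) ^ 2 := by
        have e2 : (4 : K) = 2 ^ 2 := by norm_num
        rw [e2, map_pow, w2]
      have wb : W (em e (cj aR)) = exp (-1) := val_z e hz
      rw [e1, map_mul, map_pow, wb, w4, map_one, one_pow, mul_one]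
      exact mul_le_of_le_one_right' (val_le e hz y)
    have hUf : Ur W (em e (fb ε)) := by
      rw [em_fb]
      cases ε
      · simpa using hur 1 ⟨0, by ring⟩
      · simpa using (LC.s hb w7).2 h1b
    apply not_ur_neg_one (w := W) w2
    refine ((hU.mul w2' hUT).mul w2' hUf).sqE w2' ⟨(em e (fb ε * ∏ i ∈ T, π i))⁻¹, ?_, ?_⟩
    · apply inv_ne_zero
      apply em_ne
      intro h0
      rw [h0, zero_mul] at hu
      exact hd.ne_zero hu
    · have h0 : em e (fb ε * ∏ i ∈ T, π i) ≠ 0 := by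
        apply em_ne
        intro h0
        rw [h0, zero_mul] at hu
        exact hd.ne_zero hu
      rw [hu, h1]
      simp only [map_mul, map_neg, map_one] at h0 ⊢
      obtain ⟨h01, h02⟩ := mul_ne_zero_iff.1 h0
      field_simp
  subst hu1
  rw [mul_one] at hu
  have hPne : ∀ (ε' : Bool) (U : Finset ι), U ⊆ I → fb ε' * ∏ i ∈ U, π i ≠ 0 := by
    intro ε' U hU h0
    rcases mul_eq_zero.1 h0 with h1 | h1
    · cases ε'
      · exact one_ne_zero h1
      · exact fR_ne h1
    · exact (Finset.prod_ne_zero_iff.2 fun i hi => (hf.pr i (hU hi)).ne_zero) h1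
  -- the conditions at the primes
  have key : ∀ i ∈ I, (i ∉ T → (if ε then dc π i else 0) + ∑ j ∈ T, dr π i j = 0) ∧
      (i ∈ T → (if !ε then dc π i else 0) + ∑ j ∈ I \ T, dr π i j = 0) := by
    intro i hi
    have hz := (hf.pr i hi)
    have hl := (hloc hz (hf.seven i hi)).2 ((val_lt e hz _).2 (Finset.dvd_prod_of_mem π hi))
    rw [← em_fR e, ← map_mul, ← map_mul] at hl
    have hunit : ∀ (ε' : Bool) (U : Finset ι), U ⊆ I → i ∉ U →
        ¬ π i ∣ fb ε' * ∏ j ∈ U, π j := fun ε' U hU hiU h1 =>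
      hf.notin hU hi hiU ε' (Ideal.mem_span_singleton.2 h1)
    constructor
    · intro hiT
      rcases hl with h1 | h1
      · rw [hu] at h1
        exact hf.lg_sy hTI hi hiT ε (sy_of_sq e hz (hf.notin hTI hi hiT ε) h1)
      · exfalso
        refine hodd hz _ ?_ h1.ev
        refine val_mul1 e hz (c := fR * (∏ j ∈ I.erase i, π j) * (fb ε * ∏ j ∈ T, π j)) ?_ ?_
        · rw [← Finset.mul_prod_erase I π hi, hu]
          ring
        · intro h2
          rcases hz.dvd_or_dvd h2 with h3 | h3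
          · exact hunit true (I.erase i) (Finset.erase_subset _ _) (Finset.notMem_erase _ _) h3
          · exact hunit ε T hTI hiT h3
    · intro hiT
      have hiT' : i ∉ I \ T := fun h => (Finset.mem_sdiff.1 h).2 hiT
      rcases hl with h1 | h1
      · exfalso
        refine hodd hz _ ?_ h1.ev
        refine val_mul1 e hz (c := fb ε * ∏ j ∈ T.erase i, π j) ?_ ?_
        · rw [hu, ← Finset.mul_prod_erase T π hiT]
          ring
        · exact hunit ε _ ((Finset.erase_subset _ _).trans hTI) (Finset.notMem_erase _ _)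
      · have h3 : Sq ((plc e hz).valuation K) (em e (fb (!ε) * ∏ j ∈ I \ T, π j)) := by
          have hne1 : em e (∏ j ∈ T, π j) ≠ 0 := by
            apply em_ne
            have := hPne false T hTI
            rwa [show fb false = 1 from rfl, one_mul] at this
          have hne2 : em e fR ≠ 0 := em_ne e fR_ne
          refine h1.sqE ?_
          rw [hu, ← Finset.prod_sdiff hTI (f := π)]
          cases ε
          · refine ⟨(em e (∏ j ∈ T, π j))⁻¹, inv_ne_zero hne1, ?_⟩
            rw [show fb false = 1 from rfl, show fb (!false) = fR from rfl, one_mul]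
            simp only [map_mul]
            field_simp
          · refine ⟨(em e (fR * ∏ j ∈ T, π j))⁻¹, inv_ne_zero ?_, ?_⟩
            · rw [map_mul]
              exact mul_ne_zero hne2 hne1
            · rw [show fb true = fR from rfl, show fb (!true) = 1 from rfl, one_mul]
              simp only [map_mul]
              field_simp
        exact hf.lg_sy Finset.sdiff_subset hi hiT' (!ε)
          (sy_of_sq e hz (hf.notin Finset.sdiff_subset hi hiT' (!ε)) h3)
  refine ⟨w, ?_⟩
  cases hεe : ε with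
  | false =>
    left
    have hT0 : T = ∅ := by
      refine ns_of_gd hg hTI (fun i hi => ?_) (fun i hi => ?_)
      · rw [Finset.mem_sdiff] at hi
        have := (key i hi.1).1 hi.2
        rw [hεe] at this
        simpa using this
      · have := (key i (hTI hi)).2 hi
        rw [hεe] at this
        simpa using this
    rw [hqd, hu, hεe, hT0, Finset.prod_empty, show fb false = 1 from rfl, one_mul, map_one, one_mul]
  | true =>
    right
    have hT0 : I \ T = ∅ := by
      refine ns_of_gd hg Finset.sdiff_subset (fun i hi => ?_) (fun i hi => ?_)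
      · rw [Finset.sdiff_sdiff_eq_self hTI] at hi
        have := (key i (hTI hi)).2 hi
        rw [hεe] at this
        simpa using this
      · rw [Finset.sdiff_sdiff_eq_self hTI]
        rw [Finset.mem_sdiff] at hi
        have := (key i hi.1).1 hi.2
        rw [hεe] at this
        simpa using this
    have hTI' : T = I := Finset.Subset.antisymm hTI (Finset.sdiff_eq_empty_iff_subset.1 hT0)
    rw [hqd, hu, hεe, hTI', show fb true = fR from rfl]


end

end Pool.Agent.R426.QD
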