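import Pool.Agent.R426.QD.Rec

/-!
# The symbols of the prime elements above two and the traces of Frobenius
-/

set_option autoImplicit false
set_option linter.unusedSectionVars false

namespace Pool.Agent.R426.QD

open Pool.Agent.R426.QC
open Pool.Agent.Y698
open Pool.Agent.Y698.SG (sy sy_val PD Fam lg sgn_prod sgn_mul lg_one lg_neg_one sy_sgn)
open H667R3 Pool.Agent.W192.HK Pool.Agent.TH936.CM Pool.Agent.TH936.PU
open Pool.Agent.Y279.SG (sy_eq red cXY_cj nR_dvd qch_eq dvd_coord)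
open Pool.Agent.Y919.SG (jac_abs gcd_natAbs sq8)
open W165.CE (pw pw_eq pw_luc exists_roots')

/-- **the symbol of `(1 + √-7) / 2`** -/
theorem sy_aO {ϖ : RR} (h : Prime ϖ) (h2 : ¬ ϖ ∣ 2) :
    sy ϖ aR = ((ZMod.χ₈ ((cX ϖ : ℤ) : ZMod 8) : ℤ) : ℂ) := by
  rcases odd_cases h h2 with (h1 | h1) | ⟨p, A, B, h1⟩
  · exact h1.two
  · have := h1.two
    rwa [sy_negm, (cXY_neg ϖ).1, Int.cast_neg, chi8_neg] at this
  obtain ⟨hY, s1⟩ := spl_sy h1.pr h1.nR aR
  rw [s1, cXY_aR.1, cXY_aR.2, mul_zero, zero_sub, mul_one]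
  have hpe := h1.eqn
  have hA := h1.hA
  have hB := h1.hB
  have hm4 := h1.m4
  have c1 := cop_of_norm h1.pr hpe
  have j1 := jac_odd h1.hB c1 hpe h1.m4
  have hneg : jacobiSym (-1) p = -1 := by
    rw [jacobiSym.at_neg_one h1.odd, ZMod.χ₄_nat_three_mod_four h1.m4]
  obtain ⟨a, ha⟩ : ∃ a, A = 2 * a := ⟨A / 2, by omega⟩
  have hB8 := sq8 hB
  have j2 : jacobiSym 2 p = if a % 2 = 0 then 1 else -1 := by
    rw [jacobiSym.at_two h1.odd, ZMod.χ₈_nat_eq_if_mod_eight]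
    have hA2 : A ^ 2 = 4 * a ^ 2 := by rw [ha]; ring
    rcases Int.emod_two_eq_zero_or_one a with h3 | h3
    · obtain ⟨b, hb⟩ : ∃ b, a = 2 * b := ⟨a / 2, by omega⟩
      have h4 : 4 * a ^ 2 = 8 * (2 * b ^ 2) := by rw [hb]; ring
      have hp8 : p % 8 = 7 := by
        have : (p : ℤ) % 8 = 7 := by rw [hpe]; omega
        omega
      rw [if_pos h3, if_neg (by omega), if_pos (Or.inr hp8)]
    · have h4 := sq8 h3
      have hp8 : p % 8 = 3 := by
        have : (p : ℤ) % 8 = 3 := by rw [hpe]; omega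
        omega
      rw [if_neg (by omega), if_neg (by omega), if_neg (by omega)]
  obtain ⟨X, hX⟩ : ∃ X, X = cX ϖ := ⟨_, rfl⟩
  have hXA : X = A - B := by rw [hX, h1.hX]
  have hXo : Odd X.natAbs := by rw [Int.natAbs_odd]; exact Int.odd_iff.2 (by omega)
  -- the symbol of `X`
  have hcop : IsCoprime X B := by
    have h3 : X = A + (-1) * B := by rw [hXA]; ring
    rw [h3]
    exact IsCoprime.add_mul_right_left_iff.2 c1
  have j4 : jacobiSym (p : ℤ) X.natAbs = ZMod.χ₈ ((X : ℤ) : ZMod 8) := by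
    have e3 : jacobiSym (p : ℤ) X.natAbs = jacobiSym (2 * (cY ϖ) ^ 2) X.natAbs := by
      apply jacobiSym.mod_left'
      refine Int.modEq_iff_dvd.2 ?_
      rw [Int.natCast_natAbs]
      refine (abs_dvd _ _).2 ⟨-(cX ϖ + cY ϖ), ?_⟩
      rw [← h1.nR]
      unfold nR
      rw [hX]
      ring
    have e4 : jacobiSym ((cY ϖ) ^ 2) X.natAbs = 1 := by
      apply jacobiSym.sq_one'
      rw [gcd_natAbs, ← Int.isCoprime_iff_gcd_eq_one, h1.hY]
      have h5 : IsCoprime X (2 : ℤ) := by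
        obtain ⟨w, hw⟩ : ∃ w, X = 1 + 2 * w := ⟨X / 2, by omega⟩
        rw [hw]
        exact ⟨1, -w, by ring⟩
      exact (h5.mul_right hcop).symm
    rw [e3, jacobiSym.mul_left, e4, mul_one, jacobiSym.at_two hXo, chi8_abs]
  have j5 : jacobiSym X p = sg4 X * ZMod.χ₈ ((X : ℤ) : ZMod 8) := by
    have habs : jacobiSym (X.natAbs : ℤ) p =
        (if X.natAbs % 4 = 1 then 1 else -1) * ZMod.χ₈ ((X : ℤ) : ZMod 8) := by
      split_ifs with h4
      · rw [jacobiSym.quadratic_reciprocity_one_mod_four h4 h1.odd, j4, one_mul]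
      · have h4' : X.natAbs % 4 = 3 := by
          have := Nat.odd_iff.1 hXo
          omega
        rw [jacobiSym.quadratic_reciprocity_three_mod_four h4' h1.m4, j4]
        ring
    unfold sg4
    have hodd := Nat.odd_iff.1 hXo
    rcases Int.natAbs_eq X with h3 | h3
    · rw [← h3] at habs
      rw [habs]
      congr 2
      apply propext
      omega
    · have e : jacobiSym X p = jacobiSym (-1 * (X.natAbs : ℤ)) p := by
        congr 1
        omega
      rw [e, jacobiSym.mul_left, hneg, habs]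
      by_cases h4 : X.natAbs % 4 = 1
      · rw [if_pos h4, if_neg (by omega)]
        ring
      · rw [if_neg h4, if_pos (by omega)]
        ring
  have e1 : cY ϖ * -cX ϖ = -1 * (2 * (B * X)) := by
    rw [h1.hY, hX]; ring
  rw [e1, ← hX]
  unfold qch
  congr 1
  rw [jacobiSym.mul_left, jacobiSym.mul_left, jacobiSym.mul_left, hneg, j1, j2, j5]
  have key : (-1 : ℤ) * ((if a % 2 = 0 then 1 else -1) * (sg4 B * (sg4 X))) = 1 := by
    unfold sg4
    have hXX : X = 2 * a - B := by rw [hXA, ha]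
    split_ifs <;> first | (norm_num; done) | (exfalso; omega)
  linear_combination (ZMod.χ₈ ((X : ℤ) : ZMod 8)) * key

lemma sy_bO {ϖ : RR} (h : Prime ϖ) (h2 : ¬ ϖ ∣ 2) :
    sy ϖ (cj aR) = ((ZMod.χ₈ ((cX (cj ϖ) : ℤ) : ZMod 8) : ℤ) : ℂ) := by
  have hp : Prime (cj ϖ) := by
    refine ⟨fun h0 => h.ne_zero ?_, fun hu => h.not_isUnit ?_, fun x y hxy => ?_⟩
    · rw [← cj_cj ϖ, h0, map_zero]
    · have := hu.map Pool.Agent.Y698.cj
      rwa [cj_cj] at this
    · have h1 : ϖ ∣ Pool.Agent.Y698.cj x * Pool.Agent.Y698.cj y := by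
        rw [← cj_dvd, map_mul, cj_cj, cj_cj]
        exact hxy
      rcases h.dvd_or_dvd h1 with h3 | h3
      · left
        rw [← cj_dvd, cj_cj]
        exact h3
      · right
        rw [← cj_dvd, cj_cj]
        exact h3
  have hp2 : ¬ cj ϖ ∣ 2 := by
    intro h3
    apply h2
    have := (cj_dvd (x := cj ϖ) (y := 2)).2 h3
    rwa [cj_cj, map_ofNat] at this
  have h4 : sy ϖ (cj aR) = sy (cj ϖ) aR := by
    rw [← Pool.Agent.Y279.SG.sy_cj ϖ, cj_cj]
  rw [h4, sy_aO hp hp2]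

/-- even second coordinate, odd first coordinate -/
def Oc (x : RR) : Prop := cX x % 2 = 1 ∧ cY x % 2 = 0

lemma Oc.one : Oc 1 := by
  unfold Oc
  rw [cXY_one.1, cXY_one.2]
  norm_num

lemma Oc.mul {x y : RR} (h : Oc x) (h' : Oc y) : Oc (x * y) ∧
    ((cX (x * y) : ℤ) : ZMod 8) = ((cX x : ℤ) : ZMod 8) * ((cX y : ℤ) : ZMod 8) := by
  obtain ⟨h1, h2⟩ := h
  obtain ⟨h3, h4⟩ := h'
  obtain ⟨b, hb⟩ : ∃ b, cY x = 2 * b := ⟨cY x / 2, by omega⟩
  obtain ⟨d, hd⟩ : ∃ d, cY y = 2 * d := ⟨cY y / 2, by omega⟩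
  have e1 := (cXY_mul x y).1
  have e2 := (cXY_mul x y).2
  rw [hb, hd] at e1 e2
  have hXX : (cX x * cX y) % 2 = 1 := by rw [Int.mul_emod, h1, h3]; rfl
  refine ⟨⟨?_, ?_⟩, ?_⟩
  · have e3 : cX (x * y) = cX x * cX y + 2 * (-4 * (b * d)) := by rw [e1]; ring
    rw [e3, Int.add_mul_emod_self_left, hXX]
  · have e3 : cY (x * y) = 2 * (cX x * d + b * cX y + b * (2 * d)) := by rw [e2]; ring
    rw [e3, Int.mul_emod_right]
  · rw [e1]
    have h8 : (8 : ZMod 8) = 0 := by decide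
    push_cast
    linear_combination (-(b : ZMod 8) * (d : ZMod 8)) * h8

lemma oc_prime {ϖ : RR} (h : Prime ϖ) (h2 : ¬ ϖ ∣ 2) : Oc ϖ := by
  rcases odd_cases h h2 with (h1 | h1) | ⟨p, A, B, h1⟩
  · obtain ⟨x, y, hx, hy⟩ := coord4 h1.m4
    exact ⟨by omega, by omega⟩
  · obtain ⟨x, y, hx, hy⟩ := coord4 h1.m4
    rw [(cXY_neg ϖ).1] at hx
    rw [(cXY_neg ϖ).2] at hy
    exact ⟨by omega, by omega⟩
  · refine ⟨?_, ?_⟩
    · rw [h1.hX]
      have := h1.hA
      have := h1.hB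
      omega
    · rw [h1.hY]
      omega

lemma oc_cj {x : RR} (h : Oc x) : Oc (cj x) := by
  obtain ⟨h1, h2⟩ := h
  unfold Oc
  rw [(cXY_cj x).1, (cXY_cj x).2]
  exact ⟨by omega, by omega⟩

lemma oc_prod {ι : Type} (S : Finset ι) {π : ι → RR} (hπ : ∀ i ∈ S, Oc (π i)) :
    Oc (∏ i ∈ S, π i) ∧ ((cX (∏ i ∈ S, π i) : ℤ) : ZMod 8) = ∏ i ∈ S, ((cX (π i) : ℤ) : ZMod 8) := by
  classical
  induction S using Finset.induction_on with
  | empty =>
    simp only [Finset.prod_empty]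
    exact ⟨Oc.one, by rw [cXY_one.1]; norm_num⟩
  | insert a S ha ih =>
    obtain ⟨h1, h2⟩ := ih fun i hi => hπ i (Finset.mem_insert_of_mem hi)
    have h3 := (hπ a (Finset.mem_insert_self a S)).mul h1
    rw [Finset.prod_insert ha, Finset.prod_insert ha]
    exact ⟨h3.1, by rw [h3.2, h2]⟩

lemma chi_four (J : RR) : ((ZMod.χ₈ ((cX (1 + 4 * J) : ℤ) : ZMod 8) : ℤ) : ℂ) =
    open Classical in if aR ∣ J then 1 else -1 := by
  classical
  have h4 : (4 : RR) = ((4 : ℤ) : RR) := by push_cast; rfl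
  have hX : cX (1 + 4 * J) = 1 + 4 * cX J := by
    rw [h4, (cXY_add _ _).1, (cXY_mul _ _).1, cXY_one.1, (cXY_int 4).1, (cXY_int 4).2]
    ring
  rw [hX, mem_a]
  rcases Int.emod_two_eq_zero_or_one (cX J) with h1 | h1
  · obtain ⟨w, hw⟩ : ∃ w, cX J = 2 * w := ⟨cX J / 2, by omega⟩
    rw [if_pos h1, hw]
    have e : ((1 + 4 * (2 * w) : ℤ) : ZMod 8) = 1 := by
      have : (8 : ZMod 8) = 0 := by decide
      push_cast
      linear_combination (w : ZMod 8) * this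
    rw [e]
    have : ZMod.χ₈ 1 = 1 := by decide
    rw [this]
    norm_num
  · obtain ⟨w, hw⟩ : ∃ w, cX J = 2 * w + 1 := ⟨cX J / 2, by omega⟩
    rw [if_neg (by omega), hw]
    have e : ((1 + 4 * (2 * w + 1) : ℤ) : ZMod 8) = 5 := by
      have : (8 : ZMod 8) = 0 := by decide
      push_cast
      linear_combination (w : ZMod 8) * this
    rw [e]
    have : ZMod.χ₈ 5 = -1 := by decide
    rw [this]
    norm_num

/-- the signs of the prime elements above two -/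
lemma prod_sign2 {ι : Type} {S : Finset ι} {π : ι → RR} (hπ : ∀ i ∈ S, Prime (π i) ∧ ¬ π i ∣ 2)
    {J : RR} (hJ : ∏ i ∈ S, π i = 1 + 4 * J) {ϖ : RR} (hϖ : Prime ϖ) (h2 : ϖ ∣ 2)
    (hneg : ∏ i ∈ S, sy (π i) (-1) = 1) :
    ∏ i ∈ S, sy (π i) ϖ = open Classical in if ϖ ∣ J then 1 else -1 := by
  classical
  have hmul : ∀ x y : RR, ∏ i ∈ S, sy (π i) (x * y) =
      (∏ i ∈ S, sy (π i) x) * ∏ i ∈ S, sy (π i) y := by
    intro x y
    rw [← Finset.prod_mul_distrib]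
    exact Finset.prod_congr rfl fun i hi => sy_mulO (hπ i hi).1 (hπ i hi).2 x y
  have ka : ∏ i ∈ S, sy (π i) aR = if aR ∣ J then 1 else -1 := by
    rw [← chi_four, ← hJ, (oc_prod S fun i hi => oc_prime (hπ i hi).1 (hπ i hi).2).2, map_prod,
      Int.cast_prod]
    exact Finset.prod_congr rfl fun i hi => sy_aO (hπ i hi).1 (hπ i hi).2
  have kb : ∏ i ∈ S, sy (π i) (cj aR) = if cj aR ∣ J then 1 else -1 := by
    have h5 : cj aR ∣ J ↔ aR ∣ cj J := by rw [← cj_dvd, cj_cj]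
    have hJ' : ∏ i ∈ S, cj (π i) = 1 + 4 * cj J := by
      rw [← map_prod, hJ, map_add, map_mul, map_one, map_ofNat]
    simp only [h5]
    rw [← chi_four, ← hJ', (oc_prod S fun i hi =>
      oc_cj (oc_prime (hπ i hi).1 (hπ i hi).2)).2, map_prod, Int.cast_prod]
    exact Finset.prod_congr rfl fun i hi => sy_bO (hπ i hi).1 (hπ i hi).2
  have key : ∀ g : RR, Prime g → ∏ i ∈ S, sy (π i) g = (if g ∣ J then 1 else -1) → ϖ ∣ g →
      ∏ i ∈ S, sy (π i) ϖ = if ϖ ∣ J then 1 else -1 := by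
    intro g hg hs hd
    obtain ⟨w, hw⟩ := hϖ.irreducible.associated_of_dvd hg.irreducible hd
    rcases isUnit_iff.1 w.isUnit with h1 | h1
    · rw [h1, mul_one] at hw
      rw [hw]
      exact hs
    · have hg' : ϖ = -1 * g := by rw [← hw, h1]; ring
      have hdd : ϖ ∣ J ↔ g ∣ J := by rw [hg', neg_one_mul, neg_dvd]
      rw [hg', hmul, hneg, one_mul, hs]
      simp only [neg_one_mul, neg_dvd]
  rw [two_eq] at h2
  rcases hϖ.dvd_or_dvd h2 with h3 | h3
  · exact key aR prime_aR ka h3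
  · exact key _ prime_cja kb h3

lemma eq_of_lg {z w : ℂ} (hz : z = 1 ∨ z = -1) (hw : w = 1 ∨ w = -1) (h : lg z = lg w) : z = w := by
  rcases hz with rfl | rfl <;> rcases hw with rfl | rfl
  · rfl
  · rw [lg_one, lg_neg_one] at h
    exact absurd h (by decide)
  · rw [lg_one, lg_neg_one] at h
    exact absurd h (by decide)
  · rfl

/-- the product of the symbols is even -/
lemma prod_neg {ι : Type} {S : Finset ι} {π : ι → RR} (hπ : ∀ i ∈ S, Prime (π i))
    (ht : ∑ i ∈ S, tp (π i) = 0) : ∏ i ∈ S, sy (π i) (-1) = 1 := by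
  have h := sgn_prod (s := S) (f := fun i => sy (π i) (-1)) fun i hi =>
    sy_sgn (neg_one_notin (hπ i hi))
  refine eq_of_lg h.1 (Or.inl rfl) ?_
  rw [h.2, lg_one, ← ht]
  rfl

/-- **the trace of Frobenius of the twist** -/
theorem trace_D (k : Type) [Field k] [Finite k] {ϖ : RR} (h : Prime ϖ) (h7 : ¬ ϖ ∣ 7)
    (hk : (Nat.card k : ℤ) = nR ϖ) (φ : RR →+* k) (hs : Function.Surjective φ)
    (hφ : ∀ x, φ x = 0 ↔ x ∈ sp ϖ) {ι : Type} {S : Finset ι} {π : ι → RR}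
    (hπ : ∀ i ∈ S, Pn (π i)) (ht : ∑ i ∈ S, tp (π i) = 0) (hne : ∀ i ∈ S, π i ∉ sp ϖ) {J : RR}
    (hJ : ∏ i ∈ S, π i = 1 + 4 * J) :
    (((Nat.card k : ℤ) - Nat.card (AP (EX k (φ J))) : ℤ) : ℂ) =
      (∏ i ∈ S, sy (π i) ϖ) * (Pool.Agent.Y698.e7 ϖ * ((ϖ : ℂ) + (cj ϖ : ℂ))) := by
  classical
  rw [← trace_one k h h7 hk]
  have hdv : ∀ x : RR, φ x = 0 ↔ ϖ ∣ x := fun x => by rw [hφ, Ideal.mem_span_singleton]
  by_cases h2 : ϖ ∣ 2
  · have hk2 : Nat.card k = 2 := by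
      obtain ⟨c, hc⟩ := h2
      have h3 : nR ϖ * nR c = 4 := by
        rw [← nR_mul, ← hc]
        have : (2 : RR) = ((2 : ℕ) : RR) := by push_cast; rfl
        rw [this, nR_nat]
        norm_num
      have h4 := QC.nR_pos h.ne_zero
      rcases prime_cases h with ⟨p, hp, hN⟩ | ⟨q, hq, hϖ⟩
      · rw [hN] at h3 hk
        have h5 : (p : ℤ) ∣ 4 := ⟨_, h3.symm⟩
        have h6 : p ∣ 2 ^ 2 := by exact_mod_cast h5
        have h8 := (Nat.prime_dvd_prime_iff_eq hp Nat.prime_two).1 (hp.dvd_of_dvd_pow h6)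
        rw [h8] at hk
        exact_mod_cast hk
      · exfalso
        have hN : nR ϖ = (q : ℤ) ^ 2 := by
          rcases hϖ with rfl | rfl
          · rw [nR_nat]
          · rw [nR_neg, nR_nat]
        rw [hN] at h3
        have h5 : (q : ℤ) ∣ 4 := ⟨q * nR c, by rw [← h3]; ring⟩
        have h6 : q ∣ 2 ^ 2 := by exact_mod_cast h5
        exact hq.h2 ((Nat.prime_dvd_prime_iff_eq hq.pr Nat.prime_two).1 (hq.pr.dvd_of_dvd_pow h6))
    rw [trace_two k hk2, prod_sign2 (fun i hi => ⟨(hπ i hi).pr, (hπ i hi).od⟩) hJ h h2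
      (prod_neg (fun i hi => (hπ i hi).pr) ht)]
    congr 1
    simp only [hdv]
  · have _ : Fintype k := Fintype.ofFinite k
    have h20 : (2 : k) ≠ 0 := by
      intro h0
      apply h2
      rw [← hdv, map_ofNat]
      exact h0
    have hD : φ (∏ i ∈ S, π i) = 1 + 4 * φ J := by
      rw [hJ, map_add, map_mul, map_one, map_ofNat]
    have hD0 : 1 + 4 * φ J ≠ 0 := by
      rw [← hD, map_prod, Finset.prod_ne_zero_iff]
      intro i hi h0
      exact hne i hi ((hφ _).1 h0)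
    have hne' : ∀ i ∈ S, ϖ ∉ sp (π i) := by
      intro i hi h3
      apply hne i hi
      rw [Ideal.mem_span_singleton] at h3 ⊢
      exact ((hπ i hi).pr.irreducible.associated_of_dvd h.irreducible h3).symm.dvd
    rw [trace_odd k h20 hD0]
    push_cast
    congr 1
    rw [← hD, map_prod, map_prod, Int.cast_prod]
    have e1 : ∏ i ∈ S, ((quadraticChar k (φ (π i)) : ℤ) : ℂ) = ∏ i ∈ S, sy ϖ (π i) :=
      Finset.prod_congr rfl fun i hi => (sy_eq φ hs hφ _).symm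
    rw [e1]
    have s1 := sgn_prod (s := S) (f := fun i => sy ϖ (π i)) fun i hi => sy_sgn (hne i hi)
    have s2 := sgn_prod (s := S) (f := fun i => sy (π i) ϖ) fun i hi => sy_sgn (hne' i hi)
    refine eq_of_lg s1.1 s2.1 ?_
    rw [s1.2, s2.2]
    have e2 : ∑ i ∈ S, lg (sy (π i) ϖ) = ∑ i ∈ S, (lg (sy ϖ (π i)) + tp (π i) * et ϖ) :=
      Finset.sum_congr rfl fun i hi => recG (hπ i hi) h h2 (hne i hi) (hne' i hi)
    rw [e2, Finset.sum_add_distrib, ← Finset.sum_mul, ht, zero_mul, add_zero]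

end Pool.Agent.R426.QD
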