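import Pool.Agent.R426.QD.Wf
import Pool.Agent.R426.QD.Tr

/-!
# Weighted sums of distributions over the points of odd order
-/

set_option autoImplicit false
set_option linter.unusedSectionVars false

open Filter
open scoped Topology PeriodPair

namespace Pool.Agent.R426.QD

open Pool.Agent.R426.QC
open Pool.Agent.Y698 Pool.Agent.Y698.SG
open H667R3 Pool.Agent.W192.HK Pool.Agent.TH936.CM Pool.Agent.TH936.PU

variable {L : PeriodPair} {Ω : ℂ} {Γ : Type*} [LinearOrderedCommGroupWithZero Γ]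
  {v : Valuation ℂ Γ}

/-- distributions on the points killed by `N` -/
structure Ds (L : PeriodPair) (Ω : ℂ) (N : RR) (lam : RR → ℂ) (W : ℂ → ℂ) : Prop where
  per : ∀ z w : ℂ, z - w ∈ L.lattice → W z = W w
  dist : ∀ c : RR, c ≠ 0 → c ∣ N → ∀ [Fintype (RR ⧸ sp c)], ∀ z : ℂ, (N : ℂ) * z ∈ L.lattice →
    ∑ t : RR ⧸ sp c, W (z + Ω * t.out / c) = lam c * W (c * z)

/-- the weighted sum -/
noncomputable def Bd (Ω : ℂ) (W : ℂ → ℂ) (n : RR) (φ : RR → ℂ) : ℂ :=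
  ∑ᶠ x : RR ⧸ sp n, φ x.out * W (Ω * x.out / (n : ℂ))

lemma Bd_eq (W : ℂ → ℂ) (n : RR) [Fintype (RR ⧸ sp n)] (φ : RR → ℂ) :
    Bd Ω W n φ = ∑ x : RR ⧸ sp n, φ x.out * W (Ω * x.out / (n : ℂ)) :=
  finsum_eq_sum_of_fintype _

variable {N : RR} {lam : RR → ℂ} {W : ℂ → ℂ}

lemma Bd_term (hW : Ds L Ω N lam W) (hL : IsLat L RR Ω) {n : RR} (hn : n ≠ 0)
    {φ : RR → ℂ} (hφ : Pe n φ) {x y : RR} (h : x - y ∈ sp n) :
    φ x * W (Ω * x / (n : ℂ)) = φ y * W (Ω * y / (n : ℂ)) := by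
  rw [hφ _ _ h]
  congr 1
  apply hW.per
  have h1 := (div_mem_iff hL hn (x - y)).2 h
  convert h1 using 1
  push_cast
  ring

theorem Bd_dist (hW : Ds L Ω N lam W) (hL : IsLat L RR Ω) {n q : RR} (hn0 : n ≠ 0)
    (hq0 : q ≠ 0) (hN : q * n ∣ N) {φ : RR → ℂ} (hφ : Pe n φ) :
    Bd Ω W (q * n) φ = lam q * Bd Ω W n φ := by
  have hqn0 : q * n ≠ 0 := mul_ne_zero hq0 hn0
  have f1 := fin_quot hn0
  have f2 := fin_quot hq0
  have f3 := fin_quot hqn0
  let _ : Fintype (RR ⧸ sp n) := Fintype.ofFinite _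
  let _ : Fintype (RR ⧸ sp q) := Fintype.ofFinite _
  let _ : Fintype (RR ⧸ sp (q * n)) := Fintype.ofFinite _
  have hφ' : Pe (q * n) φ := hφ.mono (Dvd.intro_left q rfl)
  have hn0' := coe_ne hn0
  have hq0' := coe_ne hq0
  rw [Bd_eq, Bd_eq]
  have hb := bij_mul (R := RR) (a := q) (f := n) hn0
  rw [sum_rep _ hb (fun x : RR => φ x * W (Ω * x / ((q * n : RR) : ℂ)))
    (fun x y h => Bd_term hW hL hqn0 hφ' h), Fintype.sum_prod_type, Finset.mul_sum]
  refine Finset.sum_congr rfl fun y _ => ?_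
  obtain ⟨d, hd⟩ := hN
  have hz : (N : ℂ) * (Ω * y.out / ((q * n : RR) : ℂ)) ∈ L.lattice := by
    have h1 := hL.mem_mul (d * y.out)
    convert h1 using 1
    rw [hd]
    push_cast
    field_simp
  have h1 := hW.dist q hq0 ⟨n * d, by rw [hd]; ring⟩ (Ω * y.out / ((q * n : RR) : ℂ)) hz
  have h2 : ∀ t : RR ⧸ sp q, φ (y.out + n * t.out) = φ y.out := by
    intro t
    apply hφ
    rw [add_sub_cancel_left, Ideal.mem_span_singleton']
    exact ⟨t.out, mul_comm _ _⟩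
  have e1 : ∀ t : RR ⧸ sp q, Ω * ((y.out + n * t.out : RR) : ℂ) / ((q * n : RR) : ℂ) =
      Ω * y.out / ((q * n : RR) : ℂ) + Ω * t.out / q := by
    intro t
    push_cast
    field_simp
  have e2 : (q : ℂ) * (Ω * y.out / ((q * n : RR) : ℂ)) = Ω * y.out / (n : ℂ) := by
    push_cast
    field_simp
  simp only [h2, e1]
  rw [← Finset.mul_sum, h1, e2]
  ring

open Classical in
/-- the multiples of `q` -/
theorem Bd_mult (hW : Ds L Ω N lam W) (hL : IsLat L RR Ω) {n q : RR} (hn0 : n ≠ 0)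
    (hq0 : q ≠ 0) {φ : RR → ℂ} (hφ : Pe n φ) :
    Bd Ω W (q * n) (fun m => if m ∈ sp q then φ m else 0) =
      Bd Ω W n (fun m => φ (q * m)) := by
  have hqn0 : q * n ≠ 0 := mul_ne_zero hq0 hn0
  have f1 := fin_quot hn0
  have f3 := fin_quot hqn0
  let _ : Fintype (RR ⧸ sp n) := Fintype.ofFinite _
  let _ : Fintype (RR ⧸ sp (q * n)) := Fintype.ofFinite _
  have hφ' : Pe (q * n) φ := hφ.mono (Dvd.intro_left q rfl)
  have hq0' : (q : ℂ) ≠ 0 := coe_ne hq0
  have hn0' : (n : ℂ) ≠ 0 := coe_ne hn0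
  rw [Bd_eq, Bd_eq]
  set g : RR ⧸ sp n → RR ⧸ sp (q * n) := fun y => Ideal.Quotient.mk _ (q * y.out) with hg
  have hginj : Function.Injective g := by
    intro y y' h
    have h1 : q * y.out - q * y'.out ∈ sp (q * n) := by
      rw [← Ideal.Quotient.mk_eq_mk_iff_sub_mem]
      exact h
    rw [Ideal.mem_span_singleton'] at h1
    obtain ⟨b, hb⟩ := h1
    apply mk_eq
    rw [Ideal.mem_span_singleton']
    refine ⟨b, ?_⟩
    apply mul_left_cancel₀ hq0
    linear_combination hb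
  have hterm : ∀ y : RR ⧸ sp n, (if (g y).out ∈ sp q then φ (g y).out else 0) *
      W (Ω * (g y).out / ((q * n : RR) : ℂ)) =
      φ (q * y.out) * W (Ω * y.out / (n : ℂ)) := by
    intro y
    have h1 : (g y).out - q * y.out ∈ sp (q * n) := by
      have := neg_mem (out_mk (sp (q * n)) (q * y.out))
      rwa [neg_sub] at this
    have h2 : (g y).out ∈ sp q := by
      have h3 : (g y).out - q * y.out ∈ sp q := by
        rw [Ideal.mem_span_singleton'] at h1 ⊢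
        obtain ⟨b, hb⟩ := h1
        exact ⟨b * n, by linear_combination hb⟩
      have h4 := add_mem h3 (Ideal.mul_mem_right y.out (sp q) (Ideal.mem_span_singleton_self q))
      rwa [sub_add_cancel] at h4
    rw [if_pos h2, Bd_term hW hL hqn0 hφ' h1]
    congr 2
    push_cast
    field_simp
  rw [← Finset.sum_congr rfl (fun y _ => hterm y)]
  rw [← Finset.sum_image (s := Finset.univ) (g := g) (f := fun x : RR ⧸ sp (q * n) =>
    (if x.out ∈ sp q then φ x.out else 0) *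
      W (Ω * x.out / ((q * n : RR) : ℂ))) (fun a _ b _ h => hginj h)]
  symm
  refine Finset.sum_subset (Finset.subset_univ _) fun x _ hx => ?_
  rw [if_neg, zero_mul]
  intro hd
  apply hx
  rw [Ideal.mem_span_singleton'] at hd
  obtain ⟨c, hc⟩ := hd
  rw [Finset.mem_image]
  refine ⟨Ideal.Quotient.mk _ c, Finset.mem_univ _, ?_⟩
  show Ideal.Quotient.mk _ (q * (Ideal.Quotient.mk (sp n) c).out) = x
  conv_rhs => rw [← Ideal.Quotient.mk_out x]
  rw [Ideal.Quotient.mk_eq_mk_iff_sub_mem]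
  have h1 := out_mk (sp n) c
  rw [Ideal.mem_span_singleton'] at h1
  obtain ⟨b, hb⟩ := h1
  rw [Ideal.mem_span_singleton']
  exact ⟨-b, by linear_combination -q * hb - hc⟩

open Classical in
/-- removing a prime -/
theorem Bd_rem (hW : Ds L Ω N lam W) (hL : IsLat L RR Ω) {n q : RR} (hn0 : n ≠ 0)
    (hq0 : q ≠ 0) (hN : q * n ∣ N) {κ : ℂ} {φ : RR → ℂ}
    (hφ : Pe n φ) (hφq : ∀ m : RR, φ (q * m) = κ * φ m) :
    Bd Ω W (q * n) (fun m => if m ∈ sp q then 0 else φ m) =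
      (lam q - κ) * Bd Ω W n φ := by
  have hqn0 : q * n ≠ 0 := mul_ne_zero hq0 hn0
  have f1 := fin_quot hn0
  let _ : Fintype (RR ⧸ sp n) := Fintype.ofFinite _
  have f3 := fin_quot hqn0
  let _ : Fintype (RR ⧸ sp (q * n)) := Fintype.ofFinite _
  have h1 := Bd_dist hW hL hn0 hq0 hN hφ
  have h2 := Bd_mult hW hL hn0 hq0 hφ
  simp only [hφq] at h2
  have h3 : Bd Ω W (q * n) (fun m => if m ∈ sp q then 0 else φ m) =
      Bd Ω W (q * n) φ - Bd Ω W (q * n) (fun m => if m ∈ sp q then φ m else 0) := by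
    rw [Bd_eq, Bd_eq, Bd_eq, ← Finset.sum_sub_distrib]
    refine Finset.sum_congr rfl fun x _ => ?_
    split_ifs <;> ring
  have h4 : Bd Ω W n (fun m => κ * φ m) = κ * Bd Ω W n φ := by
    rw [Bd_eq, Bd_eq, Finset.mul_sum]
    exact Finset.sum_congr rfl fun x _ => by ring
  rw [h3, h1, h2, h4]
  ring

lemma Bd_smul {n : RR} (hn : n ≠ 0) (c : ℂ) (φ : RR → ℂ) :
    Bd Ω W n (fun m => c * φ m) = c * Bd Ω W n φ := by
  have f1 := fin_quot hn
  let _ : Fintype (RR ⧸ sp n) := Fintype.ofFinite _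
  rw [Bd_eq, Bd_eq, Finset.mul_sum]
  exact Finset.sum_congr rfl fun x _ => by ring

lemma Bd_sum {n : RR} (hn : n ≠ 0) {ι : Type*} (s : Finset ι) (φ : ι → RR → ℂ) :
    Bd Ω W n (fun m => ∑ i ∈ s, φ i m) = ∑ i ∈ s, Bd Ω W n (φ i) := by
  have f1 := fin_quot hn
  let _ : Fintype (RR ⧸ sp n) := Fintype.ofFinite _
  simp only [Bd_eq]
  rw [Finset.sum_comm]
  exact Finset.sum_congr rfl fun x _ => by rw [Finset.sum_mul]

/-- families of prime elements of both types -/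
structure Fa {ι : Type} (S : Finset ι) (π : ι → RR) : Prop where
  pn : ∀ i ∈ S, Pn (π i)
  ne : ∀ i ∈ S, ∀ j ∈ S, i ≠ j → π i ∉ sp (π j)

lemma Fa.mono {ι : Type} {S S' : Finset ι} {π : ι → RR} (h : Fa S π) (hs : S' ⊆ S) :
    Fa S' π := ⟨fun i hi => h.pn i (hs hi), fun i hi j hj => h.ne i (hs hi) j (hs hj)⟩

lemma Fa.prod_ne {ι : Type} {S : Finset ι} {π : ι → RR} (h : Fa S π) : ∏ i ∈ S, π i ≠ 0 :=
  Finset.prod_ne_zero_iff.2 fun i hi => (h.pn i hi).pr.ne_zero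

/-- removing several primes -/
theorem Bd_rems {ι : Type} (hW : Ds L Ω N lam W) (hL : IsLat L RR Ω) {n : RR} (hn : n ≠ 0)
    {φ : RR → ℂ} (hφ : Pe n φ) {π : ι → RR} (κ : ι → ℂ) (B : Finset ι) (hB : Fa B π)
    (hN : (∏ i ∈ B, π i) * n ∣ N) (hκ : ∀ i ∈ B, Mu (π i) φ (κ i)) :
    Bd Ω W ((∏ i ∈ B, π i) * n) (fun m => φ m * ∏ i ∈ B, tr (π i) m) =
      (∏ i ∈ B, (lam (π i) - κ i)) * Bd Ω W n φ := by
  classical
  induction B using Finset.induction_on with
  | empty => simp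
  | insert q B hq ih =>
    have hBs : Fa B π := hB.mono (Finset.subset_insert _ _)
    rw [Finset.prod_insert hq, mul_assoc] at hN
    have ih' := ih hBs ((Dvd.intro_left _ rfl).trans hN)
      fun p hp => hκ p (Finset.mem_insert_of_mem hp)
    have h1 := hB.pn q (Finset.mem_insert_self _ _)
    rw [Finset.prod_insert hq, mul_assoc, Finset.prod_insert hq, mul_assoc, ← ih']
    have hBg : (∏ i ∈ B, π i) * n ≠ 0 := mul_ne_zero hBs.prod_ne hn
    have e : (fun m : RR => φ m * ∏ i ∈ insert q B, tr (π i) m) =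
        fun m : RR => if m ∈ sp (π q) then 0 else φ m * ∏ i ∈ B, tr (π i) m := by
      funext m
      rw [Finset.prod_insert hq]
      unfold tr
      split_ifs <;> ring
    rw [e]
    have hne : ∀ p ∈ B, p ≠ q := fun p hp h => hq (h ▸ hp)
    refine Bd_rem hW hL hBg h1.pr.ne_zero hN ?_ ?_
    · exact (hφ.mono (Dvd.intro_left _ rfl)).mul ((Pe.prod fun p _ => tr_per (π p)).mono
        (Dvd.intro _ rfl))
    · have h2 : Mu (π q) (fun m => φ m * ∏ i ∈ B, tr (π i) m) (κ q * ∏ i ∈ B, (1 : ℂ)) := by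
        refine (hκ q (Finset.mem_insert_self _ _)).mul (Mu.prod fun p hp m => ?_)
        rw [one_mul]
        exact tr_mul (hBs.pn p hp).pr (hB.ne q (Finset.mem_insert_self _ _) p
          (Finset.mem_insert_of_mem hp) (hne p hp).symm) m
      intro m
      have h3 := h2 m
      rw [Finset.prod_const_one, mul_one] at h3
      exact h3

/-- the sum over the subsets -/
theorem Bd_subsets {ι : Type} [DecidableEq ι] (hW : Ds L Ω N lam W) (hL : IsLat L RR Ω)
    {π : ι → RR} (S : Finset ι) (hS : Fa S π) (hN : ∏ i ∈ S, π i ∣ N) :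
    ∑ A ∈ S.powerset, (∏ i ∈ S \ A, (lam (π i) - ∏ j ∈ A, sy (π j) (π i))) *
      Bd Ω W (∏ i ∈ A, π i) (fun m => ∏ i ∈ A, sy (π i) m) =
    2 ^ S.card * Bd Ω W (∏ i ∈ S, π i) (fun m => ∏ i ∈ S, hc (π i) m) := by
  have h1 : ∀ A ∈ S.powerset, (∏ i ∈ S \ A, (lam (π i) - ∏ j ∈ A, sy (π j) (π i))) *
      Bd Ω W (∏ i ∈ A, π i) (fun m => ∏ i ∈ A, sy (π i) m) =
      Bd Ω W (∏ i ∈ S, π i)
        (fun m => ((∏ i ∈ A, sy (π i) m) * ∏ i ∈ S \ A, tr (π i) m)) := by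
    intro A hA
    rw [Finset.mem_powerset] at hA
    have hAg : ∏ i ∈ A, π i ≠ 0 := (hS.mono hA).prod_ne
    have e0 : (∏ i ∈ S \ A, π i) * ∏ i ∈ A, π i = ∏ i ∈ S, π i := Finset.prod_sdiff hA
    rw [← Bd_rems hW hL hAg ?_ _ (S \ A) (hS.mono Finset.sdiff_subset) (by rw [e0]; exact hN) ?_]
    · rw [e0]
    · exact Pe.prod fun p _ => sy_per (π p)
    · intro i hi
      rw [Finset.mem_sdiff] at hi
      exact Mu.prod (q := π i) (S := A) (f := fun j => sy (π j))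
        (κ := fun j => sy (π j) (π i)) fun j hj m => (hS.pn j (hA hj)).mul _ _
  rw [Finset.sum_congr rfl h1, ← Bd_sum hS.prod_ne, ← Bd_smul hS.prod_ne]
  congr 1
  funext m
  have h2 : ∏ i ∈ S, (sy (π i) m + tr (π i) m) =
      ∑ A ∈ S.powerset, (∏ i ∈ A, sy (π i) m) * ∏ i ∈ S \ A, tr (π i) m :=
    Finset.prod_add _ _ _
  have h3 : ∏ i ∈ S, (sy (π i) m + tr (π i) m) = 2 ^ S.card * ∏ i ∈ S, hc (π i) m := by
    rw [← Finset.prod_const, ← Finset.prod_mul_distrib]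
    refine Finset.prod_congr rfl fun q _ => ?_
    unfold hc
    ring
  rw [← h2, h3]

/-- even weights -/
lemma Bd_even (hW : Ds L Ω N lam W) (hL : IsLat L RR Ω) (ho : ∀ z, W (-z) = -W z) {n : RR}
    (hn : n ≠ 0) {φ : RR → ℂ} (hφ : Pe n φ) (he : ∀ x, φ (-x) = φ x) : Bd Ω W n φ = 0 := by
  have f1 := fin_quot hn
  let _ : Fintype (RR ⧸ sp n) := Fintype.ofFinite _
  rw [Bd_eq]
  have hg : Function.Bijective (fun y : RR ⧸ sp n => Ideal.Quotient.mk (sp n) (-y.out)) := by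
    have e1 : (fun y : RR ⧸ sp n => Ideal.Quotient.mk (sp n) (-y.out)) = fun y => -y := by
      funext y
      rw [map_neg, Ideal.Quotient.mk_out]
    rw [e1]
    exact neg_involutive.bijective
  have h1 := sum_rep _ hg (fun x : RR => φ x * W (Ω * x / (n : ℂ)))
    (fun x y h => Bd_term hW hL hn hφ h)
  have h2 : ∀ y : RR ⧸ sp n, φ (-y.out) * W (Ω * ((-y.out : RR) : ℂ) / (n : ℂ)) =
      -(φ y.out * W (Ω * y.out / (n : ℂ))) := by
    intro y
    have e2 : Ω * ((-y.out : RR) : ℂ) / (n : ℂ) = -(Ω * y.out / (n : ℂ)) := by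
      push_cast
      ring
    rw [he, e2, ho]
    ring
  simp only [h2] at h1
  rw [Finset.sum_neg_distrib] at h1
  linear_combination (1 / 2 : ℂ) * h1

end Pool.Agent.R426.QD
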