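import Pool.Agent.R426.QD.Cf
import Pool.Agent.R426.QC.Slt
import Pool.Agent.R426.QC.Cnv

/-!
# The places above two, families of both types
-/

set_option autoImplicit false
set_option linter.unusedSectionVars false

attribute [-instance] DivisionRing.toRatAlgebra

open NumberField IsDedekindDomain

namespace Pool.Agent.R426.QD

open WithZero
open Pool.Agent.R426.QC hiding bR trace_D prime_fR
open Pool.Agent.Y698 Pool.Agent.Y698.SG
open Pool.Agent.Y682 (vv vv_coe charZero_adic exists_sqrt exists_sqrt')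
open Pool.Agent.R426.QC.Cv (LocI)

/-- the reduction of the residue modulo eight -/
noncomputable def h84 : ZMod 8 →+* ZMod 4 := ZMod.castHom (by norm_num : 4 ∣ 8) (ZMod 4)

lemma h84_e6 (x : RR) : h84 (e6 x) = r4 x := by
  have h1 : h84 6 = 2 := by
    show ZMod.castHom _ (ZMod 4) 6 = 2
    rw [map_ofNat]
    decide
  conv_lhs => rw [QC.co' x]
  conv_rhs => rw [QC.co' x]
  simp only [map_add, map_mul, map_intCast, e6_a, r4_a, h1]

lemma h84_e3 (x : RR) : h84 (e3 x) = r4 (cj x) := by
  have h1 : h84 3 = 3 := by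
    show ZMod.castHom _ (ZMod 4) 3 = 3
    rw [map_ofNat]
  have h2 : r4 (cj aR) = 3 := by
    rw [QC.cj_aR, map_sub, map_one, r4_a]
    decide
  conv_lhs => rw [QC.co' x]
  conv_rhs => rw [QC.co' x]
  simp only [map_add, map_mul, map_intCast, e3_a, h1, h2]

lemma h84_one {t : ZMod 8} (h : h84 t = 1) : t = 1 ∨ t = 5 := by
  revert t
  have : ∀ t : ZMod 8, (ZMod.cast t : ZMod 4) = 1 → t = 1 ∨ t = 5 := by decide
  intro t h
  exact this t h

lemma h84_three {t : ZMod 8} (h : h84 t = 3) : t = 3 ∨ t = 7 := by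
  revert t
  have : ∀ t : ZMod 8, (ZMod.cast t : ZMod 4) = 3 → t = 3 ∨ t = 7 := by decide
  intro t h
  exact this t h

section

variable {K : Type} [Field K] [NumberField K] (e : RR ≃+* 𝓞 K)

/-- the place `α` -/
lemma sol_aD {d D : RR} (hd : e6 d = 1 ∨ e6 d = 5) (hD : ∃ J : RR, D = 1 + 4 * J)
    (hd0 : d ≠ 0) (hD0 : D ≠ 0) (hz : Prime aR) :
    LocI K ((plc e hz : HeightOneSpectrum (𝓞 K)).adicCompletion K) (cA (em e aR) (em e D))
      (cB (em e aR) (em e D)) (em e d) := by
  have := charZero_adic (plc e hz : HeightOneSpectrum (𝓞 K))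
  have h2 : aR ∣ (2 : RR) := ⟨cj aR, by rw [QC.cj_aR]; linear_combination aR_sq⟩
  have hsq : ∀ c : RR, e6 c = 1 → ∃ s : (plc e hz : HeightOneSpectrum (𝓞 K)).adicCompletion K,
      s ^ 2 = pk e (plc e hz) c := fun c hc => sqrt_two e hz h2 (e6_zero (by
    rw [map_sub, map_one, hc, sub_self]))
  rcases hd with h5 | h5
  · obtain ⟨s, hs⟩ := hsq d h5
    exact sol_sqE e _ hd0 hs
  rcases cl6 hD with h6 | h6
  · obtain ⟨s, hs⟩ := hsq (-(D * fR * d)) (by
      rw [map_neg, map_mul, map_mul, h5, h6, e6_f]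
      decide)
    refine loc_tor (ema_sq e) (s := s) (pk_ne e (plc e hz) hd0) (em_ne e hD0) ?_
    rw [hs]
    unfold pk
    simp only [map_neg, map_mul, em_fR]
    ring
  · obtain ⟨y', hy'⟩ := e6_four (x := d + D * fR * cj aR ^ 2) (by
      rw [map_add, map_mul, map_mul, map_pow, h5, h6, e6_f, e6_b]
      decide)
    have hodd : e6 y' = 1 ∨ e6 y' = 3 ∨ e6 y' = 5 ∨ e6 y' = 7 := by
      have h7 := congrArg e6 hy'
      rw [map_add, map_mul, map_mul, map_pow, h5, h6, e6_f, e6_b, map_mul, map_pow, e6_a] at h7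
      revert h7
      generalize e6 y' = t
      revert t
      decide
    obtain ⟨s, hs⟩ := hsq (d * y' * (y' - 4 * (D * fR))) (by
      rw [map_mul, map_mul, map_sub, map_mul, map_mul, h5, h6, e6_f, map_ofNat]
      rcases hodd with h | h | h | h <;> rw [h] <;> decide)
    refine loc_r (ema_sq e) (r := 1) (z := s * pk e (plc e hz) (aR ^ 2))
      (pk_ne e (plc e hz) hd0) one_ne_zero ?_
    have h8 : d + D * fR * cj aR ^ 6 = aR ^ 2 * (y' - 4 * (D * fR)) := by
      have e1 : cj aR ^ 4 = 1 - aR ^ 4 := by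
        rw [QC.cj_aR]
        linear_combination (2 * aR ^ 2 - 2 * aR) * aR_sq
      linear_combination hy' + (D * fR * cj aR ^ 2) * e1 + (D * fR * aR ^ 2) * four_eq
    have h9 : pk e (plc e hz) (d + D * fR * cj aR ^ 2) * pk e (plc e hz) (d + D * fR * cj aR ^ 6) *
        pk e (plc e hz) d =
        pk e (plc e hz) (d * y' * (y' - 4 * (D * fR))) * pk e (plc e hz) (aR ^ 2) ^ 2 := by
      unfold pk
      rw [h8, hy']
      simp only [map_mul, map_pow]
      ring
    rw [mul_pow, hs, ← h9]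
    unfold pk
    simp only [map_add, map_mul, map_pow, em_fR, em_cja]
    ring

/-- the place `ᾱ` -/
lemma sol_bD {d D : RR} (hd : (e3 d = 1 ∨ e3 d = 5) ∨ (e3 d = 3 ∨ e3 d = 7))
    (hD : ∃ J : RR, D = 1 + 4 * J) (hd0 : d ≠ 0) (hD0 : D ≠ 0) (hz : Prime (cj aR)) :
    LocI K ((plc e hz : HeightOneSpectrum (𝓞 K)).adicCompletion K) (cA (em e aR) (em e D))
      (cB (em e aR) (em e D)) (em e d) := by
  have := charZero_adic (plc e hz : HeightOneSpectrum (𝓞 K))
  have h2 : cj aR ∣ (2 : RR) := ⟨aR, by rw [QC.cj_aR]; linear_combination aR_sq⟩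
  have hsq : ∀ c : RR, e3 c = 1 → ∃ s : (plc e hz : HeightOneSpectrum (𝓞 K)).adicCompletion K,
      s ^ 2 = pk e (plc e hz) c := fun c hc => sqrt_two e hz h2 (e3_zero (by
    rw [map_sub, map_one, hc, sub_self]))
  rcases hd with (h5 | h5) | hd
  · obtain ⟨s, hs⟩ := hsq d h5
    exact sol_sqE e _ hd0 hs
  · obtain ⟨s, hs⟩ := hsq (d * (64 * d + D * fR) * (4 * aR ^ 4 * d + D * fR)) (by
      rw [map_mul, map_mul, map_add, map_add, map_mul, map_mul, map_mul, map_mul, map_pow, h5,
        e3_f, e3_a, map_ofNat, map_ofNat]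
      rcases cl3 hD with h | h <;> rw [h] <;> decide)
    have h8r : pk e (plc e hz) (8 * cj aR) ≠ 0 := pk_ne e (plc e hz) (mul_ne_zero (by
      intro h
      have := congrArg (fun x : RR => (x : ℂ)) h
      have h88 : ((8 : RR) : ℂ) = 8 := rfl
      simp only [h88] at this
      simp at this) hz.ne_zero)
    refine loc_r (ema_sq e) (r := pk e (plc e hz) (8 * cj aR))
      (z := s * pk e (plc e hz) (cj aR ^ 4)) (pk_ne e (plc e hz) hd0) h8r ?_
    have k1 : d * (8 * cj aR) ^ 2 + D * fR * cj aR ^ 2 = cj aR ^ 2 * (64 * d + D * fR) := by ring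
    have k2 : d * (8 * cj aR) ^ 2 + D * fR * cj aR ^ 6 =
        cj aR ^ 6 * (4 * aR ^ 4 * d + D * fR) := by
      have e1 : (16 : RR) = aR ^ 4 * cj aR ^ 4 := by
        have := four_eq
        linear_combination (4 + aR ^ 2 * cj aR ^ 2) * this
      linear_combination (4 * d * cj aR ^ 2) * e1
    have h9 : pk e (plc e hz) (d * (8 * cj aR) ^ 2 + D * fR * cj aR ^ 2) *
        pk e (plc e hz) (d * (8 * cj aR) ^ 2 + D * fR * cj aR ^ 6) * pk e (plc e hz) d =
        pk e (plc e hz) (d * (64 * d + D * fR) * (4 * aR ^ 4 * d + D * fR)) *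
          pk e (plc e hz) (cj aR ^ 4) ^ 2 := by
      rw [k1, k2]
      unfold pk
      simp only [map_mul, map_pow]
      ring
    rw [mul_pow, hs, ← h9]
    unfold pk
    simp only [map_add, map_mul, map_pow, em_fR, em_cja]
    ring
  · by_cases ht : e3 (-(D * fR * d)) = 1
    · obtain ⟨s, hs⟩ := hsq (-(D * fR * d)) ht
      refine loc_tor (ema_sq e) (s := s) (pk_ne e (plc e hz) hd0) (em_ne e hD0) ?_
      rw [hs]
      unfold pk
      simp only [map_neg, map_mul, em_fR]
      ring
    · have hdD : e3 ((4 - D * fR) * d) = 1 ∧ e3 (d * (4 - D * fR + D * fR * cj aR ^ 4)) = 1 := by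
        simp only [map_neg, map_mul, map_sub, map_add, map_pow, map_ofNat, e3_f, e3_b] at ht ⊢
        rcases cl3 hD with h | h <;> rcases hd with h' | h' <;> rw [h, h'] at ht ⊢ <;>
          revert ht <;> decide
      obtain ⟨s1, hs1⟩ := hsq _ hdD.1
      obtain ⟨s2, hs2⟩ := hsq _ hdD.2
      have hpd := pk_ne e (plc e hz) hd0
      have hpb := pk_ne e (plc e hz) hz.ne_zero
      have hc0 : pk e (plc e hz) (4 - D * fR) ≠ 0 := by
        apply pk_ne
        intro h0
        have h1 := hdD.1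
        rw [h0, zero_mul, map_zero] at h1
        exact absurd h1 (by decide)
      have hs10 : s1 ≠ 0 := by
        rintro rfl
        have h1 : pk e (plc e hz) ((4 - D * fR) * d) = 0 := by
          rw [← hs1]
          ring
        unfold pk at h1 hc0 hpd
        rw [map_mul, map_mul] at h1
        rcases mul_eq_zero.1 h1 with h3 | h3
        · exact hc0 h3
        · exact hpd h3
      have hr : (pk e (plc e hz) d) * (pk e (plc e hz) (cj aR) * s1 / pk e (plc e hz) d) ^ 2 =
          pk e (plc e hz) (cj aR) ^ 2 * pk e (plc e hz) (4 - D * fR) := by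
        rw [div_pow, mul_pow, hs1]
        have h3 : pk e (plc e hz) ((4 - D * fR) * d) =
            pk e (plc e hz) (4 - D * fR) * pk e (plc e hz) d := by
          unfold pk
          rw [map_mul, map_mul]
        rw [h3]
        field_simp
      refine loc_r (ema_sq e) (r := pk e (plc e hz) (cj aR) * s1 / pk e (plc e hz) d)
        (z := s2 * (2 * pk e (plc e hz) (cj aR) ^ 2)) hpd
        (div_ne_zero (mul_ne_zero hpb hs10) hpd) ?_
      have hr' : algebraMap K ((plc e hz : HeightOneSpectrum (𝓞 K)).adicCompletion K) (em e d) *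
          (pk e (plc e hz) (cj aR) * s1 / pk e (plc e hz) d) ^ 2 =
          pk e (plc e hz) (cj aR) ^ 2 * pk e (plc e hz) (4 - D * fR) := hr
      rw [hr', mul_pow, hs2]
      unfold pk
      simp only [map_add, map_sub, map_mul, map_pow, map_ofNat, em_fR, em_cja]
      ring

end

end Pool.Agent.R426.QD
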