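import Pool.Agent.R426.QD.Ls
import Pool.Agent.R426.QC.Vz

/-!
# The valuations of the central value over `ℚ(√-7)`, families of both types
-/

set_option autoImplicit false
set_option linter.unusedSectionVars false

open Filter
open scoped Topology PeriodPair

namespace Pool.Agent.R426.QD

open scoped Classical
open Pool.Agent.R426.QC hiding bR trace_D prime_fR
open Pool.Agent.Y698 Pool.Agent.Y698.SG
open Pool.Agent.W192.HK (sp HC)
open Pool.Agent.TH936.CM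
open Pool.Agent.Y279.SG (sy_cj)

lemma fz_cf {ι : Type} {S : Finset ι} {π : ι → RR} (hS : Ev S π) (z : ℂ) (I : Ideal RR) :
    fz S (fun i => cf (π i)) z (cjI I) = (starRingEnd ℂ) (fz S π ((starRingEnd ℂ) z) I) := by
  obtain ⟨g, rfl⟩ := exists_gen I
  rw [cjI_sp, fz_spD hS.cf, fz_spD hS, map_mul, map_mul, map_mul, e7_real, sgn_conj, cpow_cj,
    e7_cj, nR_cj, cj_coe]
  congr 2
  refine Finset.prod_congr rfl fun i _ => ?_
  show sy (cj (nb (π i))) (cj g) = _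
  rw [sy_cj, sy_nb]

/-- the central value of the conjugate family -/
lemma conj_famD {ι : Type} {S : Finset ι} {π : ι → RR} (hS : Ev S π)
    {F F' : ℂ → ℂ} (d : Differentiable ℂ F)
    (d' : Differentiable ℂ F')
    (h : ∀ z : ℂ, 3 / 2 < z.re → HasSum (fz S π z) (F z))
    (h' : ∀ z : ℂ, 3 / 2 < z.re → HasSum (fz S (fun i => cf (π i)) z) (F' z)) (s : ℂ) :
    F' s = (starRingEnd ℂ) (F ((starRingEnd ℂ) s)) := by
  have h1 : ∀ z : ℂ, 3 / 2 < z.re → F' z = (starRingEnd ℂ) (F ((starRingEnd ℂ) z)) := by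
    intro z hz
    have h2 := h ((starRingEnd ℂ) z) (by rw [Complex.conj_re]; exact hz)
    have h3 := h2.map (starRingEnd ℂ) Complex.continuous_conj
    have h4 := (cjI.hasSum_iff (f := fz S (fun i => cf (π i)) z)).2 (h' z hz)
    have h5 : fz S (fun i => cf (π i)) z ∘ cjI =
        (starRingEnd ℂ) ∘ fz S π ((starRingEnd ℂ) z) := by
      funext I
      exact fz_cf hS z I
    rw [h5] at h4
    exact h4.unique h3
  have h2 := Pool.Agent.Y697.MQ.diff_conj d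
  have a1 : AnalyticOnNhd ℂ F' Set.univ := fun z _ => d'.analyticAt z
  have a2 : AnalyticOnNhd ℂ (fun s => (starRingEnd ℂ) (F ((starRingEnd ℂ) s))) Set.univ :=
    fun z _ => h2.analyticAt z
  have h3 := a1.eqOn_of_preconnected_of_eventuallyEq a2 isPreconnected_univ (Set.mem_univ (2 : ℂ))
    (by
      have hopen : IsOpen {z : ℂ | 3 / 2 < z.re} := isOpen_lt continuous_const Complex.continuous_re
      have hmem : (2 : ℂ) ∈ {z : ℂ | 3 / 2 < z.re} := by
        show (3 / 2 : ℝ) < (2 : ℂ).re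
        norm_num
      filter_upwards [hopen.mem_nhds hmem] with z hz
      exact h1 z hz)
  exact h3 (Set.mem_univ s)

/-- **the valuations** -/
theorem val_zD {ι : Type} {S : Finset ι} {π : ι → RR} (hS : Ev S π) :
    ∃ F : ℂ → ℂ, Differentiable ℂ F ∧
    (∀ z : ℂ, 3 / 2 < z.re → HasSum (fun I : Ideal RR =>
      psi I * (∏ i ∈ S, Xs (π i) I) * (Pool.Agent.W192.HK.nm I : ℂ) ^ (-z)) (F z)) ∧
    ∀ {δ : ℂ}, ‖δ‖ = ‖((∏ i ∈ S, π i : RR) : ℂ)‖ → ∀ {Λ : PeriodPair},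
      Λ.g₂ = 35 / 4 * δ ^ 2 → Λ.g₃ = 49 / 8 * δ ^ 3 → ∀ {t : ℕ}, Odd t →
      ∀ (Γ : Type) [LinearOrderedCommGroupWithZero Γ] (v : Valuation ℂ Γ), v 2 < 1 →
      v (zq (F 1) t Λ S.card) ≤ 1 ∧
        (v (zq (F 1) t Λ S.card) = 1 ↔ gd (mc π) (mr π) S ≠ 0) := by
  have hS' := hS.cf
  obtain ⟨F, g1, g2, g3⟩ := val_D hS
  obtain ⟨F', g1', g2', g3'⟩ := val_D hS'
  refine ⟨F, g1, g2, ?_⟩
  have hFF : F' 1 = (starRingEnd ℂ) (F 1) := by
    have := conj_famD hS g1 g1' g2 g2' 1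
    rwa [map_one] at this
  intro δ hδ Λ h2 h3 t ht
  obtain ⟨L, Ω, h⟩ := exists_LD
  have hD0 : ((∏ i ∈ S, π i : RR) : ℂ) ≠ 0 := by
    intro h0
    have h1 : (∏ i ∈ S, π i : RR) = 0 := Subtype.ext h0
    exact hS.fa.prod_ne h1
  have hn0 : (0 : ℝ) < ‖((∏ i ∈ S, π i : RR) : ℂ)‖ := norm_pos_iff.2 hD0
  have hδ0 : δ ≠ 0 := by rw [← norm_pos_iff, hδ]; exact hn0
  have hper := per7 h hδ0 h2 h3
  have key : ∀ (Γ : Type) [LinearOrderedCommGroupWithZero Γ] (v : Valuation ℂ Γ), v al < 1 →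
      v (zq (F 1) t Λ S.card) ≤ 1 ∧
        (v (zq (F 1) t Λ S.card) = 1 ↔ gd (mc π) (mr π) S ≠ 0) := by
    intro Γ _ v hv
    have t2 := v_two_lt hv
    obtain ⟨a1, a2⟩ := g3 Γ v L Ω h hv
    obtain ⟨b1, b2⟩ := g3' Γ v L Ω h hv
    have hgd := gd_cf hS
    rw [hFF, Complex.conj_conj] at b1 b2
    have b1' := fun h0 : gd (mc π) (mr π) S ≠ 0 => b1 (by rw [hgd]; exact h0)
    have b2' := fun h0 : gd (mc π) (mr π) S = 0 => b2 (by rw [hgd]; exact h0)
    have hΩ : Ω ≠ 0 := h.lat.ne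
    have hΩc : (starRingEnd ℂ) Ω ≠ 0 := (map_ne_zero _).2 hΩ
    have vt : v (t : ℂ) = 1 := by
      have := Pool.Agent.Y715.Z.v_odd t2 (n := (t : ℤ)) (by obtain ⟨m, hm⟩ := ht; omega)
      simpa using this
    have vD : v ((‖((∏ i ∈ S, π i : RR) : ℂ)‖ : ℝ) : ℂ) = 1 := by
      have e1 : (((‖((∏ i ∈ S, π i : RR) : ℂ)‖ : ℝ) : ℂ)) ^ 2 =
          ((nR (∏ i ∈ S, π i) : ℤ) : ℂ) := by
        have e2 : ‖((∏ i ∈ S, π i : RR) : ℂ)‖ ^ 2 = ((nR (∏ i ∈ S, π i) : ℤ) : ℝ) := by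
          rw [← Complex.normSq_eq_norm_sq, normSq_coe]
        exact_mod_cast congrArg (fun x : ℝ => (x : ℂ)) e2
      have e3 : v (((‖((∏ i ∈ S, π i : RR) : ℂ)‖ : ℝ) : ℂ)) ^ 2 = 1 := by
        rw [← map_pow, e1]
        apply Pool.Agent.Y715.Z.v_odd t2
        obtain ⟨J, hJ⟩ := hS.m4
        rw [hJ]
        unfold nR
        have c1 : cX (1 + 4 * J) = 1 + 4 * cX J ∧ cY (1 + 4 * J) = 4 * cY J := by
          apply cXY_of
          push_cast
          have : ((4 : RR) : ℂ) = 4 := rfl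
          rw [this, co J]
          ring
        rw [c1.1, c1.2]
        have : (1 + 4 * cX J) ^ 2 + (1 + 4 * cX J) * (4 * cY J) + 2 * (4 * cY J) ^ 2 =
          1 + 2 * (4 * cX J + 8 * cX J ^ 2 + (1 + 4 * cX J) * (2 * cY J) + (4 * cY J) ^ 2) := by
          ring
        rw [this]
        omega
      rcases lt_trichotomy (v ((‖((∏ i ∈ S, π i : RR) : ℂ)‖ : ℝ) : ℂ)) 1 with h5 | h5 | h5
      · exact absurd e3 (ne_of_lt (pow_lt_one₀ zero_le h5 two_ne_zero))
      · exact h5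
      · exact absurd e3 (ne_of_gt (one_lt_pow₀ h5 two_ne_zero))
    have hnΩ : ((Complex.normSq Ω : ℝ) : ℂ) = Ω * (starRingEnd ℂ) Ω := (Complex.mul_conj Ω).symm
    have h7 : ((Real.sqrt 7 : ℝ) : ℂ) ≠ 0 := by
      exact_mod_cast (Real.sqrt_pos.2 (by norm_num : (0 : ℝ) < 7)).ne'
    have hnc : ((‖((∏ i ∈ S, π i : RR) : ℂ)‖ : ℝ) : ℂ) ≠ 0 := by exact_mod_cast hn0.ne'
    have e : zq (F 1) t Λ S.card * ((2 : ℂ) ^ S.card * 2 ^ S.card) =
        (t : ℂ) ^ 2 * ((‖((∏ i ∈ S, π i : RR) : ℂ)‖ : ℝ) : ℂ) *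
          ((2 * ((starRingEnd ℂ) (F 1) / Ω)) * (2 * (F 1 / (starRingEnd ℂ) Ω))) := by
      unfold zq
      rw [hper, hδ]
      push_cast
      rw [hnΩ]
      have h4 : (4 : ℂ) ^ (S.card + 1) = 2 ^ S.card * 2 ^ S.card * 4 := by
        rw [← mul_pow, pow_succ]; norm_num
      rw [h4]
      field_simp
      ring
    have hvΩ : v (F 1 / (starRingEnd ℂ) Ω) = v (F 1 / Ω) := by
      rw [map_div₀, map_div₀, v_conj_om h]
    have h8 := congrArg v e
    rw [map_mul, map_mul, map_mul, map_mul, map_mul, map_mul, map_mul, map_pow, map_pow, vt, vD,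
      one_pow, one_mul, one_mul, hvΩ] at h8
    have hp0 : v 2 ^ S.card ≠ 0 := pow_ne_zero _ ((Valuation.ne_zero_iff v).2 two_ne_zero)
    have hpp : (0 : Γ) < v 2 ^ S.card := zero_lt_iff.2 hp0
    by_cases hg : gd (mc π) (mr π) S = 0
    · have a3 := a2 hg
      have b3 := b2' hg
      have h9 : v (zq (F 1) t Λ S.card) < 1 := by
        have h10 : v (zq (F 1) t Λ S.card) * (v 2 ^ S.card * v 2 ^ S.card) <
            1 * (v 2 ^ S.card * v 2 ^ S.card) := by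
          rw [h8, one_mul]
          exact mul_lt_mul'' a3 b3 zero_le zero_le
        exact lt_of_mul_lt_mul_right h10 zero_le
      exact ⟨h9.le, fun h10 => absurd h10 h9.ne, fun h10 => absurd hg h10⟩
    · rw [a1 hg, b1' hg] at h8
      have h9 : v (zq (F 1) t Λ S.card) = 1 :=
        mul_right_cancel₀ (mul_ne_zero hp0 hp0) (h8.trans (one_mul _).symm)
      exact ⟨h9.le, fun _ => hg, fun _ => h9⟩
  intro Γ _ v hv
  have hprod : v al * v (1 - al) = v 2 := by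
    rw [← map_mul]
    congr 1
    linear_combination -al_sq
  by_cases h1 : v al < 1
  · exact key Γ v h1
  · have h4 : v (1 - al) < 1 := by
      by_contra h5
      rw [not_lt] at h1 h5
      have := one_le_mul_of_one_le_of_one_le h1 h5
      rw [hprod] at this
      exact absurd hv (not_lt.2 this)
    have h6 := key Γ (v.comap (starRingEnd ℂ)) (by
      rw [Valuation.comap_apply, conj_al]; exact h4)
    rw [Valuation.comap_apply, zq_conj] at h6
    exact h6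

end Pool.Agent.R426.QD
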