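import Pool.Agent.Y698.SG.Wn
import Pool.Agent.Y698.Tw

/-!
# The Eisenstein-Kronecker numbers of weight one at the points of odd order
-/

set_option autoImplicit false
set_option linter.unusedSectionVars false

open Filter
open scoped Topology PeriodPair

namespace Pool.Agent.R426.QD

open Pool.Agent.Y698 Pool.Agent.Y698.SG
open H667R3 Pool.Agent.W192.HK Pool.Agent.TH936.CM Pool.Agent.TH936.PU

variable {L : PeriodPair} {Ω : ℂ} {Γ : Type*} [LinearOrderedCommGroupWithZero Γ]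
  {v : Valuation ℂ Γ}

/-- the residues modulo `ᾱ` -/
lemma res_bl (r : RR) : r ∈ sp bR ∨ r - 1 ∈ sp bR := by
  have e : r = ((cX r : ℤ) : RR) + ((cY r : ℤ) : RR) * aR := by
    apply Subtype.ext
    push_cast
    rw [aR_coe]
    exact co r
  have e2 : bR = 1 - aR := rfl
  rcases Int.even_or_odd (cX r + cY r) with ⟨k, hk⟩ | ⟨k, hk⟩
  · left
    rw [Ideal.mem_span_singleton']
    refine ⟨(k : RR) * aR - ((cY r : ℤ) : RR), ?_⟩
    have hk' : ((cX r : ℤ) : RR) + ((cY r : ℤ) : RR) = k + k := by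
      exact_mod_cast congrArg (fun t : ℤ => (t : RR)) hk
    linear_combination (k : RR) * aR_mul_bR - e - hk' - ((cY r : ℤ) : RR) * e2
  · right
    rw [Ideal.mem_span_singleton']
    refine ⟨(k : RR) * aR - ((cY r : ℤ) : RR), ?_⟩
    have hk' : ((cX r : ℤ) : RR) + ((cY r : ℤ) : RR) = 2 * k + 1 := by
      exact_mod_cast congrArg (fun t : ℤ => (t : RR)) hk
    linear_combination (k : RR) * aR_mul_bR - e - hk' - ((cY r : ℤ) : RR) * e2

lemma bR_ne : bR ≠ 0 := fun h => bl_ne (by rw [← bR_coe, h]; rfl)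

lemma sum_bR [Fintype (RR ⧸ sp bR)] (f : RR ⧸ sp bR → ℂ) :
    ∑ q, f q = f (Ideal.Quotient.mk _ 0) + f (Ideal.Quotient.mk _ 1) := by
  classical
  have hne : Ideal.Quotient.mk (sp bR) 0 ≠ Ideal.Quotient.mk (sp bR) 1 := by
    intro h
    rw [Ideal.Quotient.eq] at h
    have h1 := neg_mem h
    rw [zero_sub, neg_neg] at h1
    exact not_dvd_one bR_nu h1
  have hu : (Finset.univ : Finset (RR ⧸ sp bR)) =
      {Ideal.Quotient.mk (sp bR) 0, Ideal.Quotient.mk (sp bR) 1} := by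
    ext q
    obtain ⟨r, rfl⟩ := Ideal.Quotient.mk_surjective q
    simp only [Finset.mem_univ, Finset.mem_insert, Finset.mem_singleton, true_iff]
    rcases res_bl r with h | h
    · left
      rw [Ideal.Quotient.eq, sub_zero]
      exact h
    · right
      rw [Ideal.Quotient.eq]
      exact h
  rw [hu, Finset.sum_pair hne]

lemma normSq_bl : Complex.normSq ((bR : RR) : ℂ) = 2 := by
  rw [bR_coe]
  have h1 := mul_cj bR
  rw [nR_bR] at h1
  have h2 := congrArg (fun r : RR => (r : ℂ)) h1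
  push_cast at h2
  rw [bR_coe, cj_coe, bR_coe, Complex.mul_conj] at h2
  have h3 : ((Complex.normSq bl : ℝ) : ℂ) = ((2 : ℝ) : ℂ) := by
    rw [h2]
    have h4 : ((2 : RR) : ℂ) = 2 := rfl
    push_cast
    first | exact h4 | rfl
  exact Complex.ofReal_injective h3

lemma out_mk' (I : Ideal RR) (r : RR) : (Ideal.Quotient.mk I r).out - r ∈ I := by
  rw [← Ideal.Quotient.mk_eq_mk_iff_sub_mem, Ideal.Quotient.mk_out]

/-- the relation between the sums at `z` and `ᾱ z` -/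
lemma EE_b (hL : IsLat L RR Ω) {δ : ℝ} (hδ : 0 < δ) (z : ℂ) :
    EE RR Ω δ z + EE RR Ω δ (z + tB Ω) = bl * EE RR Ω (δ / 2) (bl * z) := by
  have f1 := fin_quot bR_ne
  let _ : Fintype (RR ⧸ sp bR) := Fintype.ofFinite _
  have h := EE_distA hL hδ bR bR_ne z
  rw [sum_bR, normSq_bl, bR_coe] at h
  rw [← h]
  have hm : ∀ r : RR, r ∈ sp bR → Ω * (r : ℂ) / bl ∈ L.lattice := by
    intro r hr
    have := (div_mem_iff hL bR_ne r).2 hr
    rwa [bR_coe] at this
  congr 1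
  · apply EE_per hL
    have h1 := hm _ (neg_mem (out_mk' (sp bR) 0))
    convert h1 using 1
    push_cast
    ring
  · apply EE_per hL
    have h1 := hm _ (neg_mem (out_mk' (sp bR) 1))
    convert h1 using 1
    unfold tB
    push_cast
    ring

/-- the difference -/
noncomputable def dd (Ω : ℂ) (δ : ℝ) (z : ℂ) : ℂ := 2 * EE RR Ω δ (z + tB Ω) - 2 * EE RR Ω δ z

lemma EE_step (hL : IsLat L RR Ω) {δ : ℝ} (hδ : 0 < δ) (z : ℂ) :
    2 * EE RR Ω (δ / 2) (bl * z) = al * (2 * EE RR Ω δ z) + bl⁻¹ * dd Ω δ z := by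
  have h := EE_b hL hδ z
  have hb := bl_ne
  have h2 : al = 2 * bl⁻¹ := by
    rw [← al_mul_bl]
    field_simp
  unfold dd
  rw [h2]
  field_simp
  linear_combination (-1 : ℂ) * h

lemma EE_iter (hL : IsLat L RR Ω) {δ : ℝ} (hδ : 0 < δ) (z : ℂ) (k : ℕ) :
    2 * EE RR Ω (δ / 2 ^ k) (bl ^ k * z) = al ^ k * (2 * EE RR Ω δ z) +
      bl⁻¹ * ∑ j ∈ Finset.range k, al ^ (k - 1 - j) * dd Ω (δ / 2 ^ j) (bl ^ j * z) := by
  induction k with
  | zero => simp
  | succ k ih =>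
    have h1 := EE_step hL (δ := δ / 2 ^ k) (by positivity) (bl ^ k * z)
    have e1 : δ / 2 ^ (k + 1) = δ / 2 ^ k / 2 := by rw [pow_succ, div_div]
    have e2 : bl ^ (k + 1) * z = bl * (bl ^ k * z) := by ring
    rw [e1, e2, h1, ih, Finset.sum_range_succ]
    have e3 : ∀ j ∈ Finset.range k, al ^ (k + 1 - 1 - j) * dd Ω (δ / 2 ^ j) (bl ^ j * z) =
        al * (al ^ (k - 1 - j) * dd Ω (δ / 2 ^ j) (bl ^ j * z)) := by
      intro j hj
      rw [Finset.mem_range] at hj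
      have : k + 1 - 1 - j = (k - 1 - j) + 1 := by omega
      rw [this, pow_succ]
      ring
    rw [Finset.sum_congr rfl e3, ← Finset.mul_sum]
    have e4 : k + 1 - 1 - k = 0 := by omega
    rw [e4]
    ring

open Classical in
/-- the limit of the difference -/
noncomputable def V0 (L : PeriodPair) (Ω z : ℂ) : ℂ :=
  if bl * z ∈ L.lattice then 0 else Dd L z (tB Ω)

lemma EE_tB (hL : IsLat L RR Ω) (δ : ℝ) : EE RR Ω δ (tB Ω) = 0 := by
  have h1 := EE_neg (R := RR) (Ω := Ω) δ (tB Ω)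
  have h2 : EE RR Ω δ (-tB Ω) = EE RR Ω δ (tB Ω) := EE_per hL δ (by
    have := neg_mem (two_tB hL)
    convert this using 1
    ring)
  rw [h2] at h1
  linear_combination (1 / 2 : ℂ) * h1

lemma EE_zero (δ : ℝ) : EE RR Ω δ 0 = 0 := by
  have h1 := EE_neg (R := RR) (Ω := Ω) δ 0
  rw [neg_zero] at h1
  linear_combination (1 / 2 : ℂ) * h1

lemma bl_mem (hL : IsLat L RR Ω) {z : ℂ} (h : z ∈ L.lattice) : bl * z ∈ L.lattice := by
  have := hL.mul bR z h
  rwa [bR_coe] at this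

lemma lim_dd (hL : IsLat L RR Ω) {z : ℂ} (hz : z ∈ L.lattice ∨ bl * z ∉ L.lattice) :
    Tendsto (fun δ : ℝ => dd Ω δ z) (𝓝[>] 0) (𝓝 (V0 L Ω z)) := by
  classical
  unfold V0 dd
  rcases hz with hz | hz
  · rw [if_pos (bl_mem hL hz)]
    have h1 : ∀ δ : ℝ, 2 * EE RR Ω δ (z + tB Ω) - 2 * EE RR Ω δ z = 0 := by
      intro δ
      have e1 : EE RR Ω δ (z + tB Ω) = EE RR Ω δ (tB Ω) := EE_per hL δ (by
        rwa [add_sub_cancel_right])
      have e2 : EE RR Ω δ z = EE RR Ω δ 0 := EE_per hL δ (by rwa [sub_zero])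
      rw [e1, e2, EE_tB hL, EE_zero]
      ring
    simp only [h1]
    exact tendsto_const_nhds
  · rw [if_neg hz]
    have hbt := tB_mem hL
    have h1 : z ∉ L.lattice := fun h => hz (bl_mem hL h)
    have h2 : z + tB Ω ∉ L.lattice := fun h => hz (by
      have := sub_mem (bl_mem hL h) hbt
      convert this using 1
      ring)
    have h3 : z - tB Ω ∉ L.lattice := fun h => hz (by
      have := add_mem (bl_mem hL h) hbt
      convert this using 1
      ring)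
    refine (lim_Dd hL h1 (tB_notMem hL) h2 h3).congr fun δ => ?_
    have e1 : EE RR Ω δ (z - tB Ω) = EE RR Ω δ (z + tB Ω) := EE_per hL δ (by
      have := neg_mem (two_tB hL)
      convert this using 1
      ring)
    rw [e1]
    ring

/-- the combination -/
noncomputable def Fm (Ω : ℂ) (m : ℕ) (δ : ℝ) (z : ℂ) : ℂ :=
  (1 - al ^ m)⁻¹ * (2 * EE RR Ω (δ / 2 ^ m) z - al ^ m * (2 * EE RR Ω δ z))

/-- the numbers -/
noncomputable def Wm (L : PeriodPair) (Ω : ℂ) (m : ℕ) (z : ℂ) : ℂ :=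
  (1 - al ^ m)⁻¹ * (bl⁻¹ * ∑ j ∈ Finset.range m, al ^ (m - 1 - j) * V0 L Ω (bl ^ j * z))

lemma tend_div {c : ℝ} (hc : 0 < c) :
    Tendsto (fun δ : ℝ => δ / c) (𝓝[>] 0) (𝓝[>] 0) := by
  rw [tendsto_nhdsWithin_iff]
  constructor
  · have h7 : Continuous (fun δ : ℝ => δ / c) := by fun_prop
    have h8 := (h7.tendsto 0).mono_left (nhdsWithin_le_nhds (s := Set.Ioi 0))
    simpa using h8
  · filter_upwards [self_mem_nhdsWithin] with δ (hδ : 0 < δ)
    show 0 < δ / c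
    positivity

/-- the hypotheses on the level -/
structure Lv (N : RR) (m : ℕ) : Prop where
  cb : IsCoprime bR N
  m0 : 0 < m
  hm : bR ^ m - 1 ∈ sp N

variable {N : RR} {m : ℕ}

lemma mul_bl_mem (hL : IsLat L RR Ω) {z : ℂ} (hz : (N : ℂ) * z ∈ L.lattice) (j : ℕ) :
    (N : ℂ) * (bl ^ j * z) ∈ L.lattice := by
  have := hL.mul (bR ^ j) _ hz
  push_cast at this
  rw [bR_coe] at this
  convert this using 1
  ring

lemma Lv.good (hN : Lv N m) (hL : IsLat L RR Ω) {z : ℂ} (hz : (N : ℂ) * z ∈ L.lattice) :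
    z ∈ L.lattice ∨ bl * z ∉ L.lattice := by
  by_cases h : bl * z ∈ L.lattice
  · left
    refine cop_mem hL hN.cb ?_ hz
    rwa [bR_coe]
  · exact Or.inr h

lemma Lv.good' (hN : Lv N m) (hL : IsLat L RR Ω) {z : ℂ} (hz : (N : ℂ) * z ∈ L.lattice)
    (hz0 : z ∉ L.lattice) (j : ℕ) : bl ^ j * z ∉ L.lattice := by
  intro h
  apply hz0
  refine cop_mem hL (hN.cb.pow_left (m := j)) ?_ hz
  push_cast
  rwa [bR_coe]

lemma Lv.per (hN : Lv N m) (hL : IsLat L RR Ω) {z : ℂ} (hz : (N : ℂ) * z ∈ L.lattice) :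
    bl ^ m * z - z ∈ L.lattice := by
  have h := hN.hm
  rw [Ideal.mem_span_singleton'] at h
  obtain ⟨c, hc⟩ := h
  have h1 := hL.mul c _ hz
  have h2 := congrArg (fun r : RR => (r : ℂ)) hc
  push_cast at h2
  rw [bR_coe] at h2
  convert h1 using 1
  linear_combination -z * h2

lemma lim_F (hN : Lv N m) (hL : IsLat L RR Ω) {z : ℂ} (hz : (N : ℂ) * z ∈ L.lattice) :
    Tendsto (fun δ : ℝ => Fm Ω m δ z) (𝓝[>] 0) (𝓝 (Wm L Ω m z)) := by
  unfold Wm
  have h1 : Tendsto (fun δ : ℝ => (1 - al ^ m)⁻¹ * (bl⁻¹ * ∑ j ∈ Finset.range m,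
      al ^ (m - 1 - j) * dd Ω (δ / 2 ^ j) (bl ^ j * z))) (𝓝[>] 0) (𝓝 ((1 - al ^ m)⁻¹ *
        (bl⁻¹ * ∑ j ∈ Finset.range m, al ^ (m - 1 - j) * V0 L Ω (bl ^ j * z)))) := by
    refine Tendsto.const_mul _ (Tendsto.const_mul _ (tendsto_finsetSum _ fun j _ => ?_))
    refine Tendsto.const_mul _ ?_
    exact (lim_dd hL (hN.good hL (mul_bl_mem hL hz j))).comp (tend_div (by positivity))
  refine h1.congr' ?_
  filter_upwards [self_mem_nhdsWithin] with δ (hδ : 0 < δ)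
  have h2 := EE_iter hL hδ z m
  have h3 : EE RR Ω (δ / 2 ^ m) (bl ^ m * z) = EE RR Ω (δ / 2 ^ m) z :=
    EE_per hL _ (hN.per hL hz)
  rw [h3] at h2
  unfold Fm
  rw [h2]
  ring

/-- periodicity -/
lemma V0_per (hL : IsLat L RR Ω) {z w : ℂ} (h : z - w ∈ L.lattice) : V0 L Ω z = V0 L Ω w := by
  classical
  unfold V0
  have h1 : bl * z ∈ L.lattice ↔ bl * w ∈ L.lattice := by
    have h2 := bl_mem hL h
    rw [mul_sub] at h2
    constructor
    · intro h3
      have := sub_mem h3 h2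
      rwa [sub_sub_cancel] at this
    · intro h3
      have := add_mem h2 h3
      rwa [sub_add_cancel] at this
  have h2 : Dd L z (tB Ω) = Dd L w (tB Ω) := Dd_per h (by rw [sub_self]; exact zero_mem _)
  simp only [h1, h2]

lemma Wm_per (hL : IsLat L RR Ω) {z w : ℂ} (h : z - w ∈ L.lattice) :
    Wm L Ω m z = Wm L Ω m w := by
  unfold Wm
  congr 2
  refine Finset.sum_congr rfl fun j _ => ?_
  congr 1
  apply V0_per hL
  have := hL.mul (bR ^ j) _ h
  push_cast at this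
  rw [bR_coe] at this
  convert this using 1
  ring

lemma neg_lat {z : ℂ} : -z ∈ L.lattice ↔ z ∈ L.lattice := neg_mem_iff

lemma V0_neg (z : ℂ) : V0 L Ω (-z) = -V0 L Ω z := by
  classical
  unfold V0
  have h1 : bl * -z ∈ L.lattice ↔ bl * z ∈ L.lattice := by
    rw [mul_neg]
    exact neg_lat
  have h2 : Dd L (-z) (tB Ω) = -Dd L z (tB Ω) := by
    unfold Dd
    rw [L.weierstrassP_neg, L.derivWeierstrassP_neg]
    ring
  by_cases h : bl * z ∈ L.lattice
  · rw [if_pos (h1.2 h), if_pos h, neg_zero]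
  · rw [if_neg (fun h3 => h (h1.1 h3)), if_neg h, h2]

lemma Wm_neg (z : ℂ) : Wm L Ω m (-z) = -Wm L Ω m z := by
  unfold Wm
  have h1 : ∀ j ∈ Finset.range m, al ^ (m - 1 - j) * V0 L Ω (bl ^ j * -z) =
      -(al ^ (m - 1 - j) * V0 L Ω (bl ^ j * z)) := by
    intro j _
    rw [mul_neg, V0_neg]
    ring
  rw [Finset.sum_congr rfl h1, Finset.sum_neg_distrib]
  ring

/-- the distribution relation -/
theorem Wm_dist (hN : Lv N m) (hL : IsLat L RR Ω) {c : RR} (hc0 : c ≠ 0) (hcN : c ∣ N)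
    [Fintype (RR ⧸ sp c)] {z : ℂ} (hz : (N : ℂ) * z ∈ L.lattice) :
    ∑ t : RR ⧸ sp c, Wm L Ω m (z + Ω * t.out / c) = c * Wm L Ω m (c * z) := by
  have hc0' := coe_ne hc0
  obtain ⟨d, hd⟩ := hcN
  have hpt : ∀ t : RR ⧸ sp c, (N : ℂ) * (z + Ω * t.out / c) ∈ L.lattice := by
    intro t
    have h1 := hL.mem_mul (d * t.out)
    have h2 := add_mem hz h1
    convert h2 using 1
    rw [hd]
    push_cast
    field_simp
  have hcz : (N : ℂ) * (c * z) ∈ L.lattice := by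
    have := hL.mul c _ hz
    convert this using 1
    ring
  have l1 : Tendsto (fun δ : ℝ => ∑ t : RR ⧸ sp c, Fm Ω m δ (z + Ω * t.out / c)) (𝓝[>] 0)
      (𝓝 (∑ t : RR ⧸ sp c, Wm L Ω m (z + Ω * t.out / c))) :=
    tendsto_finsetSum _ fun t _ => lim_F hN hL (hpt t)
  have hcn : 0 < Complex.normSq (c : ℂ) := Complex.normSq_pos.2 hc0'
  have l2 : Tendsto (fun δ : ℝ => c * Fm Ω m (δ / Complex.normSq (c : ℂ)) (c * z)) (𝓝[>] 0)
      (𝓝 (c * Wm L Ω m (c * z))) :=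
    Tendsto.const_mul _ ((lim_F hN hL hcz).comp (tend_div hcn))
  refine tendsto_nhds_unique l1 (l2.congr' ?_)
  filter_upwards [self_mem_nhdsWithin] with δ (hδ : 0 < δ)
  have h1 := EE_distA hL hδ c hc0 z
  have h2 := EE_distA hL (δ := δ / 2 ^ m) (by positivity) c hc0 z
  unfold Fm
  rw [← Finset.mul_sum, Finset.sum_sub_distrib, ← Finset.mul_sum, ← Finset.mul_sum,
    ← Finset.mul_sum, h1, h2]
  have e1 : δ / 2 ^ m / Complex.normSq (c : ℂ) = δ / Complex.normSq (c : ℂ) / 2 ^ m := by ring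
  rw [e1]
  ring

lemma al_pow_ne (hm : 0 < m) : (1 : ℂ) - al ^ m ≠ 0 := by
  intro h
  have h1 : ((1 - aR ^ m : RR) : ℂ) = 0 := by
    push_cast
    rw [aR_coe]
    exact h
  have h2 : (1 : RR) - aR ^ m = 0 := Subtype.ext h1
  apply aR_nu
  obtain ⟨k, rfl⟩ : ∃ k, m = k + 1 := ⟨m - 1, by omega⟩
  refine IsUnit.of_mul_eq_one (aR ^ k) ?_
  rw [pow_succ] at h2
  linear_combination -h2

/-- the relation with the sums over the points of order `√-7` -/
theorem Wm_G (hN : Lv N m) (hL : IsLat L RR Ω) [Fintype (RR ⧸ sp fR)] {T : ℂ}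
    (hT : Tendsto (fun δ : ℝ => GG Ω δ 1) (𝓝[>] 0) (𝓝 T)) {n : RR} (hn0 : n ≠ 0)
    (hn : IsCoprime fR n) (hNn : fR * n ∣ N) (x : RR) :
    2 * Gv L Ω T (Ω * x / n) =
      ∑ y : RR ⧸ sp fR, e7 y.out * Wm L Ω m (Ω * y.out / fR + Ω * x / n) := by
  have hf0 := coe_ne fR_ne
  have hn0' := coe_ne hn0
  obtain ⟨d, hd⟩ := hNn
  have hpt : ∀ y : RR ⧸ sp fR, (N : ℂ) * (Ω * y.out / fR + Ω * x / n) ∈ L.lattice := by
    intro y
    have h1 := hL.mem_mul (d * (n * y.out + fR * x))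
    convert h1 using 1
    rw [hd]
    push_cast
    field_simp
  have l1 : Tendsto (fun δ : ℝ => ∑ y : RR ⧸ sp fR, e7 y.out *
      Fm Ω m δ (Ω * y.out / fR + Ω * x / n)) (𝓝[>] 0)
      (𝓝 (∑ y : RR ⧸ sp fR, e7 y.out * Wm L Ω m (Ω * y.out / fR + Ω * x / n))) :=
    tendsto_finsetSum _ fun y _ => Tendsto.const_mul _ (lim_F hN hL (hpt y))
  have lG := lim_G hL hT (pt_ok hL hn0 hn x)
  have l2 : Tendsto (fun δ : ℝ => (1 - al ^ m)⁻¹ * (2 * GI Ω (δ / 2 ^ m) (Ω * x / n) -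
      al ^ m * (2 * GI Ω δ (Ω * x / n)))) (𝓝[>] 0) (𝓝 ((1 - al ^ m)⁻¹ *
      (2 * Gv L Ω T (Ω * x / n) - al ^ m * (2 * Gv L Ω T (Ω * x / n))))) := by
    refine Tendsto.const_mul _ (Tendsto.sub (Tendsto.const_mul _ ?_)
      (Tendsto.const_mul _ (Tendsto.const_mul _ lG)))
    exact lG.comp (tend_div (by positivity))
  have h3 : (1 - al ^ m)⁻¹ * (2 * Gv L Ω T (Ω * x / n) - al ^ m * (2 * Gv L Ω T (Ω * x / n))) =
      2 * Gv L Ω T (Ω * x / n) := by
    have := al_pow_ne hN.m0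
    field_simp
  rw [h3] at l2
  refine tendsto_nhds_unique (l2.congr fun δ => ?_) l1
  unfold GI Fm
  have e1 : ∀ y : RR ⧸ sp fR, e7 y.out * ((1 - al ^ m)⁻¹ *
      (2 * EE RR Ω (δ / 2 ^ m) (Ω * y.out / fR + Ω * x / n) -
        al ^ m * (2 * EE RR Ω δ (Ω * y.out / fR + Ω * x / n)))) =
      (1 - al ^ m)⁻¹ * (2 * (e7 y.out * EE RR Ω (δ / 2 ^ m) (Ω * y.out / fR + Ω * x / n)) -
        al ^ m * (2 * (e7 y.out * EE RR Ω δ (Ω * y.out / fR + Ω * x / n)))) := fun y => by ring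
  simp only [e1]
  rw [← Finset.mul_sum, Finset.sum_sub_distrib, ← Finset.mul_sum, ← Finset.mul_sum,
    ← Finset.mul_sum]

/-! ### the reduction -/

lemma Rd.inv {z : ℂ} (h : Rd v z 1) : Rd v z⁻¹ 1 := by
  rw [Rd.one_iff] at h ⊢
  have h1 : v z = 1 := by
    have e : z = 1 + (z - 1) := by ring
    rw [e, Valuation.map_add_eq_of_lt_left v (by rw [map_one]; exact h), map_one]
  have hz : z ≠ 0 := by
    rintro rfl
    rw [map_zero] at h1
    exact zero_ne_one h1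
  have e : z⁻¹ - 1 = -((z - 1) * z⁻¹) := by
    field_simp
    ring
  rw [e, Valuation.map_neg, map_mul, map_inv₀, h1, inv_one, mul_one]
  exact h

lemma Rd.alp (hv : v al < 1) {k : ℕ} (hk : 0 < k) : Rd v (al ^ k) 0 := by
  rw [Rd.zero_iff, map_pow]
  exact pow_lt_one₀ zero_le hv hk.ne'

lemma Rd.bl' (hv : v al < 1) : Rd v bl 1 := by
  rw [Rd.one_iff]
  have e : bl - 1 = -al := by unfold bl; ring
  rw [e, Valuation.map_neg]
  exact hv

lemma tb_tB (hL : IsLat L RR Ω) (hv : v al < 1) : Tb v L (tB Ω) :=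
  ⟨tB_notMem hL, bR, by rw [bR_coe, v_bl hv], by rw [bR_coe]; exact tB_mem hL⟩

lemma X_tB (h : LD L Ω) (hv : v al < 1) : v (Xx L (tB Ω)) < 1 := by
  have hb := bl_ne
  have e : Xx L (tB Ω) = al * (bl⁻¹) ^ 2 := by
    unfold Xx
    rw [h.eb]
    field_simp
    have := al_sq
    unfold bl
    linear_combination (-al - 1) * this
  rw [e, map_mul, map_pow, map_inv₀, v_bl hv, inv_one, one_pow, mul_one]
  exact hv

/-- the value of the difference modulo the prime above two -/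
lemma Dd_one (h : LD L Ω) (hv : v al < 1) {z : ℂ} (hz : Tb v L z) (hbz : bl * z ∉ L.lattice) :
    Rd v (Dd L z (tB Ω)) 1 := by
  have hL := h.lat
  have hbt := tB_mem hL
  have h2 : z + tB Ω ∉ L.lattice := fun h => hbz (by
    have := sub_mem (bl_mem hL h) hbt
    convert this using 1
    ring)
  have h3 : z - tB Ω ∉ L.lattice := fun h => hbz (by
    have := add_mem (bl_mem hL h) hbt
    convert this using 1
    ring)
  have hd := hz.diff h hv (tb_tB hL hv) h2 h3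
  have hd0 : Xx L z - Xx L (tB Ω) ≠ 0 := by
    intro h0
    rw [h0, map_zero] at hd
    exact zero_ne_one hd
  have e : ℘[L] z - ℘[L] (tB Ω) = Xx L z - Xx L (tB Ω) := by unfold Xx; ring
  have e2 : ℘'[L] z = 2 * Yy L z + Xx L z := by unfold Yy; ring
  rw [Rd.one_iff]
  unfold Dd
  rw [e, e2]
  have e3 : (2 * Yy L z + Xx L z) / (Xx L z - Xx L (tB Ω)) - 1 =
      (2 * Yy L z + Xx L (tB Ω)) / (Xx L z - Xx L (tB Ω)) := by
    field_simp
    ring
  rw [e3, map_div₀, hd, div_one]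
  exact v_add_lt (v_mul_lt' (v_two_lt hv) (hz.y_int h hv)) (X_tB h hv)

/-- **the numbers are congruent to one** -/
theorem Wm_one (hN : Lv N m) (h : LD L Ω) (hv : v al < 1) (hvN : v (N : ℂ) = 1) {z : ℂ}
    (hz : (N : ℂ) * z ∈ L.lattice) (hz0 : z ∉ L.lattice) : Rd v (Wm L Ω m z) 1 := by
  classical
  have hL := h.lat
  have t2 := v_two_lt hv
  have hV : ∀ j : ℕ, Rd v (V0 L Ω (bl ^ j * z)) 1 := by
    intro j
    have h1 := hN.good' hL hz hz0
    have h2 : bl * (bl ^ j * z) ∉ L.lattice := by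
      have := h1 (j + 1)
      rwa [pow_succ', mul_assoc] at this
    unfold V0
    rw [if_neg h2]
    exact Dd_one h hv ⟨h1 j, N, hvN, mul_bl_mem hL hz j⟩ h2
  have hs : Rd v (∑ j ∈ Finset.range m, al ^ (m - 1 - j) * V0 L Ω (bl ^ j * z))
      (∑ j ∈ Finset.range m, if j = m - 1 then (1 : ZMod 2) else 0) := by
    refine Rd.sum t2 fun j hj => ?_
    rw [Finset.mem_range] at hj
    by_cases hjm : j = m - 1
    · rw [if_pos hjm]
      have e0 : m - 1 - j = 0 := by omega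
      rw [e0, pow_zero, one_mul]
      exact hV j
    · rw [if_neg hjm]
      have := Rd.mul (Rd.alp (v := v) hv (k := m - 1 - j) (by omega)) (hV j)
      rwa [zero_mul] at this
  have hm0 := hN.m0
  rw [Finset.sum_ite_eq' (Finset.range m) (m - 1) (fun _ => (1 : ZMod 2)),
    if_pos (Finset.mem_range.2 (by omega))] at hs
  have h1 : Rd v (1 - al ^ m) 1 := by
    have := Rd.add t2 Rd.one (Rd.neg t2 (Rd.alp (v := v) hv hm0))
    rw [add_zero] at this
    rw [sub_eq_add_neg]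
    exact this
  have h2 := Rd.mul (Rd.inv h1) (Rd.mul (Rd.inv (Rd.bl' hv)) hs)
  rw [one_mul, one_mul] at h2
  exact h2

end Pool.Agent.R426.QD
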